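import Pool.Agent.H88.GT.Df

/-!
ROW C2 (MP_78d38b_GT). `H30OR.loc2` (Pool/Agent/H30/OR/Tf.lean) with one more conclusion: the functionals are independent.

PROOF. Copy the proofs of `loc2` and `exists_uu`. `exists_uu` gives a class in `HH` with `eo w₂ = 0` (in the proof: hb0, hN1) and `uu = 1`; a class in `HH` with `eo w₂ = 1`: choose `y` with `ord_{w₁} y = 0`, `ord_{w₂} y = 1` (H30OD.weak_app) and take `y * N y` (`w₂` has
degree two, so `ord_v (N y)` is even: gg_eo1 and the formula for the norm, or H76PP.ord_norm); then correct the value of `uu` with the first class.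
-/

set_option autoImplicit false
set_option linter.unusedSectionVars false
open scoped Classical

open WithZero NumberField IsDedekindDomain H38RT
open H38T1 (SC sc scu rep eo la si OddP)
open H36MX (hsv)
open H76MQ (al be)
open H76PP (Cub LC ev scm dn Te_nf)
open H36CY (DescAt)
open H30ZO (nb HH Wc)
open H30OR (LocD)
open H88GX (Ext)

namespace H88GT


section

open H38T1 (SC sc scu rep rep_ne sc_rep sc_mul sc_eq_zero sc_surj eo la si Pri OddP tp unif ka)
open H76PP H36MX H76MQ H30ZO H76OD H30OR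

variable {K L : Type} [Field K] [NumberField K] [Field L] [NumberField L] [Algebra K L]
  {v : HeightOneSpectrum (𝓞 K)} {θ : L}

/-- A class of square norm with nontrivial second coordinate. -/
theorem C2_uu {A B : 𝓞 K} (h : Cub K L (A : K) (B : K) θ)
    (hD0 : 4 * (A : K) ^ 3 + 27 * (B : K) ^ 2 ≠ 0) (hv : OddP v) {w₁ w₂ : HeightOneSpectrum (𝓞 L)}
    (h2 : TwT K (A : K) θ v w₁ w₂) : ∃ c ∈ HH K L, eo w₂ c = 0 ∧ uu K (A : K) θ w₁ w₂ c = 1 := by
  have hR : HR2 K L A B θ := hr2 h hD0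
  have hw1 : OddP w₁ := (oddP_dn (K := K)).2 (by rw [h2.dn1]; exact hv)
  have hw2 : OddP w₂ := (oddP_dn (K := K)).2 (by rw [h2.dn2]; exact hv)
  obtain ⟨n₁, m1, -, m3⟩ := exists_la hw1
  obtain ⟨n₂, l1, -, l3⟩ := exists_la hw2
  obtain ⟨y, hy⟩ := H30OD.weak_app ({w₁, w₂} : Finset (HeightOneSpectrum (𝓞 L)))
    (fun V => if V = w₁ then (n₁ : L) else (n₂ : L)) (ε := 1) one_ne_zero
  have hy1 := hy w₁ (by simp)
  have hy2 := hy w₂ (by simp)
  rw [if_pos rfl] at hy1
  rw [if_neg h2.ne.symm] at hy2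
  obtain ⟨a1, a2⟩ := la_near hw1 ((w₁.valuation_eq_one_iff_notMem (K := L) (r := n₁)).2 m1) hy1
  obtain ⟨b1, b2⟩ := la_near hw2 ((w₂.valuation_eq_one_iff_notMem (K := L) (r := n₂)).2 l1) hy2
  rw [m3] at a2
  rw [l3] at b2
  have hy0 : y ≠ 0 := by
    rintro rfl
    rw [map_zero] at a1
    exact zero_ne_one a1
  have ha0 : eo w₁ (sc y) = 0 := Cl_eo_one a1
  have hb0 : eo w₂ (sc y) = 0 := Cl_eo_one b1
  have hfin : Module.Finite K L := Module.Finite.of_basis h.basis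
  have hN0 : Algebra.norm K y ≠ 0 := by
    rw [Ne, Algebra.norm_eq_zero_iff]
    exact hy0
  have hN0' : algebraMap K L (Algebra.norm K y) ≠ 0 := (map_ne_zero _).2 hN0
  have hπ := Cl_unif_ne v
  have hπ' : algebraMap K L (unif v) ≠ 0 := (map_ne_zero _).2 hπ
  have hNsq : IsSquare (Algebra.norm K (y * algebraMap K L (Algebra.norm K y))) := by
    rw [map_mul, Algebra.norm_algebraMap, h.finrank]
    exact ⟨Algebra.norm K y ^ 2, by ring⟩
  have hcy := mul_ne_zero hy0 hN0'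
  have hsc : sc (y * algebraMap K L (Algebra.norm K y)) =
      sc y + sc (algebraMap K L (Algebra.norm K y)) := sc_mul hy0 hN0'
  have eo1 : ∀ x : K, x ≠ 0 → eo w₁ (sc (algebraMap K L x)) = eo v (sc x) := by
    intro x hx
    rw [H38T1.eo_sc ((map_ne_zero _).2 hx), H38T1.eo_sc hx, h2.ord1 x hx]
  have eo2 : ∀ x : K, x ≠ 0 → eo w₂ (sc (algebraMap K L x)) = eo v (sc x) := by
    intro x hx
    rw [H38T1.eo_sc ((map_ne_zero _).2 hx), H38T1.eo_sc hx, h2.ord2 x hx]
  have hπ1 : eo v (sc (unif v)) = 1 := by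
    rw [H38T1.eo_sc hπ, Cl_unif_ord, Int.cast_one]
  have hN1 : eo v (sc (Algebra.norm K y)) = 0 := by
    have h3 := gg_eo1 hR hv h2.toTwG h.finrank hcy hNsq
    rw [hsc, H38T1.eo_add, ha0, zero_add, eo1 _ hN0] at h3
    exact h3
  have hN2 : la v (sc (Algebra.norm K y)) = 0 := by
    have h3 := hR.proj hv hy0 hπ
    rw [gg_sum h2.toTwG (fun w => tp w (sc y) (sc (algebraMap K L (unif v)))), Cl_tp ha0,
      Cl_tp hb0, Cl_tp hN1, eo1 _ hπ, eo2 _ hπ, hπ1, a2, b2, one_mul, one_mul] at h3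
    rw [← h3]
    decide
  have hN3 : la w₁ (sc (algebraMap K L (Algebra.norm K y))) = 0 := by
    have h3 := gg_tp1 hv h2.toTwG hN0 hπ
    rw [Cl_tp (by rw [eo1 _ hN0]; exact hN1), Cl_tp hN1, eo1 _ hπ, hπ1, one_mul, one_mul, hN2] at h3
    exact h3
  refine ⟨_, (H30ZO.mem_HH hcy).2 hNsq, ?_, ?_⟩
  · rw [hsc, H38T1.eo_add, hb0, eo2 _ hN0, hN1, add_zero]
  unfold uu
  rw [hsc, H38T1.la_add hw1, H38T1.eo_add, a2, hN3, hb0, eo2 _ hN0, hN1, add_zero, add_zero,
    mul_zero, add_zero]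

/-- A class of square norm of odd order at the place of degree two. -/
theorem C2_eo {A B : 𝓞 K} (h : Cub K L (A : K) (B : K) θ)
    (hD0 : 4 * (A : K) ^ 3 + 27 * (B : K) ^ 2 ≠ 0) (hv : OddP v) {w₁ w₂ : HeightOneSpectrum (𝓞 L)}
    (h2 : TwT K (A : K) θ v w₁ w₂) : ∃ c ∈ HH K L, eo w₂ c = 1 := by
  have hR : HR2 K L A B θ := hr2 h hD0
  have hu := H38T1.unif_spec w₂
  obtain ⟨y, hy⟩ := H30OD.weak_app ({w₁, w₂} : Finset (HeightOneSpectrum (𝓞 L)))
    (fun V => if V = w₁ then (1 : L) else unif w₂) (ε := exp (-1)) exp_ne_zero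
  have hy1 := hy w₁ (by simp)
  have hy2 := hy w₂ (by simp)
  rw [if_pos rfl] at hy1
  rw [if_neg h2.ne.symm] at hy2
  have a1 : w₁.valuation L y = 1 := by
    have h3 : w₁.valuation L (y - 1) < w₁.valuation L 1 := by
      rw [map_one]
      refine hy1.trans ?_
      rw [← exp_zero, exp_lt_exp]
      norm_num
    have h4 := Valuation.map_eq_of_sub_lt _ h3
    rw [h4, map_one]
  have b1 : w₂.valuation L y = exp (-1) := by
    rw [← hu] at hy2
    rw [Valuation.map_eq_of_sub_lt _ hy2, hu]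
  have hy0 : y ≠ 0 := by
    rintro rfl
    rw [map_zero] at a1
    exact zero_ne_one a1
  have ha0 : eo w₁ (sc y) = 0 := Cl_eo_one a1
  have hb0 : eo w₂ (sc y) = 1 := by
    rw [H38T1.eo_sc hy0]
    unfold ord
    rw [b1, log_exp, neg_neg, Int.cast_one]
  have hfin : Module.Finite K L := Module.Finite.of_basis h.basis
  have hN0 : Algebra.norm K y ≠ 0 := by
    rw [Ne, Algebra.norm_eq_zero_iff]
    exact hy0
  have hN0' : algebraMap K L (Algebra.norm K y) ≠ 0 := (map_ne_zero _).2 hN0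
  have hNsq : IsSquare (Algebra.norm K (y * algebraMap K L (Algebra.norm K y))) := by
    rw [map_mul, Algebra.norm_algebraMap, h.finrank]
    exact ⟨Algebra.norm K y ^ 2, by ring⟩
  have hcy := mul_ne_zero hy0 hN0'
  have hsc : sc (y * algebraMap K L (Algebra.norm K y)) =
      sc y + sc (algebraMap K L (Algebra.norm K y)) := sc_mul hy0 hN0'
  have eo1 : ∀ x : K, x ≠ 0 → eo w₁ (sc (algebraMap K L x)) = eo v (sc x) := by
    intro x hx
    rw [H38T1.eo_sc ((map_ne_zero _).2 hx), H38T1.eo_sc hx, h2.ord1 x hx]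
  have eo2 : ∀ x : K, x ≠ 0 → eo w₂ (sc (algebraMap K L x)) = eo v (sc x) := by
    intro x hx
    rw [H38T1.eo_sc ((map_ne_zero _).2 hx), H38T1.eo_sc hx, h2.ord2 x hx]
  have hN1 : eo v (sc (Algebra.norm K y)) = 0 := by
    have h3 := gg_eo1 hR hv h2.toTwG h.finrank hcy hNsq
    rw [hsc, H38T1.eo_add, ha0, zero_add, eo1 _ hN0] at h3
    exact h3
  refine ⟨_, (H30ZO.mem_HH hcy).2 hNsq, ?_⟩
  rw [hsc, H38T1.eo_add, hb0, eo2 _ hN0, hN1, add_zero]

theorem C2_all {A B : 𝓞 K} (h : Cub K L (A : K) (B : K) θ) (hv : OddP v)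
    (hd : v.valuation K (4 * (A : K) ^ 3 + 27 * (B : K) ^ 2) = 1)
    {w₁ w₂ : HeightOneSpectrum (𝓞 L)} (h2 : TwT K (A : K) θ v w₁ w₂) {D E : K}
    (hD : D ≠ 0) (hDe : Even (ord (v.valuation K) D)) (hE : E ≠ 0)
    (hEo : Odd (ord (v.valuation K) E)) :
    nb K L v = 2 ∧ ∃ r u : Fin 1 → (SC L →+ ZMod 2), LocD h v D E r u ∧
      ∀ z z' : Fin 1 → ZMod 2, ∃ c ∈ HH K L, (∀ i, r i c = z i) ∧ ∀ i, u i c = z' i := by
  have hA : v.valuation K (A : K) ≤ 1 := v.valuation_le_one A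
  have hB : v.valuation K (B : K) ≤ 1 := v.valuation_le_one B
  have hD0 : 4 * (A : K) ^ 3 + 27 * (B : K) ^ 2 ≠ 0 := by
    intro h3
    rw [h3, map_zero] at hd
    exact zero_ne_one hd
  have hR : HR2 K L A B θ := hr2 h hD0
  have hw1 : OddP w₁ := (oddP_dn (K := K)).2 (by rw [h2.dn1]; exact hv)
  have hnb : nb K L v = 2 := by
    unfold H30ZO.nb
    have h1 : {w : HeightOneSpectrum (𝓞 L) | dn K w = v} = {w₁, w₂} := by
      ext w
      constructor
      · intro hw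
        exact h2.only w hw
      · rintro (rfl | hw)
        · exact h2.dn1
        · rw [Set.mem_singleton_iff] at hw
          rw [hw]
          exact h2.dn2
    rw [h1, Set.ncard_pair h2.ne]
  have hdsc : dsc A B ∉ v.asIdeal ^ 2 := by
    intro hm
    have h2 : dsc A B ∈ v.asIdeal := Ideal.pow_le_self two_ne_zero hm
    have h3 := (v.valuation_lt_one_iff_mem (K := K) _).2 h2
    have h4 : ((dsc A B : 𝓞 K) : K) = 4 * (A : K) ^ 3 + 27 * (B : K) ^ 2 := by
      change algebraMap (𝓞 K) K (dsc A B) = _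
      unfold dsc
      simp only [map_add, map_mul, map_pow, map_ofNat]
    have h5 : v.valuation K (4 * (A : K) ^ 3 + 27 * (B : K) ^ 2) < 1 :=
      lt_of_eq_of_lt (congrArg (v.valuation K) h4.symm) h3
    rw [hd] at h5
    exact lt_irrefl _ h5
  have hz : ∀ x : ZMod 2, x = 0 ∨ x = 1 := by decide
  have heo1 : ∀ c ∈ HH K L, eo w₁ c = 0 := by
    intro c hc
    obtain ⟨y, hy, rfl⟩ := sc_surj c
    rw [H30ZO.mem_HH hy] at hc
    exact gg_eo1 hR hv h2.toTwG h.finrank hy hc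
  obtain ⟨R, hRc⟩ : ∃ R : SC L →+ ZMod 2, ∀ c, R c = eo w₂ c :=
    ⟨AddMonoidHom.mk' (fun c => eo w₂ c) (fun c c' => H38T1.eo_add _ _ _), fun _ => rfl⟩
  obtain ⟨U, hUc⟩ : ∃ U : SC L →+ ZMod 2, ∀ c, U c = uu K (A : K) θ w₁ w₂ c :=
    ⟨AddMonoidHom.mk' (fun c => uu K (A : K) θ w₁ w₂ c) (fun c c' => by
      unfold uu
      rw [H38T1.la_add hw1, H38T1.eo_add]
      ring), fun _ => rfl⟩
  refine ⟨hnb, fun _ => R, fun _ => U, ⟨?_, ?_, ?_⟩, ?_⟩
  · intro c hc
    rw [Wc_even h hA hB hv hd hD hDe hc]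
    constructor
    · intro h3 _
      rw [hRc]
      exact h3 w₂ h2.dn2
    · intro h3 w hw
      rcases h2.only w hw with hww | hww
      · rw [hww]
        exact heo1 c hc
      · rw [hww, ← hRc]
        exact h3 0
  · obtain ⟨W, hWH, hW, hW0, hW1⟩ := idx_W h hv hA hB hD0 hE
    intro c hc
    have key : c ∈ W ↔ ∀ i, (fun _ => U : Fin 1 → (SC L →+ ZMod 2)) i c = 0 := by
      refine idx_eq hWH _ ?_ ?_ hW0 ?_ hc
      · intro c hcW _
        rw [hUc]
        exact Wc_spec h (fun v => v.valuation_le_one A) (fun v => v.valuation_le_one B) hv hd h2 hE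
          hEo ((hW c).1 hcW).1 ((hW c).1 hcW).2
      · intro z
        rcases hz (z 0) with h3 | h3
        · refine ⟨0, (HH K L).zero_mem, fun i => ?_⟩
          rw [map_zero, Subsingleton.elim i 0, h3]
        · obtain ⟨c, hc, -, hc1⟩ := C2_uu h hD0 hv h2
          refine ⟨c, hc, fun i => ?_⟩
          rw [hUc, hc1, Subsingleton.elim i 0, h3]
      · rw [Fintype.card_fin]
        rw [hnb] at hW1
        omega
    rw [← key, hW c]
    exact ⟨fun h3 => ⟨hc, h3⟩, fun h3 => h3.2⟩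
  · intro c hc y hy hyc hal hbe
    have hN : IsSquare (Algebra.norm K y) := by
      rw [← H30ZO.mem_HH hy, hyc]
      exact hc
    rw [Fin.sum_univ_one, hRc, hUc, (hilb K).odd v hv _ _ hal hbe]
    rcases hz (eo w₂ c) with h0 | h0
    · rw [h0, zero_mul]
      refine conic_CL h hR hv hdsc hy hN hal hbe ?_
      intro w hw
      rcases h2.only w hw with hww | hww
      · rw [hww, hyc]
        exact heo1 c hc
      · rw [hww, hyc]
        exact h0
    · have h1 := conic_CT h hR hv h2 hy hN hal hbe (by rw [hyc]; exact h0)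
      rw [h1, hyc, h0, one_mul]
      unfold uu nuw
      rw [h0, mul_one]
  · obtain ⟨c₁, k1, k2, k3⟩ := C2_uu h hD0 hv h2
    obtain ⟨c₂, l1, l2⟩ := C2_eo h hD0 hv h2
    have key : ∀ a b : ZMod 2, ∃ c ∈ HH K L, R c = a ∧ U c = b := by
      intro a b
      rcases hz a with rfl | rfl
      · rcases hz b with rfl | rfl
        · exact ⟨0, (HH K L).zero_mem, map_zero R, map_zero U⟩
        · exact ⟨c₁, k1, by rw [hRc, k2], by rw [hUc, k3]⟩
      · by_cases hb : U c₂ = b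
        · exact ⟨c₂, l1, by rw [hRc, l2], hb⟩
        · refine ⟨c₂ + c₁, (HH K L).add_mem l1 k1, ?_, ?_⟩
          · rw [map_add, hRc, hRc, l2, k2, add_zero]
          · rw [map_add, hUc c₁, k3]
            have h5 : ∀ x y : ZMod 2, ¬ x = y → x + 1 = y := by decide
            exact h5 _ _ hb
    intro z z'
    obtain ⟨c, hc, c1, c2⟩ := key (z 0) (z' 0)
    exact ⟨c, hc, fun i => by rw [Subsingleton.elim i 0]; exact c1,
      fun i => by rw [Subsingleton.elim i 0]; exact c2⟩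

end

theorem loc2_js {K L : Type} [Field K] [NumberField K] [Field L] [NumberField L] [Algebra K L]
    {v : HeightOneSpectrum (𝓞 K)} {θ : L} {A B : 𝓞 K} (h : Cub K L (A : K) (B : K) θ) (hv : OddP v)
    (hd : v.valuation K (4 * (A : K) ^ 3 + 27 * (B : K) ^ 2) = 1)
    {w₁ w₂ : HeightOneSpectrum (𝓞 L)} (h2 : H76MQ.TwT K (A : K) θ v w₁ w₂) {D E : K}
    (hD : D ≠ 0) (hDe : Even (ord (v.valuation K) D)) (hE : E ≠ 0)
    (hEo : Odd (ord (v.valuation K) E)) :
    nb K L v = 2 ∧ ∃ r u : Fin 1 → (SC L →+ ZMod 2), LocD h v D E r u ∧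
      ∀ z z' : Fin 1 → ZMod 2, ∃ c ∈ HH K L, (∀ i, r i c = z i) ∧ ∀ i, u i c = z' i := by
  exact C2_all h hv hd h2 hD hDe hE hEo

end H88GT
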