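import Pool.Agent.H88.GT.C1
import Pool.Agent.H88.GT.C2
import Pool.Agent.H42.GN.Ig

/-!
ROW C3 (MP_78d38b_GT). `H42GN.locD_of` (Pool/Agent/H42/GN/Ig.lean) with the independence of the functionals.

PROOF. Copy the proofs of `H30OR.loc_all` (Pool/Agent/H30/OR/Tg.lean) and `H42GN.locD_of`, with C1, C2 in the place of loc3, loc2.
-/

set_option autoImplicit false
set_option linter.unusedSectionVars false
open scoped Classical

open WithZero NumberField IsDedekindDomain H38RT
open H38T1 (SC sc scu rep eo la si OddP)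
open H36MX (hsv)
open H76MQ (al be)
open H76PP (Cub LC ev scm dn Te_nf)
open H36CY (DescAt)
open H30ZO (nb HH Wc)
open H30OR (LocD)
open H88GX (Ext)

namespace H88GT

section

open H76PP H36MX H76MQ H30ZO H76OD H30OR

/-- `H30OR.loc_all` with the independence of the functionals. -/
theorem C3_all {K L : Type} [Field K] [NumberField K] [Field L] [NumberField L] [Algebra K L]
    {v : HeightOneSpectrum (𝓞 K)} {θ : L} {A B : 𝓞 K} (h : Cub K L (A : K) (B : K) θ)
    (hv : OddP v) (h3 : v.valuation K 3 = 1)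
    (hd : v.valuation K (4 * (A : K) ^ 3 + 27 * (B : K) ^ 2) = 1) {D E : K}
    (hD : D ≠ 0) (hDe : Even (ord (v.valuation K) D)) (hE : E ≠ 0)
    (hEo : Odd (ord (v.valuation K) E)) :
    ∃ (m : ℕ) (r u : Fin m → (SC L →+ ZMod 2)), nb K L v = m + 1 ∧ LocD h v D E r u ∧
      (m : ZMod 2) = la v (sc (-(4 * (A : K) ^ 3 + 27 * (B : K) ^ 2))) ∧
      ∀ z z' : Fin m → ZMod 2, ∃ c ∈ HH K L, (∀ i, r i c = z i) ∧ ∀ i, u i c = z' i := by
  have hA : v.valuation K (A : K) ≤ 1 := v.valuation_le_one A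
  have hB : v.valuation K (B : K) ≤ 1 := v.valuation_le_one B
  have hD0 : 4 * (A : K) ^ 3 + 27 * (B : K) ^ 2 ≠ 0 := by
    intro h3
    rw [h3, map_zero] at hd
    exact zero_ne_one hd
  have hco : ∀ x : 𝓞 K, x ∈ v.asIdeal ↔ v.valuation K (x : K) < 1 := fun x =>
    (v.valuation_lt_one_iff_mem (K := K) x).symm
  by_cases H : ∃ t : 𝓞 K, t ^ 3 + A * t + B ∈ v.asIdeal
  · obtain ⟨t, ht⟩ := H
    by_cases H2 : ∃ s : 𝓞 K, -3 * t ^ 2 - 4 * A - s ^ 2 ∈ v.asIdeal
    · obtain ⟨s, hs⟩ := H2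
      rw [hco] at ht hs
      have e1 : ((t ^ 3 + A * t + B : 𝓞 K) : K) = (t : K) ^ 3 + (A : K) * (t : K) + (B : K) := by
        change algebraMap (𝓞 K) K _ = _
        simp only [map_add, map_mul, map_pow]
      have e2 : ((-3 * t ^ 2 - 4 * A - s ^ 2 : 𝓞 K) : K) =
          -3 * (t : K) ^ 2 - 4 * (A : K) - (s : K) ^ 2 := by
        change algebraMap (𝓞 K) K _ = _
        simp only [map_sub, map_mul, map_pow, map_neg, map_ofNat]
      obtain ⟨e, he⟩ := roots_of hv hA hB hd (v.valuation_le_one t)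
        (lt_of_eq_of_lt (congrArg (v.valuation K) e1.symm) ht)
        (lt_of_eq_of_lt (congrArg (v.valuation K) e2.symm) hs)
      have hnb := nb_eq3 h hd he
      obtain ⟨r, u, hru, hjs⟩ := loc3_js h hv hA hB hd hnb.le he hD hDe hE hEo
      refine ⟨2, r, u, hnb, hru, ?_, hjs⟩
      rw [la_three hv hd he]
      decide
    · push Not at H2
      have h6 : (6 : 𝓞 K) ∉ v.asIdeal := by
        rw [hco]
        intro h6
        have e1 : ((6 : 𝓞 K) : K) = 2 * 3 := by
          change algebraMap (𝓞 K) K 6 = _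
          rw [map_ofNat]
          norm_num
        have h7 : v.valuation K (2 * 3) < 1 := lt_of_eq_of_lt (congrArg (v.valuation K) e1.symm) h6
        have h8 : v.valuation K 2 = 1 := hv
        rw [map_mul, h8, h3, one_mul] at h7
        exact lt_irrefl _ h7
      obtain ⟨w₁, w₂, htw⟩ := exists_TwT h (dsc_notMem hd) h6 ⟨t, ht, H2⟩
      obtain ⟨hnb, r, u, hru, hjs⟩ := loc2_js h hv hd htw hD hDe hE hEo
      refine ⟨1, r, u, hnb, hru, ?_, hjs⟩
      rw [la_one hv hd ht H2]
      decide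
  · push Not at H
    have hno : H73P2.NoRootAt v (A : K) (B : K) := by
      refine ⟨1, A, B, one_ne_zero, by ring, by ring, hA, hB, fun t ht => ?_⟩
      obtain ⟨t', ht'⟩ := Tf_approx v ht
      have h4 : v.valuation K (((t' ^ 3 + A * t' + B : 𝓞 K) : K)) = 1 :=
        (v.valuation_eq_one_iff_notMem (K := K)).2 (H t')
      have e1 : ((t' ^ 3 + A * t' + B : 𝓞 K) : K) = (t' : K) ^ 3 + (A : K) * (t' : K) + (B : K) := by
        change algebraMap (𝓞 K) K _ = _
        simp only [map_add, map_mul, map_pow]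
      have h5 : v.valuation K ((t' : K) ^ 3 + (A : K) * (t' : K) + (B : K)) = 1 :=
        (congrArg (v.valuation K) e1).symm.trans h4
      have e2 : t ^ 3 + (A : K) * t + (B : K) = ((t' : K) ^ 3 + (A : K) * (t' : K) + (B : K)) +
          (t - (t' : K)) * (t ^ 2 + t * (t' : K) + (t' : K) ^ 2 + (A : K)) := by ring
      have ht1 : v.valuation K (t' : K) ≤ 1 := v.valuation_le_one t'
      have h6 : v.valuation K
          ((t - (t' : K)) * (t ^ 2 + t * (t' : K) + (t' : K) ^ 2 + (A : K))) < 1 := by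
        rw [map_mul]
        refine mul_lt_one_of_lt_of_le ht' (Valuation.map_add_le _ (Valuation.map_add_le _
          (Valuation.map_add_le _ ?_ ?_) ?_) hA)
        · rw [map_pow]
          exact pow_le_one₀ zero_le ht
        · rw [map_mul]
          exact mul_le_one₀ ht zero_le ht1
        · rw [map_pow]
          exact pow_le_one₀ zero_le ht1
      rw [e2, Valuation.map_add_eq_of_lt_left _ (by rw [h5]; exact h6), h5]
    have hnb := H36O2.Oi_nb h hno
    have hnb1 := nb_ge1 K L v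
    refine ⟨0, fun i => i.elim0, fun i => i.elim0, by omega,
      loc1 h hv hA hB hD0 hnb hD hE _ _, ?_, fun _ _ => ⟨0, (HH K L).zero_mem, fun i => i.elim0,
        fun i => i.elim0⟩⟩
    rw [la_no hv hd H]
    decide

end

theorem loc_js {F L : Type} [Field F] [NumberField F] [Field L] [NumberField L] [Algebra F L]
    {v : HeightOneSpectrum (𝓞 F)} {a b : F} {θ : L} (h : Cub F L a b θ)
    (ha : ∀ v : HeightOneSpectrum (𝓞 F), v.valuation F a ≤ 1)
    (hb : ∀ v : HeightOneSpectrum (𝓞 F), v.valuation F b ≤ 1) (hv : OddP v)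
    (h3 : v.valuation F 3 = 1) (hd : v.valuation F (4 * a ^ 3 + 27 * b ^ 2) = 1) {D E : F}
    (hD : D ≠ 0) (hDe : Even (ord (v.valuation F) D)) (hE : E ≠ 0)
    (hEo : Odd (ord (v.valuation F) E)) :
    ∃ (m : ℕ) (r u : Fin m → (SC L →+ ZMod 2)), nb F L v = m + 1 ∧ LocD h v D E r u ∧
      (m : ZMod 2) = la v (sc (-(4 * a ^ 3 + 27 * b ^ 2))) ∧
      ∀ z z' : Fin m → ZMod 2, ∃ c ∈ HH F L, (∀ i, r i c = z i) ∧ ∀ i, u i c = z' i := by
  obtain ⟨A, rfl⟩ := H42GN.ig_int ha
  obtain ⟨B, rfl⟩ := H42GN.ig_int hb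
  exact C3_all h hv h3 hd hD hDe hE hEo

end H88GT
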