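import Pool.Agent.H88.GT.Dq

/-!
ROW A2 (MP_78d38b_GT). The residue degree of an unramified place is the order of its decomposition group.

PROOF. `Ideal.card_stabilizer_eq` (`= e * f`) as in Pool/Agent/H42/GN/Hf.lean (the identification of the stabilizer of `w` with that of `w.asIdeal` is in `Hf_stab` there), `e = 1` by `¬ Ram` (Ram k w: `(dn k w).asIdeal.map _ ≤ w.asIdeal ^ 2`;
Ideal.ramificationIdx, `Ideal.ramificationIdx_spec` or H73P2.unram_ord in Pool/Agent/H73/P2/Ua.lean).
-/

set_option autoImplicit false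
set_option linter.unusedSectionVars false
open scoped Classical

open WithZero NumberField IsDedekindDomain H38RT
open H38T1 (SC sc scu rep eo la si OddP)
open H36MX (hsv)
open H76MQ (al be)
open H76PP (Cub LC ev scm dn Te_nf)
open H36CY (DescAt)
open H30ZO (nb HH Wc)
open H30OR (LocD)
open H88GX (Ext)

namespace H88GT

variable {k k' : Type} [Field k] [NumberField k] [Field k'] [NumberField k'] [Algebra k k']

open scoped Pointwise in
private theorem A2_st (w : HeightOneSpectrum (𝓞 k')) :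
    St k w = MulAction.stabilizer (k' ≃ₐ[k] k') w.asIdeal := by
  ext g
  rw [mem_St, MulAction.mem_stabilizer_iff]
  have key : (H88OD.gq g • w).asIdeal = g • w.asIdeal := by
    ext x
    have h1 : H38T1.gO (H88OD.gq g)⁻¹ x = g⁻¹ • x := by
      apply RingOfIntegers.ext
      rw [H38T1.gO_coe]
      rfl
    change H38T1.gO (H88OD.gq g)⁻¹ x ∈ w.asIdeal ↔ _
    rw [h1, ← Ideal.mem_pointwise_smul_iff_inv_smul_mem]
  rw [← key]
  exact HeightOneSpectrum.ext_iff

open scoped Pointwise in
theorem inert_st [IsGalois k k'] {w : HeightOneSpectrum (𝓞 k')} (hr : ¬ H73P2.Ram k w) :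
    w.asIdeal.inertiaDeg (𝓞 k) = Nat.card (St k w) := by
  have hl : w.asIdeal.LiesOver (dn k w).asIdeal := ⟨rfl⟩
  have hp := (dn k w).isPrime
  have hm := (dn k w).isMaximal
  have hP := w.isPrime
  have hG : IsGaloisGroup (k' ≃ₐ[k] k') (𝓞 k) (𝓞 k') := inferInstance
  have h1 := Ideal.card_stabilizer_eq (G := k' ≃ₐ[k] k') (dn k w).asIdeal w.asIdeal
  rw [Ideal.ramificationIdxIn_eq_ramificationIdx (dn k w).asIdeal w.asIdeal (k' ≃ₐ[k] k'),
    Ideal.inertiaDegIn_eq_inertiaDeg (dn k w).asIdeal w.asIdeal (k' ≃ₐ[k] k'),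
    ← Ideal.ramificationIdx'_eq_ramificationIdx (dn k w).asIdeal w.asIdeal (dn k w).ne_bot] at h1
  have h2 : Ideal.ramificationIdx' (dn k w).asIdeal w.asIdeal = 1 := by
    refine Ideal.ramificationIdx'_spec ?_ hr
    rw [pow_one, Ideal.map_le_iff_le_comap]
    exact le_rfl
  rw [h2, one_mul] at h1
  rw [A2_st, h1]

end H88GT
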