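import Pool.Agent.H88.GT.Dq

/-!
ROW A4 (MP_78d38b_GT). The decomposition group of an unramified place is cyclic.

PROOF. The inertia group is trivial: its order is `e = 1` (`Ideal.card_inertia_eq_ramificationIdxIn`). Frobenius: `IsArithFrobAt.exists_of_isInvariant (𝓞 k) (k' ≃ₐ[k] k') w.asIdeal` gives `φ` with `φ x ≡ x ^ q mod w`; `φ ∈ St` (IsArithFrobAt.mem_stabilizer).
For `g ∈ St` the automorphism of the residue field over `𝓞 k / dn k w` is a power of the Frobenius (finite fields: FiniteField.bijective_frobeniusAlgEquivOfAlgebraic_pow or bijective_frobeniusAlgHom_pow; or the same order argument), so `g (φ ^ n)⁻¹` is in the inertia group.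
See H42/PC/BFr.lean, H88/SS/Fr.lean (pq_cyc) for similar proofs; `St k w` and the stabilizer of `w.asIdeal`: see `Hf_stab` in Pool/Agent/H42/GN/Hf.lean.
-/

set_option autoImplicit false
set_option linter.unusedSectionVars false
open scoped Classical

open WithZero NumberField IsDedekindDomain H38RT
open H38T1 (SC sc scu rep eo la si OddP)
open H36MX (hsv)
open H76MQ (al be)
open H76PP (Cub LC ev scm dn Te_nf)
open H36CY (DescAt)
open H30ZO (nb HH Wc)
open H30OR (LocD)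
open H88GX (Ext)

namespace H88GT

variable {k k' : Type} [Field k] [NumberField k] [Field k'] [NumberField k'] [Algebra k k']

open scoped Pointwise in
private theorem A4_core {k k' : Type} [Field k] [NumberField k] [Field k'] [NumberField k'] [Algebra k k']
    [IsGalois k k'] (P : Ideal (𝓞 k')) (hP : P.IsMaximal) (hP0 : P ≠ ⊥)
    (hin : ∀ σ : k' ≃ₐ[k] k', (∀ y : 𝓞 k', σ • y - y ∈ P) → σ = 1) :
    ∃ φ ∈ MulAction.stabilizer (k' ≃ₐ[k] k') P, ∀ g ∈ MulAction.stabilizer (k' ≃ₐ[k] k') P,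
      ∃ n : ℕ, g = φ ^ n := by
  have hprime : P.IsPrime := hP.isPrime
  have hfin : Finite (𝓞 k' ⧸ P) := Ideal.finiteQuotientOfFreeOfNeBot _ hP0
  obtain ⟨φ, hφ⟩ := IsArithFrobAt.exists_of_isInvariant (𝓞 k) (k' ≃ₐ[k] k') P
  refine ⟨φ, hφ.mem_stabilizer, fun g hg => ?_⟩
  have hpm : (P.under (𝓞 k)).IsMaximal := Ideal.isMaximal_comap_of_isIntegral_of_isMaximal P
  let _ : Field (𝓞 k ⧸ P.under (𝓞 k)) := Ideal.Quotient.field _
  let _ : Field (𝓞 k' ⧸ P) := Ideal.Quotient.field _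
  have hfin2 : Finite (𝓞 k ⧸ P.under (𝓞 k)) :=
    Finite.of_injective _ (algebraMap (𝓞 k ⧸ P.under (𝓞 k)) (𝓞 k' ⧸ P)).injective
  let _ : Fintype (𝓞 k ⧸ P.under (𝓞 k)) := Fintype.ofFinite _
  obtain ⟨n, hn⟩ := (FiniteField.bijective_frobeniusAlgEquivOfAlgebraic_pow
    (𝓞 k ⧸ P.under (𝓞 k)) (𝓞 k' ⧸ P)).2
      (Ideal.Quotient.stabilizerHom P (P.under (𝓞 k)) (k' ≃ₐ[k] k') ⟨g, hg⟩)
  have h1 : ∀ x : 𝓞 k', Ideal.Quotient.mk P (g • x) =
      (Ideal.Quotient.mk P x) ^ (Nat.card (𝓞 k ⧸ P.under (𝓞 k)) ^ n.1) := by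
    intro x
    have h2 := DFunLike.congr_fun hn (Ideal.Quotient.mk P x)
    simp only [AlgEquiv.coe_pow, FiniteField.coe_frobeniusAlgEquivOfAlgebraic_iterate] at h2
    rw [Nat.card_eq_fintype_card]
    exact h2.symm
  have h3 : ∀ (m : ℕ) (x : 𝓞 k'), Ideal.Quotient.mk P (φ ^ m • x) =
      (Ideal.Quotient.mk P x) ^ (Nat.card (𝓞 k ⧸ P.under (𝓞 k)) ^ m) := by
    intro m
    induction m with
    | zero =>
      intro x
      rw [pow_zero, one_smul, pow_zero, pow_one]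
    | succ m ih =>
      intro x
      have h4 := hφ (φ ^ m • x)
      have h5 : Ideal.Quotient.mk P (φ • (φ ^ m • x)) =
          (Ideal.Quotient.mk P (φ ^ m • x)) ^ Nat.card (𝓞 k ⧸ P.under (𝓞 k)) := by
        rw [← map_pow]
        exact Ideal.Quotient.eq.2 h4
      rw [pow_succ', mul_smul, h5, ih, ← pow_mul, pow_succ]
  refine ⟨n.1, ?_⟩
  have h6 : g * (φ ^ n.1)⁻¹ = 1 := by
    apply hin
    intro y
    have h7 : y = φ ^ n.1 • ((φ ^ n.1)⁻¹ • y) := by rw [smul_inv_smul]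
    have h8 : (g * (φ ^ n.1)⁻¹) • y - y =
        g • ((φ ^ n.1)⁻¹ • y) - φ ^ n.1 • ((φ ^ n.1)⁻¹ • y) := by
      rw [mul_smul, smul_inv_smul]
    rw [h8, ← Ideal.Quotient.eq, h1, h3]
  exact mul_inv_eq_one.1 h6

open scoped Pointwise in
private theorem A4_mem {w : HeightOneSpectrum (𝓞 k')} (g : k' ≃ₐ[k] k') :
    g ∈ St k w ↔ g ∈ MulAction.stabilizer (k' ≃ₐ[k] k') w.asIdeal := by
  have h1 : ∀ x : 𝓞 k', H38T1.gO (H88OD.gq g)⁻¹ x = g⁻¹ • x := by
    intro x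
    apply RingOfIntegers.ext
    rw [H38T1.gO_coe]
    rfl
  rw [mem_St, MulAction.mem_stabilizer_iff]
  constructor
  · intro h
    ext x
    have h2 : x ∈ (H88OD.gq g • w).asIdeal ↔ x ∈ w.asIdeal := by rw [h]
    change H38T1.gO (H88OD.gq g)⁻¹ x ∈ w.asIdeal ↔ x ∈ w.asIdeal at h2
    rw [h1] at h2
    rw [Ideal.mem_pointwise_smul_iff_inv_smul_mem]
    exact h2
  · intro h
    apply HeightOneSpectrum.ext
    ext x
    change H38T1.gO (H88OD.gq g)⁻¹ x ∈ w.asIdeal ↔ x ∈ w.asIdeal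
    rw [h1, ← Ideal.mem_pointwise_smul_iff_inv_smul_mem, h]

private theorem A4_inertia [IsGalois k k'] {w : HeightOneSpectrum (𝓞 k')}
    (hr : ¬ H73P2.Ram k w) (σ : k' ≃ₐ[k] k') (h : ∀ y : 𝓞 k', σ • y - y ∈ w.asIdeal) :
    σ = 1 := by
  have hover : w.asIdeal.LiesOver (dn k w).asIdeal := ⟨rfl⟩
  have hmax := (dn k w).isPrime.isMaximal (dn k w).ne_bot
  have hfin : Finite (𝓞 k ⧸ (dn k w).asIdeal) :=
    Ideal.finiteQuotientOfFreeOfNeBot _ (dn k w).ne_bot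
  have hperf : PerfectField (dn k w).asIdeal.ResidueField := by
    infer_instance
  have h1 := Ideal.card_inertia_eq_ramificationIdxIn (G := k' ≃ₐ[k] k') (dn k w).asIdeal
    w.asIdeal
  rw [Ideal.ramificationIdxIn_eq_ramificationIdx (dn k w).asIdeal w.asIdeal (k' ≃ₐ[k] k'),
    ← Ideal.ramificationIdx'_eq_ramificationIdx _ _ (dn k w).ne_bot] at h1
  have h2 : (dn k w).asIdeal.map (algebraMap (𝓞 k) (𝓞 k')) ≤ w.asIdeal := by
    rw [Ideal.map_le_iff_le_comap]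
    exact le_of_eq hover.over
  have h3 : Ideal.ramificationIdx' (dn k w).asIdeal w.asIdeal = 1 := by
    by_contra h4
    exact hr ((Ideal.ramificationIdx'_ne_one_iff h2).1 h4)
  rw [h3, Nat.card_eq_one_iff_unique] at h1
  have h5 := h1.1
  have h6 : (⟨σ, h⟩ : w.asIdeal.inertia (k' ≃ₐ[k] k')) = ⟨1, by
      intro y
      rw [one_smul, sub_self]
      exact Submodule.zero_mem _⟩ := Subsingleton.elim _ _
  exact congrArg Subtype.val h6

theorem st_cyc [IsGalois k k'] {w : HeightOneSpectrum (𝓞 k')} (hr : ¬ H73P2.Ram k w) :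
    ∃ φ ∈ St k w, ∀ g ∈ St k w, ∃ n : ℕ, g = φ ^ n := by
  obtain ⟨φ, hφ, h⟩ := A4_core (k := k) w.asIdeal w.isMaximal w.ne_bot
    (fun σ hσ => A4_inertia hr σ hσ)
  exact ⟨φ, (A4_mem φ).2 hφ, fun g hg => h g ((A4_mem g).1 hg)⟩

end H88GT
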