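import Pool.Agent.H88.GT.Dq
import Pool.Agent.H42.GN.If

/-!
ROW D0 (MP_78d38b_GT). The quadratic situation for an involution.

PROOF. `M = IntermediateField.fixedField (H42GN.inv2 h2)` as in the proof of `H42GN.fix_sum` (Pool/Agent/H42/GN/Ie.lean; inv2: If.lean), `LM` from `H73P2.exists_sub` as in Pool/Agent/H42/GN/Id.lean.
-/

set_option autoImplicit false
set_option linter.unusedSectionVars false
open scoped Classical

open WithZero NumberField IsDedekindDomain H38RT
open H38T1 (SC sc scu rep eo la si OddP)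
open H36MX (hsv)
open H76MQ (al be)
open H76PP (Cub LC ev scm dn Te_nf)
open H36CY (DescAt)
open H30ZO (nb HH Wc)
open H30OR (LocD)
open H88GX (Ext)

namespace H88GT

variable {K N LN : Type} [Field K] [NumberField K] [Field N] [NumberField N] [Field LN]
  [NumberField LN] [Algebra K N] [Algebra N LN] {a b : K} {θ : LN} {S : Ext K N LN a b θ}
  {Sg : Finset (HeightOneSpectrum (𝓞 K))} {D0 D : K}

private theorem D0_aux {M : Type} [Field M] [NumberField M] [Algebra K M] [Algebra M N]
    [IsScalarTower K M N] (S : Ext K N LN a b θ) (hgal : IsGalois M N)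
    (htwo : Module.finrank M N = 2) {ψ : N ≃ₐ[K] N} (h2 : ψ * ψ = 1) (h1 : ψ ≠ 1)
    (haut : ∀ h : N ≃ₐ[M] N, h = 1 ∨ h.restrictScalars K = ψ)
    (hex : ∃ h : N ≃ₐ[M] N, h.restrictScalars K = ψ) :
    ∃ (LM : Type) (_ : Field LM) (_ : NumberField LM) (_ : Algebra M LM)
      (_ : Algebra LM LN) (θM : LM), QV M S θM ψ := by
  have hab : ∀ x : K, algebraMap K N x = algebraMap M N (algebraMap K M x) :=
    IsScalarTower.algebraMap_apply K M N
  let _ : Algebra M LN := ((algebraMap N LN).comp (algebraMap M N)).toAlgebra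
  have _ : IsScalarTower M N LN := IsScalarTower.of_algebraMap_eq fun x => rfl
  have hcubN : Cub N LN (algebraMap M N (algebraMap K M a)) (algebraMap M N (algebraMap K M b)) θ := by
    rw [← hab, ← hab]
    exact S.cub
  obtain ⟨LM, iF, iN, iA, iB, iT, θM, hM, hθM⟩ := H73P2.exists_sub hcubN
  have hML : ∀ x : M, algebraMap LM LN (algebraMap M LM x) = algebraMap N LN (algebraMap M N x) :=
    fun x => by rw [← IsScalarTower.algebraMap_apply M LM LN, ← IsScalarTower.algebraMap_apply M N LN]
  exact ⟨LM, iF, iN, iA, iB, θM, ⟨hM, hML, hθM, hgal, htwo, h2, h1, haut, hex⟩⟩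

private theorem D0_card {G : Type} [Group G] {g : G} (hg : g * g = 1) (hg1 : g ≠ 1) :
    Nat.card (H42GN.inv2 hg) = 2 := by
  have h1 : ((H42GN.inv2 hg : Subgroup G) : Set G) = {1, g} := by
    ext x
    exact Iff.rfl
  have h2 : Nat.card (H42GN.inv2 hg) = ((H42GN.inv2 hg : Subgroup G) : Set G).ncard := rfl
  rw [h2, h1, Set.ncard_pair hg1.symm]

theorem exists_QV (S : Ext K N LN a b θ) {ψ : N ≃ₐ[K] N} (h2 : ψ * ψ = 1) (h1 : ψ ≠ 1) :
    ∃ (M : Type) (_ : Field M) (_ : NumberField M) (_ : Algebra K M) (_ : Algebra M N)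
      (_ : IsScalarTower K M N) (LM : Type) (_ : Field LM) (_ : NumberField LM) (_ : Algebra M LM)
      (_ : Algebra LM LN) (θM : LM), QV M S θM ψ := by
  have _ : IsGalois K N := S.gal
  have hfd : FiniteDimensional K N := Module.Finite.of_restrictScalars_finite ℚ K N
  have hnf : NumberField (IntermediateField.fixedField (H42GN.inv2 h2)) :=
    NumberField.of_module_finite K (IntermediateField.fixedField (H42GN.inv2 h2))
  have hgal : IsGalois (IntermediateField.fixedField (H42GN.inv2 h2)) N :=
    IsGalois.tower_top_of_isGalois K _ N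
  have htwo : Module.finrank (IntermediateField.fixedField (H42GN.inv2 h2)) N = 2 := by
    rw [IntermediateField.finrank_fixedField_eq_card, D0_card h2 h1]
  obtain ⟨LM, i1, i2, i3, i4, θM, hQ⟩ := D0_aux
    (M := IntermediateField.fixedField (H42GN.inv2 h2)) S hgal htwo h2 h1
    (by
      intro h
      have h3 : h.restrictScalars K ∈
          (IntermediateField.fixedField (H42GN.inv2 h2)).fixingSubgroup := by
        rw [IntermediateField.mem_fixingSubgroup_iff]
        intro x hx
        exact h.commutes ⟨x, hx⟩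
      rw [IntermediateField.fixingSubgroup_fixedField] at h3
      rcases h3 with h4 | h4
      · left
        apply AlgEquiv.ext
        intro x
        exact congrArg (fun t : N ≃ₐ[K] N => t x) h4
      · exact Or.inr h4)
    (by
      refine ⟨AlgEquiv.ofRingEquiv (f := ψ.toRingEquiv) fun x => ?_, ?_⟩
      · exact x.2 ⟨ψ, Or.inr rfl⟩
      · apply AlgEquiv.ext
        intro x
        rfl)
  exact ⟨_, _, hnf, _, _, inferInstance, LM, i1, i2, i3, i4, θM, hQ⟩

end H88GT
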