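import Pool.Agent.H88.GT.Dq
import Pool.Agent.H88.GX.Gc

/-!
ROW D1 (MP_78d38b_GT). The places above a place fixed by the involution.

PROOF. (one) the places of `N` above `dn M V` are conjugate under `N ≃ₐ[M] N` (H88GX.Gc_trans with K := M), which fixes `V` (q.aut; `gq` of `h.restrictScalars K` is `gq h`).
(card) `N ≃ₐ[M] N` has order two (IsGalois.card_aut_eq_finrank, q.two) and all its elements are in `St M V`.
(le) for a place `p` of `LM` above `dn M V` choose a place `w` of `LN` above `p` (H76PP.exists_above); `dn N w` lies above `dn M V` (the two compositions of restrictions agree: q.ml), so it is `V` by (one); `p ↦ w` is injective from the places above `dn M V` to the places above `V` (Set.ncard_le_ncard_of_injOn, H76PP.fin_above).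
-/

set_option autoImplicit false
set_option linter.unusedSectionVars false
open scoped Classical

open WithZero NumberField IsDedekindDomain H38RT
open H38T1 (SC sc scu rep eo la si OddP)
open H36MX (hsv)
open H76MQ (al be)
open H76PP (Cub LC ev scm dn Te_nf)
open H36CY (DescAt)
open H30ZO (nb HH Wc)
open H30OR (LocD)
open H88GX (Ext)

namespace H88GT

variable {K N LN : Type} [Field K] [NumberField K] [Field N] [NumberField N] [Field LN]
  [NumberField LN] [Algebra K N] [Algebra N LN] {a b : K} {θ : LN} {S : Ext K N LN a b θ}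
  {Sg : Finset (HeightOneSpectrum (𝓞 K))} {D0 D : K}

variable {M LM : Type} [Field M] [NumberField M] [Field LM] [NumberField LM] [Algebra K M]
  [Algebra M N] [IsScalarTower K M N] [Algebra M LM] [Algebra LM LN] {θM : LM} {ψ : N ≃ₐ[K] N}

/-- The group of `N / M` fixes `V`. -/
theorem D1_st (q : QV M S θM ψ) {V : HeightOneSpectrum (𝓞 N)} (hψ : ψ ∈ St K V)
    (h : N ≃ₐ[M] N) : H88OD.gq h • V = V := by
  rcases q.aut h with h1 | h1
  · rw [h1]
    have e : H88OD.gq (1 : N ≃ₐ[M] N) = 1 := rfl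
    rw [e, one_smul]
  · have e : H88OD.gq h = H88OD.gq ψ := by
      rw [← h1]
      rfl
    rw [e]
    exact hψ

/-- The two ways down from `LN` to `M`. -/
theorem D1_sq (q : QV M S θM ψ) (w : HeightOneSpectrum (𝓞 LN)) :
    dn M (dn N w) = dn M (dn LM w) := by
  apply HeightOneSpectrum.ext
  ext x
  have e : algebraMap (𝓞 N) (𝓞 LN) (algebraMap (𝓞 M) (𝓞 N) x) =
      algebraMap (𝓞 LM) (𝓞 LN) (algebraMap (𝓞 M) (𝓞 LM) x) := by
    apply RingOfIntegers.ext
    exact (q.ml (x : M)).symm
  show algebraMap (𝓞 N) (𝓞 LN) (algebraMap (𝓞 M) (𝓞 N) x) ∈ w.asIdeal ↔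
    algebraMap (𝓞 LM) (𝓞 LN) (algebraMap (𝓞 M) (𝓞 LM) x) ∈ w.asIdeal
  rw [e]

theorem QV.one (q : QV M S θM ψ) {V : HeightOneSpectrum (𝓞 N)} (hψ : ψ ∈ St K V)
    (V' : HeightOneSpectrum (𝓞 N)) (h : dn M V' = dn M V) : V' = V := by
  have := q.gal
  obtain ⟨g, hg⟩ := H88GX.Gc_trans (K := M) h
  rw [hg]
  exact D1_st q hψ g

theorem QV.card (q : QV M S θM ψ) {V : HeightOneSpectrum (𝓞 N)} (hψ : ψ ∈ St K V) :
    Nat.card (St M V) = 2 := by
  have := q.gal
  have h1 : St M V = ⊤ := by
    rw [eq_top_iff]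
    intro h _
    exact D1_st q hψ h
  rw [h1, Subgroup.card_top, IsGalois.card_aut_eq_finrank, q.two]

theorem QV.le (q : QV M S θM ψ) {V : HeightOneSpectrum (𝓞 N)} (hψ : ψ ∈ St K V) :
    nb M LM (dn M V) ≤ nb N LN V := by
  choose f hf using fun p : HeightOneSpectrum (𝓞 LM) => H76PP.exists_above (K := LM) (L := LN) p
  refine Set.ncard_le_ncard_of_injOn f ?_ ?_ (H76PP.fin_above V)
  · intro p hp
    apply q.one hψ
    rw [D1_sq q (f p), hf p]
    exact hp
  · intro p _ p' _ h
    rw [← hf p, h, hf p']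

end H88GT
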