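import Pool.Agent.H88.GT.Dq
import Pool.Agent.H88.GT.C3
import Pool.Agent.H73.P2.Ua

/-!
ROW D3 (MP_78d38b_GT). The local data over `N` at `V` and over `M` at `dn M V`.

PROOF. `loc_js` (C3).  The hypotheses for `N`: as in the proof of `H42GN.nec_nt` (Pool/Agent/H42/GN/Ih.lean, the use of locD_of: ig_two, ig_three, ig_disc in Pool/Agent/H42/GN/Ig.lean); the parity of the orders of `D0`, `D` at `V`: `H73P2.unram_ord` (Pool/Agent/H73/P2/Ua.lean).  For `M`:
the same with ig_two etc. for `F := M`, and `H73P2.unram_mid` for the orders.  (loc_js wants `a`, `b` of `M`, namely `algebraMap K M a`, integral at all places: H76PP.val_le (S.ha _).)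
-/

set_option autoImplicit false
set_option linter.unusedSectionVars false
open scoped Classical

open WithZero NumberField IsDedekindDomain H38RT
open H38T1 (SC sc scu rep eo la si OddP)
open H36MX (hsv)
open H76MQ (al be)
open H76PP (Cub LC ev scm dn Te_nf)
open H36CY (DescAt)
open H30ZO (nb HH Wc)
open H30OR (LocD)
open H88GX (Ext)

namespace H88GT

variable {K N LN : Type} [Field K] [NumberField K] [Field N] [NumberField N] [Field LN]
  [NumberField LN] [Algebra K N] [Algebra N LN] {a b : K} {θ : LN} {S : Ext K N LN a b θ}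
  {Sg : Finset (HeightOneSpectrum (𝓞 K))} {D0 D : K}

theorem locN (hok : S.Ok D0 Sg) (h3 : ∀ v : HeightOneSpectrum (𝓞 K), v ∉ Sg → v.valuation K 3 = 1)
    (hram : ∀ V : HeightOneSpectrum (𝓞 N), dn K V ∉ Sg → ¬ H73P2.Ram K V) (hD : D ≠ 0)
    {V : HeightOneSpectrum (𝓞 N)} (hV : dn K V ∉ Sg) (hDo : Odd (ord ((dn K V).valuation K) D)) :
    ∃ (m : ℕ) (r u : Fin m → (SC LN →+ ZMod 2)), nb N LN V = m + 1 ∧
      LocD S.cub V (algebraMap K N D0) (algebraMap K N D) r u ∧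
      (m : ZMod 2) = la V (sc (-(4 * (algebraMap K N a) ^ 3 + 27 * (algebraMap K N b) ^ 2))) ∧
      ∀ z z' : Fin m → ZMod 2, ∃ c ∈ HH N LN, (∀ i, r i c = z i) ∧ ∀ i, u i c = z' i := by
  refine loc_js S.cub (fun w => H76PP.val_le (S.ha _)) (fun w => H76PP.val_le (S.hb _))
    (H42GN.ig_two _ (hok.two _ hV)) (H42GN.ig_three _ (h3 _ hV))
    (H42GN.ig_disc _ (hok.dis _ hV)) ((map_ne_zero _).2 hok.ne) ?_ ((map_ne_zero _).2 hD) ?_
  · rw [H73P2.unram_ord (hram V hV) hok.ne]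
    unfold ord
    rw [hok.val _ hV, log_one, neg_zero]
    exact ⟨0, rfl⟩
  · rw [H73P2.unram_ord (hram V hV) hD]
    exact hDo

variable {M LM : Type} [Field M] [NumberField M] [Field LM] [NumberField LM] [Algebra K M]
  [Algebra M N] [IsScalarTower K M N] [Algebra M LM] [Algebra LM LN] {θM : LM}

theorem locM (hok : S.Ok D0 Sg) (h3 : ∀ v : HeightOneSpectrum (𝓞 K), v ∉ Sg → v.valuation K 3 = 1)
    (hram : ∀ V : HeightOneSpectrum (𝓞 N), dn K V ∉ Sg → ¬ H73P2.Ram K V) (hD : D ≠ 0)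
    {V : HeightOneSpectrum (𝓞 N)} (hV : dn K V ∉ Sg) (hDo : Odd (ord ((dn K V).valuation K) D))
    (hM : Cub M LM (algebraMap K M a) (algebraMap K M b) θM) :
    ∃ (m : ℕ) (r u : Fin m → (SC LM →+ ZMod 2)), nb M LM (dn M V) = m + 1 ∧
      LocD hM (dn M V) (algebraMap K M D0) (algebraMap K M D) r u ∧
      (m : ZMod 2) =
        la (dn M V) (sc (-(4 * (algebraMap K M a) ^ 3 + 27 * (algebraMap K M b) ^ 2))) ∧
      ∀ z z' : Fin m → ZMod 2, ∃ c ∈ HH M LM, (∀ i, r i c = z i) ∧ ∀ i, u i c = z' i := by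
  have hdd : dn K (dn M V) = dn K V := H73P2.dn_dn V
  have hV' : dn K (dn M V) ∉ Sg := by
    rw [hdd]
    exact hV
  refine loc_js hM (fun w => H76PP.val_le (S.ha _)) (fun w => H76PP.val_le (S.hb _))
    (H42GN.ig_two _ (hok.two _ hV')) (H42GN.ig_three _ (h3 _ hV'))
    (H42GN.ig_disc _ (hok.dis _ hV')) ((map_ne_zero _).2 hok.ne) ?_ ((map_ne_zero _).2 hD) ?_
  · rw [(H73P2.unram_mid (k := M) (hram V hV)).2 _ hok.ne]
    unfold ord
    rw [hok.val _ hV, log_one, neg_zero]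
    exact ⟨0, rfl⟩
  · rw [(H73P2.unram_mid (k := M) (hram V hV)).2 _ hD]
    exact hDo

end H88GT
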