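import Pool.Agent.H88.GT.A1
import Pool.Agent.H88.GT.A2
import Pool.Agent.H88.GT.D0
import Pool.Agent.H88.GT.D1
import Pool.Agent.H88.GT.D3
import Pool.Agent.H38.OD.Nb

/-!
ROW D5 (MP_78d38b_GT). If the decomposition group of `V` contains an involution then there are not two places above `V`.

PROOF. D0, D1: `Nat.card (St M V) = 2`; `¬ Ram M V` (H38OD.ram_up in Pool/Agent/H38/OD/Nb.lean) so `V.asIdeal.inertiaDeg (𝓞 M) = 2` (A2).  The element `-(4 a ^ 3 + 27 b ^ 2)` of `M` is a unit at `dn M V` (hok.dis, H76PP.val_one), so by A1 its `la V` is `2 * _ = 0`.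
By D3 (locN) `nb N LN V = m + 1` and `(m : ZMod 2) = la V _ = 0`, so `m ≠ 1`.
-/

set_option autoImplicit false
set_option linter.unusedSectionVars false
open scoped Classical

open WithZero NumberField IsDedekindDomain H38RT
open H38T1 (SC sc scu rep eo la si OddP)
open H36MX (hsv)
open H76MQ (al be)
open H76PP (Cub LC ev scm dn Te_nf)
open H36CY (DescAt)
open H30ZO (nb HH Wc)
open H30OR (LocD)
open H88GX (Ext)

namespace H88GT

variable {K N LN : Type} [Field K] [NumberField K] [Field N] [NumberField N] [Field LN]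
  [NumberField LN] [Algebra K N] [Algebra N LN] {a b : K} {θ : LN} {S : Ext K N LN a b θ}
  {Sg : Finset (HeightOneSpectrum (𝓞 K))} {D0 D : K}

theorem nb_ne2 (hok : S.Ok D0 Sg)
    (h3 : ∀ v : HeightOneSpectrum (𝓞 K), v ∉ Sg → v.valuation K 3 = 1)
    (hram : ∀ V : HeightOneSpectrum (𝓞 N), dn K V ∉ Sg → ¬ H73P2.Ram K V) (hD : D ≠ 0)
    {V : HeightOneSpectrum (𝓞 N)} (hV : dn K V ∉ Sg) (hDo : Odd (ord ((dn K V).valuation K) D))
    {ψ : N ≃ₐ[K] N} (hψ : ψ ∈ St K V) (hψ2 : ψ * ψ = 1) (hψ1 : ψ ≠ 1) : nb N LN V ≠ 2 := by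
  obtain ⟨M, _, _, _, _, _, LM, _, _, _, _, θM, q⟩ := exists_QV S hψ2 hψ1
  have gal : IsGalois M N := q.gal
  have hr : ¬ H73P2.Ram M V := fun h => hram V hV (H38OD.ram_up h)
  have hf : V.asIdeal.inertiaDeg (𝓞 M) = 2 := by rw [inert_st hr, q.card hψ]
  have hdd : dn K (dn M V) = dn K V := H73P2.dn_dn V
  obtain ⟨m, r, u, hnb, -, hm, -⟩ := locN (S := S) hok h3 hram hD hV hDo
  have hx : (dn M V).valuation M
      (-(4 * (algebraMap K M a) ^ 3 + 27 * (algebraMap K M b) ^ 2)) = 1 := by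
    rw [Valuation.map_neg]
    exact H42GN.ig_disc (F := M) (dn M V) (by rw [hdd]; exact hok.dis _ hV)
  have ho : OddP V := H42GN.ig_two V (hok.two _ hV)
  have h1 := la_res (k := M) ho hx
  have e : algebraMap M N (-(4 * (algebraMap K M a) ^ 3 + 27 * (algebraMap K M b) ^ 2)) =
      -(4 * (algebraMap K N a) ^ 3 + 27 * (algebraMap K N b) ^ 2) := by
    rw [map_neg, map_add, map_mul, map_mul, map_pow, map_pow, map_ofNat, map_ofNat,
      ← IsScalarTower.algebraMap_apply, ← IsScalarTower.algebraMap_apply]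
  rw [e, hf] at h1
  have h2 : ((2 : ℕ) : ZMod 2) = 0 := rfl
  rw [h2, zero_mul] at h1
  rw [h1] at hm
  intro h
  have hm1 : m = 1 := by omega
  rw [hm1] at hm
  exact absurd hm (by decide)

end H88GT
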