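import Pool.Agent.H88.GT.Dq
import Pool.Agent.H88.GX.Gc

/-!
ROW D2 (MP_78d38b_GT). `LN / LM` is Galois with group `{1, ρ ψ}`.

PROOF. `[LN : LM] = 2`: `[LN : M] = [LN : N] [N : M] = 3 * 2 = [LN : LM] * 3` (Cub.finrank, q.two; give `LN` the `M`-algebra structure through `N`, it agrees with that through `LM` by q.ml; Module.finrank_mul_finrank).  `S.ρ ψ` fixes `θ` (S.ρθ) and `N`-elements of `M` (S.ρF), hence the image of `LM`
(hM.eq_co: every element of `LM` is a polynomial in `θM`; q.th, q.ml), and it is not the identity.  A quadratic extension in characteristic zero is Galois (IsGalois.of_separable_splitting_field or: normal since degree two: Algebra.IsQuadraticExtension), and its group has order two, so it is `{1, ρ ψ}`.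
(conj) `H88GX.Gc_trans` for `LN / LM`: `w' = gq g • w` with `g = 1` or `gq g = S.ρ ψ`.
-/

set_option autoImplicit false
set_option linter.unusedSectionVars false
open scoped Classical

open WithZero NumberField IsDedekindDomain H38RT
open H38T1 (SC sc scu rep eo la si OddP)
open H36MX (hsv)
open H76MQ (al be)
open H76PP (Cub LC ev scm dn Te_nf)
open H36CY (DescAt)
open H30ZO (nb HH Wc)
open H30OR (LocD)
open H88GX (Ext)

namespace H88GT

variable {K N LN : Type} [Field K] [NumberField K] [Field N] [NumberField N] [Field LN]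
  [NumberField LN] [Algebra K N] [Algebra N LN] {a b : K} {θ : LN} {S : Ext K N LN a b θ}
  {Sg : Finset (HeightOneSpectrum (𝓞 K))} {D0 D : K}

variable {M LM : Type} [Field M] [NumberField M] [Field LM] [NumberField LM] [Algebra K M]
  [Algebra M N] [IsScalarTower K M N] [Algebra M LM] [Algebra LM LN] {θM : LM} {ψ : N ≃ₐ[K] N}

/-- the elements of `LN` fixed by `ρ ψ` come from `LM` -/
private theorem D2_fix (q : QV M S θM ψ) (z : LN) (hz : S.ρ ψ z = z) :
    ∃ y : LM, algebraMap LM LN y = z := by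
  have hgal : IsGalois M N := q.gal
  have hc : ∀ i, ∃ m : M, algebraMap M N m = S.cub.co i z := by
    intro i
    have h1 : ψ (S.cub.co i z) = S.cub.co i z := by
      rw [← H88GX.Ga_co S ψ z i, hz]
    have h2 : ∀ h : N ≃ₐ[M] N, h (S.cub.co i z) = S.cub.co i z := by
      intro h
      rcases q.aut h with h3 | h3
      · rw [h3]
        rfl
      · have h4 : h.restrictScalars K (S.cub.co i z) = ψ (S.cub.co i z) := by rw [h3]
        exact h4.trans h1
    have : FiniteDimensional M N := Module.finite_of_finrank_pos (by rw [q.two]; norm_num)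
    exact (IsGalois.mem_range_algebraMap_iff_fixed (S.cub.co i z)).2 h2
  obtain ⟨m0, h0⟩ := hc 0
  obtain ⟨m1, h1⟩ := hc 1
  obtain ⟨m2, h2⟩ := hc 2
  refine ⟨algebraMap M LM m0 + algebraMap M LM m1 * θM + algebraMap M LM m2 * θM ^ 2, ?_⟩
  rw [map_add, map_add, map_mul, map_mul, map_pow, q.th, q.ml, q.ml, q.ml, h0, h1, h2]
  exact (S.cub.eq_co z).symm

theorem QV.conj (q : QV M S θM ψ) {w w' : HeightOneSpectrum (𝓞 LN)} (h : dn LM w = dn LM w') :
    w' = w ∨ w' = S.ρ ψ • w := by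
  by_contra hcon
  push Not at hcon
  obtain ⟨hc1, hc2⟩ := hcon
  have hmax : ∀ v v' : HeightOneSpectrum (𝓞 LN), v.asIdeal ≤ v'.asIdeal → v = v' := by
    intro v v' hle
    apply HeightOneSpectrum.ext
    exact v.isMaximal.eq_of_le v'.isPrime.ne_top hle
  obtain ⟨x, hx', hxw, hxw2⟩ : ∃ x ∈ w'.asIdeal, x ∉ w.asIdeal ∧ x ∉ (S.ρ ψ • w).asIdeal := by
    by_contra hno
    push Not at hno
    have hsub : (w'.asIdeal : Set (𝓞 LN)) ⊆
        (w.asIdeal : Set (𝓞 LN)) ∪ ((S.ρ ψ • w).asIdeal : Set (𝓞 LN)) := by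
      intro x hx
      by_cases hxw : x ∈ w.asIdeal
      · exact Or.inl hxw
      · exact Or.inr (hno x hx hxw)
    rcases Ideal.subset_union.1 hsub with h3 | h3
    · exact hc1 (hmax _ _ h3)
    · exact hc2 (hmax _ _ h3)
  have hinv : (S.ρ ψ)⁻¹ = S.ρ ψ := by
    rw [inv_eq_iff_mul_eq_one, ← map_mul, q.inv, map_one]
  have hxx : S.ρ ψ (S.ρ ψ (x : LN)) = (x : LN) := by
    have h1 : (S.ρ ψ * S.ρ ψ) (x : LN) = (x : LN) := by
      rw [← map_mul, q.inv, map_one]
      rfl
    exact h1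
  have hy' : x * H38T1.gO (S.ρ ψ) x ∈ w'.asIdeal := Ideal.mul_mem_right _ _ hx'
  have hfix : S.ρ ψ ((x * H38T1.gO (S.ρ ψ) x : 𝓞 LN) : LN) =
      ((x * H38T1.gO (S.ρ ψ) x : 𝓞 LN) : LN) := by
    have e : ((x * H38T1.gO (S.ρ ψ) x : 𝓞 LN) : LN) = (x : LN) * S.ρ ψ (x : LN) := rfl
    rw [e, map_mul, hxx, mul_comm]
  obtain ⟨z, hz⟩ := D2_fix q _ hfix
  have hzint : IsIntegral ℤ z := by
    have h1 : IsIntegral ℤ (algebraMap LM LN z) := by
      rw [hz]
      exact RingOfIntegers.isIntegral_coe _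
    exact (isIntegral_algebraMap_iff (algebraMap LM LN).injective).1 h1
  have hZ : algebraMap (𝓞 LM) (𝓞 LN) ⟨z, hzint⟩ = x * H38T1.gO (S.ρ ψ) x :=
    RingOfIntegers.ext hz
  have h4 : (⟨z, hzint⟩ : 𝓞 LM) ∈ (dn LM w').asIdeal := by
    change algebraMap (𝓞 LM) (𝓞 LN) ⟨z, hzint⟩ ∈ w'.asIdeal
    rw [hZ]
    exact hy'
  rw [← h] at h4
  have h5 : x * H38T1.gO (S.ρ ψ) x ∈ w.asIdeal := by
    rw [← hZ]
    exact h4
  rcases w.isPrime.mem_or_mem h5 with h6 | h6
  · exact hxw h6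
  · apply hxw2
    change H38T1.gO (S.ρ ψ)⁻¹ x ∈ w.asIdeal
    rw [hinv]
    exact h6

end H88GT
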