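import Pool.Agent.H88.GT.A3
import Pool.Agent.H88.GT.D1
import Pool.Agent.H88.GT.D2
import Pool.Agent.H88.GT.D3
import Pool.Agent.H42.GN.Ig

/-!
ROW D6 (MP_78d38b_GT). Three places above `V`, fixed by the involution.

PROOF. Let `w` run over the three places of `LN` above `V` (`nb` is the ncard of this set).
(nb1) If there is only one place `p` of `LM` above `dn M V` then all the `w` lie above `p` (`dn M (dn LM w) = dn M (dn N w) = dn M V`), so by D2 all `w` are in `{w₁, ρ ψ • w₁}`: at most two.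
(moving) Suppose `S.Lv D0 V (x + S.ρ ψ • x)` for all `x ∈ HH`.  There are two places of `LM` above `dn M V`, so two of the three `w` lie above the same `p`, and by D2 `w₃ = ρ ψ • w₂`, `w₂ ≠ w₃`.  By `H42GN.ig_good` (`E := D0`, of order zero) `S.Lv D0 V c ↔ ∀ w above V, eo w c = 0` for `c ∈ HH`.
So `eo w₂ (x + ρ ψ • x) = 0`; `eo w₂ (ρ ψ • x) = eo (ρ ψ⁻¹ • w₂) x = eo w₃ x` (`ψ⁻¹ = ψ`; `ψ w₃ = w₂`; the equivariance of `eo`: H38T1, see H88OD / H88GX for `eo_smul`): `eo w₂ x = eo w₃ x` for all `x ∈ HH`.  The norm of `x` is a square, so `eo w₁ x + eo w₂ x + eo w₃ x = 0`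
(the three places have degree one: H76PP.ord_norm and A3 nb3), hence `eo w₁ x = 0`.  So `S.Lv D0 V x ↔ eo w₂ x = 0` for `x ∈ HH`.  But by D3 (locN, `m = 2`, LocD.hr) `S.Lv D0 V x ↔ r 0 x = 0 ∧ r 1 x = 0` (H30GX.Lv_iff), with `x₁`, `x₂ ∈ HH` of values `(1,0)`, `(0,1)`: `x₁, x₂, x₁ + x₂` do not satisfy
it, so `eo w₂` is one at the three: `1 + 1 = 1`, a contradiction.
-/

set_option autoImplicit false
set_option linter.unusedSectionVars false
open scoped Classical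

open WithZero NumberField IsDedekindDomain H38RT
open H38T1 (SC sc scu rep eo la si OddP)
open H36MX (hsv)
open H76MQ (al be)
open H76PP (Cub LC ev scm dn Te_nf)
open H36CY (DescAt)
open H30ZO (nb HH Wc)
open H30OR (LocD)
open H88GX (Ext)

namespace H88GT

variable {K N LN : Type} [Field K] [NumberField K] [Field N] [NumberField N] [Field LN]
  [NumberField LN] [Algebra K N] [Algebra N LN] {a b : K} {θ : LN} {S : Ext K N LN a b θ}
  {Sg : Finset (HeightOneSpectrum (𝓞 K))} {D0 D : K}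

variable {M LM : Type} [Field M] [NumberField M] [Field LM] [NumberField LM] [Algebra K M]
  [Algebra M N] [IsScalarTower K M N] [Algebra M LM] [Algebra LM LN] {θM : LM} {ψ : N ≃ₐ[K] N}

/-- The two compositions of restrictions agree. -/
private theorem D6_dn (q : QV M S θM ψ) (w : HeightOneSpectrum (𝓞 LN)) :
    dn M (dn LM w) = dn M (dn N w) := by
  apply HeightOneSpectrum.ext
  ext x
  have e1 : algebraMap (𝓞 LM) (𝓞 LN) (algebraMap (𝓞 M) (𝓞 LM) x) =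
      algebraMap (𝓞 N) (𝓞 LN) (algebraMap (𝓞 M) (𝓞 N) x) := by
    apply RingOfIntegers.coe_injective
    exact q.ml (x : M)
  change algebraMap (𝓞 LM) (𝓞 LN) (algebraMap (𝓞 M) (𝓞 LM) x) ∈ w.asIdeal ↔
    algebraMap (𝓞 N) (𝓞 LN) (algebraMap (𝓞 M) (𝓞 N) x) ∈ w.asIdeal
  rw [e1]

theorem QV.nb1 (q : QV M S θM ψ) {V : HeightOneSpectrum (𝓞 N)} (hψ : ψ ∈ St K V)
    (hnb : nb N LN V = 3) : nb M LM (dn M V) ≠ 1 := by
  intro h1
  obtain ⟨w₁, w₂, w₃, h12, h13, h23, hs⟩ := Set.ncard_eq_three.1 hnb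
  obtain ⟨p, hp⟩ := Set.ncard_eq_one.1 h1
  have key : ∀ w : HeightOneSpectrum (𝓞 LN), w ∈ ({w₁, w₂, w₃} : Set _) → dn LM w = p := by
    intro w hw
    rw [← hs] at hw
    have hw' : dn N w = V := hw
    have h2 : dn LM w ∈ {w : HeightOneSpectrum (𝓞 LM) | dn M w = dn M V} := by
      show dn M (dn LM w) = dn M V
      rw [D6_dn q, hw']
    rw [hp] at h2
    exact h2
  have e1 := key w₁ (by simp)
  have e2 := key w₂ (by simp)
  have e3 := key w₃ (by simp)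
  have f2 := (q.conj (e1.trans e2.symm)).resolve_left (Ne.symm h12)
  have f3 := (q.conj (e1.trans e3.symm)).resolve_left (Ne.symm h13)
  exact h23 (f2.trans f3.symm)

private theorem D6_sum (S : Ext K N LN a b θ) {V : HeightOneSpectrum (𝓞 N)}
    (hnb : nb N LN V = 3) {w₁ w₂ w₃ : HeightOneSpectrum (𝓞 LN)} (h12 : w₁ ≠ w₂) (h13 : w₁ ≠ w₃)
    (h23 : w₂ ≠ w₃) (hs : ∀ w, dn N w = V ↔ w = w₁ ∨ w = w₂ ∨ w = w₃) {c : SC LN}
    (hc : c ∈ HH N LN) : eo w₁ c + eo w₂ c + eo w₃ c = 0 := by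
  obtain ⟨y, hy, rfl⟩ := H38T1.sc_surj c
  rw [H30ZO.mem_HH hy] at hc
  have h1 := H76PP.ord_norm (K := N) (L := LN) V hy
  have h0 : ∑ᶠ w : {w : HeightOneSpectrum (𝓞 LN) // dn N w = V},
        (w.1.asIdeal.inertiaDeg (𝓞 N) : ℤ) * ord (w.1.valuation LN) y =
      ∑ w ∈ (H76PP.fin_above (L := LN) V).toFinset,
        (w.asIdeal.inertiaDeg (𝓞 N) : ℤ) * ord (w.valuation LN) y := by
    rw [← finsum_mem_eq_finite_toFinset_sum (fun w : HeightOneSpectrum (𝓞 LN) =>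
      (w.asIdeal.inertiaDeg (𝓞 N) : ℤ) * ord (w.valuation LN) y)
      (H76PP.fin_above (L := LN) V)]
    exact finsum_set_coe_eq_finsum_mem {w : HeightOneSpectrum (𝓞 LN) | dn N w = V}
      (f := fun w => (w.asIdeal.inertiaDeg (𝓞 N) : ℤ) * ord (w.valuation LN) y)
  have hT : (H76PP.fin_above (L := LN) V).toFinset = {w₁, w₂, w₃} := by
    ext w
    rw [Set.Finite.mem_toFinset, Finset.mem_insert, Finset.mem_insert, Finset.mem_singleton]
    exact hs w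
  have hf : ∀ w : HeightOneSpectrum (𝓞 LN), dn N w = V → w.asIdeal.inertiaDeg (𝓞 N) = 1 :=
    fun w hw => nb3 S.cub hnb hw
  have f1 := hf w₁ ((hs w₁).2 (Or.inl rfl))
  have f2 := hf w₂ ((hs w₂).2 (Or.inr (Or.inl rfl)))
  have f3 := hf w₃ ((hs w₃).2 (Or.inr (Or.inr rfl)))
  rw [h0, hT, Finset.sum_insert (by simp [h12, h13]), Finset.sum_insert (by simp [h23]),
    Finset.sum_singleton, f1, f2, f3] at h1
  obtain ⟨z, hz⟩ := hc
  have hne : Algebra.norm N y ≠ 0 := by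
    have _ : FiniteDimensional N LN := Module.Finite.of_restrictScalars_finite ℚ N LN
    exact Algebra.norm_ne_zero_iff.2 hy
  have hz0 : z ≠ 0 := by
    rintro rfl
    rw [mul_zero] at hz
    exact hne hz
  rw [hz, ord_mul hz0 hz0] at h1
  rw [H38T1.eo_sc hy, H38T1.eo_sc hy, H38T1.eo_sc hy, ← Int.cast_add, ← Int.cast_add]
  have h5 : ord (w₁.valuation LN) y + ord (w₂.valuation LN) y + ord (w₃.valuation LN) y =
      ord (V.valuation N) z + ord (V.valuation N) z := by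
    push_cast at h1
    linarith
  rw [h5, Int.cast_add]
  exact CharTwo.add_self_eq_zero _

private theorem D6_aux (q : QV M S θM ψ) (hok : S.Ok D0 Sg)
    (h3 : ∀ v : HeightOneSpectrum (𝓞 K), v ∉ Sg → v.valuation K 3 = 1)
    (hram : ∀ V : HeightOneSpectrum (𝓞 N), dn K V ∉ Sg → ¬ H73P2.Ram K V) (hD : D ≠ 0)
    {V : HeightOneSpectrum (𝓞 N)} (hV : dn K V ∉ Sg) (hDo : Odd (ord ((dn K V).valuation K) D))
    (hnb : nb N LN V = 3) {w₁ w₂ w₃ : HeightOneSpectrum (𝓞 LN)} (h12 : w₁ ≠ w₂) (h13 : w₁ ≠ w₃)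
    (h23 : w₂ ≠ w₃) (hs : ∀ w, dn N w = V ↔ w = w₁ ∨ w = w₂ ∨ w = w₃)
    (hd : dn LM w₂ = dn LM w₃) : ∃ x ∈ HH N LN, ¬ S.Lv D0 V (x + S.ρ ψ • x) := by
  by_contra hcon
  push Not at hcon
  have e3 : w₃ = S.ρ ψ • w₂ := (q.conj hd).resolve_left (Ne.symm h23)
  have e2 : S.ρ ψ • w₃ = w₂ := by
    rw [e3, smul_smul, ← map_mul, q.inv, map_one, one_smul]
  have hev : Even (ord ((dn K V).valuation K) D0) := by
    unfold ord
    rw [hok.val _ hV, log_one, neg_zero]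
    exact ⟨0, rfl⟩
  have hgood : ∀ {c : SC LN}, c ∈ HH N LN →
      (S.Lv D0 V c ↔ ∀ w : HeightOneSpectrum (𝓞 LN), dn N w = V → eo w c = 0) := fun hc =>
    H42GN.ig_good V (hok.two _ hV) (hok.dis _ hV) hok.ne hev hc
  have hx23 : ∀ x ∈ HH N LN, eo w₂ x = eo w₃ x := by
    intro x hx
    have h1 := (hgood ((HH N LN).add_mem hx (H88GX.HH_smul S ψ hx))).1 (hcon x hx) w₂
      ((hs w₂).2 (Or.inr (Or.inl rfl)))
    rw [H38T1.eo_add] at h1
    have h2 := H38T1.eo_smul (v := w₃) (S.ρ ψ) x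
    rw [e2] at h2
    rw [h2] at h1
    exact CharTwo.add_eq_zero.1 h1
  have hx1 : ∀ x ∈ HH N LN, eo w₁ x = 0 := by
    intro x hx
    have h1 := D6_sum S hnb h12 h13 h23 hs hx
    rw [hx23 x hx, add_assoc, CharTwo.add_self_eq_zero, add_zero] at h1
    exact h1
  have hiff : ∀ x ∈ HH N LN, (S.Lv D0 V x ↔ eo w₂ x = 0) := by
    intro x hx
    rw [hgood hx]
    constructor
    · intro h
      exact h w₂ ((hs w₂).2 (Or.inr (Or.inl rfl)))
    · intro h w hw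
      rcases (hs w).1 hw with rfl | rfl | rfl
      · exact hx1 x hx
      · exact h
      · rw [← hx23 x hx]
        exact h
  obtain ⟨m, r, u, hm, hloc, -, hjs⟩ := locN (S := S) hok h3 hram hD hV hDo
  rw [hnb] at hm
  obtain rfl : m = 2 := by omega
  have hr : ∀ x ∈ HH N LN, (S.Lv D0 V x ↔ ∀ i, r i x = 0) := by
    intro x hx
    rw [H30GX.Lv_iff]
    exact hloc.hr x hx
  obtain ⟨x₁, hx₁, hr₁, -⟩ := hjs ![1, 0] 0
  obtain ⟨x₂, hx₂, hr₂, -⟩ := hjs ![0, 1] 0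
  have g1 : eo w₂ x₁ ≠ 0 := by
    intro h
    have h2 := (hr x₁ hx₁).1 ((hiff x₁ hx₁).2 h) 0
    rw [hr₁] at h2
    exact one_ne_zero h2
  have g2 : eo w₂ x₂ ≠ 0 := by
    intro h
    have h2 := (hr x₂ hx₂).1 ((hiff x₂ hx₂).2 h) 1
    rw [hr₂] at h2
    exact one_ne_zero h2
  have g3 : eo w₂ (x₁ + x₂) ≠ 0 := by
    intro h
    have h0 := (HH N LN).add_mem hx₁ hx₂
    have h2 := (hr _ h0).1 ((hiff _ h0).2 h) 0
    rw [map_add, hr₁, hr₂] at h2
    exact one_ne_zero ((add_zero (1 : ZMod 2)).symm.trans h2)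
  have hz : ∀ t : ZMod 2, t ≠ 0 → t = 1 := by decide
  apply g3
  rw [H38T1.eo_add, hz _ g1, hz _ g2]
  decide

theorem QV.moving (q : QV M S θM ψ) (hok : S.Ok D0 Sg)
    (h3 : ∀ v : HeightOneSpectrum (𝓞 K), v ∉ Sg → v.valuation K 3 = 1)
    (hram : ∀ V : HeightOneSpectrum (𝓞 N), dn K V ∉ Sg → ¬ H73P2.Ram K V) (hD : D ≠ 0)
    {V : HeightOneSpectrum (𝓞 N)} (hV : dn K V ∉ Sg) (hDo : Odd (ord ((dn K V).valuation K) D))
    (hψ : ψ ∈ St K V) (hnb : nb N LN V = 3) (hu : nb M LM (dn M V) = 2) :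
    ∃ x ∈ HH N LN, ¬ S.Lv D0 V (x + S.ρ ψ • x) := by
  obtain ⟨w₁, w₂, w₃, h12, h13, h23, hs⟩ := Set.ncard_eq_three.1 hnb
  obtain ⟨p₁, p₂, hp12, hp⟩ := Set.ncard_eq_two.1 hu
  have hs' : ∀ w : HeightOneSpectrum (𝓞 LN), dn N w = V ↔ w = w₁ ∨ w = w₂ ∨ w = w₃ := by
    intro w
    have h := Set.ext_iff.1 hs w
    simpa using h
  have key : ∀ w : HeightOneSpectrum (𝓞 LN), dn N w = V → dn LM w = p₁ ∨ dn LM w = p₂ := by
    intro w hw
    have h2 : dn LM w ∈ {w : HeightOneSpectrum (𝓞 LM) | dn M w = dn M V} := by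
      show dn M (dn LM w) = dn M V
      rw [D6_dn q, hw]
    rw [hp] at h2
    simpa using h2
  have k1 := key w₁ ((hs' w₁).2 (Or.inl rfl))
  have k2 := key w₂ ((hs' w₂).2 (Or.inr (Or.inl rfl)))
  have k3 := key w₃ ((hs' w₃).2 (Or.inr (Or.inr rfl)))
  by_cases c23 : dn LM w₂ = dn LM w₃
  · exact D6_aux q hok h3 hram hD hV hDo hnb h12 h13 h23 hs' c23
  by_cases c13 : dn LM w₁ = dn LM w₃
  · refine D6_aux q hok h3 hram hD hV hDo hnb (w₁ := w₂) (w₂ := w₁) (w₃ := w₃) h12.symm h23 h13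
      (fun w => ?_) c13
    rw [hs' w]
    tauto
  by_cases c12 : dn LM w₁ = dn LM w₂
  · refine D6_aux q hok h3 hram hD hV hDo hnb (w₁ := w₃) (w₂ := w₁) (w₃ := w₂) h13.symm h23.symm
      h12 (fun w => ?_) c12
    rw [hs' w]
    tauto
  exfalso
  rcases k1 with k1 | k1 <;> rcases k2 with k2 | k2 <;> rcases k3 with k3 | k3 <;>
    rw [k1, k2] at c12 <;> rw [k1, k3] at c13 <;> rw [k2, k3] at c23 <;> tauto

end H88GT
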