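import Pool.Agent.H88.GT.Dq

/-!
ROW A3 (MP_78d38b_GT). The residue degree in a tower (Ideal.inertiaDeg_algebra_tower or similar); and: if the cubic field `L` has three places above `v` then they have residue degree one.

PROOF (nb3). As H30OR.nb_le3 (Pool/Agent/H30/OR/Te.lean): `∑ f * ord = 3` over the three places and all the summands are at least one, so all are one, so `f = 1`.
-/

set_option autoImplicit false
set_option linter.unusedSectionVars false
open scoped Classical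

open WithZero NumberField IsDedekindDomain H38RT
open H38T1 (SC sc scu rep eo la si OddP)
open H36MX (hsv)
open H76MQ (al be)
open H76PP (Cub LC ev scm dn Te_nf)
open H36CY (DescAt)
open H30ZO (nb HH Wc)
open H30OR (LocD)
open H88GX (Ext)

namespace H88GT

variable {k k' : Type} [Field k] [NumberField k] [Field k'] [NumberField k'] [Algebra k k']

theorem inert_tower {K : Type} [Field K] [NumberField K] [Algebra K k] [Algebra K k']
    [IsScalarTower K k k'] (w : HeightOneSpectrum (𝓞 k')) :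
    w.asIdeal.inertiaDeg (𝓞 K) =
      (dn k w).asIdeal.inertiaDeg (𝓞 K) * w.asIdeal.inertiaDeg (𝓞 k) := by
  have h3 : w.asIdeal.LiesOver (dn k w).asIdeal := ⟨rfl⟩
  have h4 : w.asIdeal.IsPrime := w.isPrime
  have h5 : (dn k w).asIdeal.IsPrime := (dn k w).isPrime
  exact Ideal.inertiaDeg_tower (dn k w).asIdeal w.asIdeal

private theorem A3_f {L : Type} [Field L] [NumberField L] [Algebra k L]
    (w : HeightOneSpectrum (𝓞 L)) : 1 ≤ w.asIdeal.inertiaDeg (𝓞 k) := by
  have h1 : w.asIdeal.IsMaximal := w.isMaximal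
  have h2 : (dn k w).asIdeal.IsMaximal := (dn k w).isMaximal
  have h3 : w.asIdeal.LiesOver (dn k w).asIdeal := ⟨rfl⟩
  have h4 : Ideal.relNorm (𝓞 k) w.asIdeal = (dn k w).asIdeal ^ (w.asIdeal.inertiaDeg (𝓞 k)) :=
    Ideal.relNorm_eq_pow_of_isMaximal w.asIdeal (dn k w).asIdeal
  have h5 := Ideal.absNorm_relNorm (R := 𝓞 k) (S := 𝓞 L) w.asIdeal
  rw [Nat.one_le_iff_ne_zero]
  intro h
  rw [h4, map_pow, h, pow_zero] at h5
  exact w.isPrime.ne_top (Ideal.absNorm_eq_one_iff.1 h5.symm)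

theorem nb3 {L : Type} [Field L] [NumberField L] [Algebra k L] {a b : k} {θ : L}
    (h : Cub k L a b θ) {v : HeightOneSpectrum (𝓞 k)} (hv : nb k L v = 3)
    {w : HeightOneSpectrum (𝓞 L)} (hw : dn k w = v) : w.asIdeal.inertiaDeg (𝓞 k) = 1 := by
  obtain ⟨ϖ, hϖ⟩ := v.valuation_exists_uniformizer k
  have hϖ0 : ϖ ≠ 0 := by
    rintro rfl
    rw [map_zero] at hϖ
    exact absurd hϖ.symm exp_ne_zero
  have hord : ord (v.valuation k) ϖ = 1 := by
    rw [ord, hϖ, log_exp]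
    rfl
  have hL0 : algebraMap k L ϖ ≠ 0 := fun h0 =>
    hϖ0 ((algebraMap k L).injective (by rw [h0, map_zero]))
  have hfr : Module.finrank k L = 3 := h.finrank
  have hn : Algebra.norm k (algebraMap k L ϖ) = ϖ ^ 3 := by
    rw [Algebra.norm_algebraMap, hfr]
  have h1 := H76PP.ord_norm (K := k) (L := L) v hL0
  have h0 : ∑ᶠ w : {w : HeightOneSpectrum (𝓞 L) // dn k w = v},
        (w.1.asIdeal.inertiaDeg (𝓞 k) : ℤ) * ord (w.1.valuation L) (algebraMap k L ϖ) =
      ∑ w ∈ (H76PP.fin_above (L := L) v).toFinset,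
        (w.asIdeal.inertiaDeg (𝓞 k) : ℤ) * ord (w.valuation L) (algebraMap k L ϖ) := by
    rw [← finsum_mem_eq_finite_toFinset_sum (fun w : HeightOneSpectrum (𝓞 L) =>
      (w.asIdeal.inertiaDeg (𝓞 k) : ℤ) * ord (w.valuation L) (algebraMap k L ϖ))
      (H76PP.fin_above (L := L) v)]
    exact finsum_set_coe_eq_finsum_mem {w : HeightOneSpectrum (𝓞 L) | dn k w = v}
      (f := fun w => (w.asIdeal.inertiaDeg (𝓞 k) : ℤ) * ord (w.valuation L) (algebraMap k L ϖ))
  have h3 : ord (v.valuation k) (ϖ ^ 3) = 3 := by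
    have e1 : ϖ ^ 3 = ϖ * (ϖ * ϖ) := by ring
    rw [e1, ord_mul hϖ0 (mul_ne_zero hϖ0 hϖ0), ord_mul hϖ0 hϖ0, hord]
    norm_num
  rw [h0, hn, h3] at h1
  obtain ⟨S, hS⟩ : ∃ S, S = (H76PP.fin_above (L := L) v).toFinset := ⟨_, rfl⟩
  rw [← hS] at h1
  have hnb : nb k L v = S.card := by
    rw [H30ZO.nb, hS, Set.ncard_eq_toFinset_card _ (H76PP.fin_above (L := L) v)]
  have hmem : ∀ w ∈ S, dn k w = v := by
    intro w hw
    rw [hS] at hw
    have hw' := (Set.Finite.mem_toFinset _).1 hw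
    exact hw'
  have hE : ∀ w ∈ S, 1 ≤ ord (w.valuation L) (algebraMap k L ϖ) := by
    intro w hw
    obtain ⟨e, he, h4⟩ := H76PP.ord_dn (K := k) w
    rw [hmem w hw] at h4
    have h5 := h4 ϖ hϖ0
    rw [hord, mul_one] at h5
    rw [h5]
    exact_mod_cast he
  have hfe : ∀ w ∈ S, (1 : ℤ) ≤ (w.asIdeal.inertiaDeg (𝓞 k) : ℤ) *
      ord (w.valuation L) (algebraMap k L ϖ) := by
    intro w hw
    have e1 : (1 : ℤ) ≤ (w.asIdeal.inertiaDeg (𝓞 k) : ℤ) := by exact_mod_cast A3_f (k := k) w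
    have e2 := hE w hw
    nlinarith
  have hwS : w ∈ S := by
    rw [hS]
    exact (Set.Finite.mem_toFinset _).2 hw
  have hsum : ∑ w ∈ S, ((w.asIdeal.inertiaDeg (𝓞 k) : ℤ) *
      ord (w.valuation L) (algebraMap k L ϖ) - 1) = 0 := by
    rw [Finset.sum_sub_distrib, ← h1, Finset.sum_const, nsmul_eq_mul, mul_one, ← hnb, hv]
    norm_num
  have hz := (Finset.sum_eq_zero_iff_of_nonneg (fun w hw => by
    have := hfe w hw
    linarith)).1 hsum w hwS
  have e1 : (1 : ℤ) ≤ (w.asIdeal.inertiaDeg (𝓞 k) : ℤ) := by exact_mod_cast A3_f (k := k) w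
  have e2 := hE w hwS
  have e3 : (w.asIdeal.inertiaDeg (𝓞 k) : ℤ) ≤ 1 := by nlinarith
  have e4 : (w.asIdeal.inertiaDeg (𝓞 k) : ℤ) = 1 := le_antisymm e3 e1
  exact_mod_cast e4

end H88GT
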