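import Pool.Agent.H88.GT.B1
import Pool.Agent.H76.OD.Lt
import Pool.Agent.H42.GN.Ig

/-!
ROW B2 (MP_78d38b_GT). The condition `DescAt` at one place: `N / M` quadratic, `V` the only place of `N` above `dn M V`.

PROOF. Let `u = dn M V`, `U` the set of the places of `M` above `dn K V` (H76PP.fin_above). By B1 there is `y'` with `IsSquare (norm y')`, `sc y' + sc y` in all `Sq p`, `p` above `u`, and `sc y'` in `Sq p` for the `p` above the other places of `U`.
Let `d` be the coordinates of `y'` with respect to the powers of `θE = algebraMap M LM (algebraMap K M E) * θM` (hM.twist, Cub.co). Apply `hdesc` with `k = M`, `k' = N`, `d`: for a place `V'` of `N` above `dn K V`: if `dn M V' = u` then `V' = V` and the local condition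
holds for `sc (algebraMap LM LN y)` by `h`, so also for `sc (algebraMap LM LN y')`: they differ by an element of `H76OD.Sqv N LN V` (the square classes of the places above `u` map into it), and such elements satisfy the local condition (`H76OD.Wc_sq`), and the local
conditions form a group (H30ZO: `exists_WW`, or a lemma `Wc_add`); otherwise `sc (algebraMap LM LN y')` itself is in `Sqv N LN V'`. LC and Wc: `H30ZO.Wc_iff`. The conclusion of `hdesc` at `u` gives `Wc` for `sc y'`, hence for `sc y` (again `H76OD.Wc_sq`, over `M`).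
For the form of `S.Lv` see `H30GX.Lv_iff`; lifting of elements: `lift_ev`, `H76PP.Te_norm` (Pool/Agent/H42/GN/Id.lean has similar bookkeeping).
-/

set_option autoImplicit false
set_option linter.unusedSectionVars false
open scoped Classical

open WithZero NumberField IsDedekindDomain H38RT
open H38T1 (SC sc scu rep eo la si OddP)
open H36MX (hsv)
open H76MQ (al be)
open H76PP (Cub LC ev scm dn Te_nf)
open H36CY (DescAt)
open H30ZO (nb HH Wc)
open H30OR (LocD)
open H88GX (Ext)

namespace H88GT


/-- The local conditions are additive. -/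
private theorem B2_add {k L : Type} [Field k] [NumberField k] [Field L] [NumberField L]
    [Algebra k L] {a b : k} {θ : L} (h : Cub k L a b θ) (v : HeightOneSpectrum (𝓞 k))
    (hD : 4 * a ^ 3 + 27 * b ^ 2 ≠ 0) {E : k} (hE : E ≠ 0) {c c' : SC L} (hc : c ∈ HH k L)
    (hc' : c' ∈ HH k L)
    (h1 : Wc (algebraMap k (v.adicCompletion k)) (E ^ 2 * a) (E ^ 3 * b) (algebraMap k L E * θ) c)
    (h2 : Wc (algebraMap k (v.adicCompletion k)) (E ^ 2 * a) (E ^ 3 * b)
      (algebraMap k L E * θ) c') :
    Wc (algebraMap k (v.adicCompletion k)) (E ^ 2 * a) (E ^ 3 * b) (algebraMap k L E * θ)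
      (c + c') := by
  have _ : CharZero (v.adicCompletion k) := H36CY.char_zero v
  obtain ⟨W, hW⟩ := H30ZO.exists_WW (h.twist hE) (algebraMap k (v.adicCompletion k)) (by
    intro e
    apply H76OD.Lt_dne hE hD
    apply (algebraMap k (v.adicCompletion k)).injective
    rw [map_zero, map_add, map_mul, map_mul, map_pow, map_pow, map_ofNat, map_ofNat]
    exact e) (H24PD.inf_fin v _ _)
  exact ((hW _).1 (W.add_mem ((hW _).2 ⟨hc, h1⟩) ((hW _).2 ⟨hc', h2⟩))).2

private theorem B2_HH {k L : Type} [Field k] [NumberField k] [Field L] [NumberField L]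
    [Algebra k L] {y : L} (hy : y ≠ 0) (h : IsSquare (Algebra.norm k y)) : sc y ∈ HH k L := by
  rw [HH, AddMonoidHom.mem_ker, H76PP.scm_sc _ hy]
  exact (H38T1.sc_eq_zero (H76PP.scm_ne _ hy)).2 h

private theorem B2_ev {k L k' L' : Type} [Field k] [Field L] [Field k'] [Field L'] [Algebra k L]
    [Algebra k' L'] [Algebra k k'] {θ : L} {θ' : L'} (φ : L →+* L')
    (hφ : ∀ x : k, φ (algebraMap k L x) = algebraMap k' L' (algebraMap k k' x)) (hθ : φ θ = θ')
    (e : Fin 3 → k) : φ (ev θ e) = ev θ' (fun i => algebraMap k k' (e i)) := by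
  unfold ev
  rw [map_add, map_add, map_mul φ (algebraMap k L (e 1)), map_mul φ (algebraMap k L (e 2)), map_pow,
    hφ, hφ, hφ, hθ]

private theorem B2_nf {F F' : Type} [Field F] [Field F'] (i : F →+* F') (a b : F)
    (z : Fin 3 → F) : Te_nf (i a) (i b) (fun j => i (z j)) = i (Te_nf a b z) := by
  simp only [Te_nf, map_add, map_sub, map_mul, map_pow]

private theorem B2_co {k L : Type} [Field k] [Field L] [Algebra k L] {a b : k} {θ : L}
    (h : Cub k L a b θ) (y : L) : ∃ d : Fin 3 → k, ev θ d = y := by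
  obtain ⟨c0, c1, c2, hc⟩ := h.sp y
  exact ⟨![c0, c1, c2], by rw [hc]; simp [ev]⟩

/-- squares go up -/
private theorem B2_up {k L : Type} [Field k] [NumberField k] [Field L] [NumberField L]
    [Algebra k L] (w : HeightOneSpectrum (𝓞 L)) {x : k} (hx : x ≠ 0)
    (h : sc x ∈ H30ZO.Sq (dn k w)) : sc (algebraMap k L x) ∈ H30ZO.Sq w := by
  have hx' : (algebraMap k L) x ≠ 0 := (map_ne_zero (algebraMap k L)).2 hx
  rw [H30ZO.mem_Sq hx']
  rw [H30ZO.mem_Sq hx] at h
  obtain ⟨y, hy⟩ := h
  refine ⟨(H36CY.over_dn (K := k) w).map y, ?_⟩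
  rw [← Pool.Agent.H10.Over.map_algebraMap (H36CY.over_dn (K := k) w) x, hy, map_mul]

/-- norms of square norm go up -/
private theorem B2_norm {M N LM LN : Type} [Field M] [NumberField M] [Field N]
    [NumberField N] [Field LM] [NumberField LM] [Field LN] [NumberField LN]
    [Algebra M N] [Algebra M LM] [Algebra N LN] [Algebra LM LN] {A B : M} {θM : LM} {θ : LN}
    (hM : Cub M LM A B θM) (hN : Cub N LN (algebraMap M N A) (algebraMap M N B) θ)
    (hML : ∀ x : M, algebraMap LM LN (algebraMap M LM x) = algebraMap N LN (algebraMap M N x))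
    (hθ : algebraMap LM LN θM = θ) {y : LM} (h : IsSquare (Algebra.norm M y)) :
    IsSquare (Algebra.norm N (algebraMap LM LN y)) := by
  obtain ⟨d, rfl⟩ := B2_co hM y
  rw [H76PP.Te_norm hM] at h
  have h1 : algebraMap LM LN (ev θM d) = ev θ (fun i => algebraMap M N (d i)) :=
    B2_ev (algebraMap LM LN) hML hθ d
  rw [h1, H76PP.Te_norm hN, B2_nf (algebraMap M N)]
  exact h.map _

theorem ld {K M N LM LN : Type} [Field K] [NumberField K] [Field M] [NumberField M] [Field N]
    [NumberField N] [Field LM] [NumberField LM] [Field LN] [NumberField LN] [Algebra K M]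
    [Algebra K N] [Algebra M N] [IsScalarTower K M N] [Algebra M LM] [Algebra N LN] [Algebra LM LN]
    {a b : K} {θ : LN} (S : Ext K N LN a b θ) {θM : LM}
    (hM : Cub M LM (algebraMap K M a) (algebraMap K M b) θM)
    (hML : ∀ x : M, algebraMap LM LN (algebraMap M LM x) = algebraMap N LN (algebraMap M N x))
    (hθ : algebraMap LM LN θM = θ) (h2 : Module.finrank M N = 2)
    {V : HeightOneSpectrum (𝓞 N)} (ho : (dn K V).valuation K 2 = 1)
    (hone : ∀ V' : HeightOneSpectrum (𝓞 N), dn M V' = dn M V → V' = V) {E : K} (hE : E ≠ 0)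
    (hdesc : DescAt K N (dn K V) (E ^ 2 * a) (E ^ 3 * b)) {y : LM} (hy : y ≠ 0)
    (hN : IsSquare (Algebra.norm M y)) (h : S.Lv E V (sc (algebraMap LM LN y))) :
    Wc (algebraMap M ((dn M V).adicCompletion M)) ((algebraMap K M E) ^ 2 * algebraMap K M a)
      ((algebraMap K M E) ^ 3 * algebraMap K M b) (algebraMap M LM (algebraMap K M E) * θM)
      (sc y) := by
  have hEM : algebraMap K M E ≠ 0 := (map_ne_zero _).2 hE
  have hEN : algebraMap K N E ≠ 0 := (map_ne_zero _).2 hE
  have hab : ∀ x : K, algebraMap K N x = algebraMap M N (algebraMap K M x) :=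
    IsScalarTower.algebraMap_apply K M N
  let _ : Algebra M LN := ((algebraMap N LN).comp (algebraMap M N)).toAlgebra
  have _ : IsScalarTower M N LN := IsScalarTower.of_algebraMap_eq fun x => rfl
  have _ : IsScalarTower M LM LN := IsScalarTower.of_algebraMap_eq fun x => (hML x).symm
  have hcubN : Cub N LN (algebraMap M N (algebraMap K M a)) (algebraMap M N (algebraMap K M b)) θ := by
    rw [← hab, ← hab]
    exact S.cub
  -- twists
  have hMD : Cub M LM (algebraMap K M (E ^ 2 * a)) (algebraMap K M (E ^ 3 * b))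
      (algebraMap M LM (algebraMap K M E) * θM) := by
    have h1 := hM.twist hEM
    rw [map_mul, map_pow, map_mul, map_pow]
    exact h1
  have hND : Cub N LN (algebraMap K N (E ^ 2 * a)) (algebraMap K N (E ^ 3 * b))
      (algebraMap N LN (algebraMap K N E) * θ) := by
    have h1 := S.cub.twist hEN
    rw [map_mul, map_pow, map_mul, map_pow]
    exact h1
  have hθD : algebraMap LM LN (algebraMap M LM (algebraMap K M E) * θM) =
      algebraMap N LN (algebraMap K N E) * θ := by
    rw [map_mul, hML, hθ, ← hab]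
  -- the places
  have hoM : ∀ u' : HeightOneSpectrum (𝓞 M), dn K u' = dn K V → OddP u' := by
    intro u' hu'
    have h1 : (dn K u').valuation K 2 = 1 := by rw [hu']; exact ho
    have h8 := H76PP.val_one (L := M) (w := u') h1
    rwa [map_ofNat] at h8
  have hdV : dn K (dn M V) = dn K V := H73P2.dn_dn V
  obtain ⟨U, hU⟩ : ∃ U : Finset (HeightOneSpectrum (𝓞 M)), ∀ u', u' ∈ U ↔ dn K u' = dn K V :=
    ⟨(H76PP.fin_above (L := M) (dn K V)).toFinset, fun u' => by
      rw [Set.Finite.mem_toFinset]
      rfl⟩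
  have haM : ∀ v : HeightOneSpectrum (𝓞 M), v.valuation M (algebraMap K M a) ≤ 1 :=
    fun v => H76PP.val_le (S.ha _)
  have hbM : ∀ v : HeightOneSpectrum (𝓞 M), v.valuation M (algebraMap K M b) ≤ 1 :=
    fun v => H76PP.val_le (S.hb _)
  have haN : ∀ v : HeightOneSpectrum (𝓞 N), v.valuation N (algebraMap K N a) ≤ 1 :=
    fun v => H76PP.val_le (S.ha _)
  have hbN : ∀ v : HeightOneSpectrum (𝓞 N), v.valuation N (algebraMap K N b) ≤ 1 :=
    fun v => H76PP.val_le (S.hb _)
  have hdM : 4 * (algebraMap K M a) ^ 3 + 27 * (algebraMap K M b) ^ 2 ≠ 0 := by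
    intro e
    apply S.dne
    apply (algebraMap K M).injective
    rw [map_zero, map_add, map_mul, map_mul, map_pow, map_pow, map_ofNat, map_ofNat]
    exact e
  have hdN : 4 * (algebraMap K N a) ^ 3 + 27 * (algebraMap K N b) ^ 2 ≠ 0 := by
    intro e
    apply S.dne
    apply (algebraMap K N).injective
    rw [map_zero, map_add, map_mul, map_mul, map_pow, map_pow, map_ofNat, map_ofNat]
    exact e
  obtain ⟨y', hy'0, hN', hy'u, hy'U⟩ := approx_cls hM haM hbM U
    (fun u' hu' => hoM u' ((hU u').1 hu')) (hoM _ hdV) hy hN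
  have hyy : y' * y ≠ 0 := mul_ne_zero hy'0 hy
  have hsc : sc y' + sc y = sc (y' * y) := (H38T1.sc_mul hy'0 hy).symm
  have hNyy : IsSquare (Algebra.norm M (y' * y)) := by
    rw [map_mul]
    exact hN'.mul hN
  have hιy : algebraMap LM LN y ≠ 0 := (map_ne_zero _).2 hy
  have hιy' : algebraMap LM LN y' ≠ 0 := (map_ne_zero _).2 hy'0
  have hιyy : algebraMap LM LN (y' * y) ≠ 0 := (map_ne_zero _).2 hyy
  have hup : ∀ {x : LM}, IsSquare (Algebra.norm M x) →
      IsSquare (Algebra.norm N (algebraMap LM LN x)) := fun hx => B2_norm hM hcubN hML hθ hx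
  -- the places above
  have hdn : ∀ w : HeightOneSpectrum (𝓞 LN), dn M (dn LM w) = dn M (dn N w) := by
    intro w
    rw [H73P2.dn_dn (K := M) (k := LM) w, H73P2.dn_dn (K := M) (k := N) w]
  obtain ⟨d, hd⟩ := B2_co hMD y'
  have hd0 : ev (algebraMap M LM (algebraMap K M E) * θM) d ≠ 0 := by
    rw [hd]
    exact hy'0
  have hnf : Te_nf (algebraMap K M (E ^ 2 * a)) (algebraMap K M (E ^ 3 * b)) d =
      Algebra.norm M y' := by
    rw [← H76PP.Te_norm hMD, hd]
  have hevN : ev (algebraMap N LN (algebraMap K N E) * θ) (fun i => algebraMap M N (d i)) =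
      algebraMap LM LN y' := by
    rw [← hd]
    exact (B2_ev (algebraMap LM LN) hML hθD d).symm
  have key := hdesc M N h2 d (by
    rw [hnf]
    exact H76PP.scm_ne _ hy'0) (by
    rw [hnf]
    exact hN') (by
    intro V' hV'
    rw [← H30ZO.Wc_iff _ hND (by rw [hevN]; exact hιy'), hevN]
    by_cases h3 : dn M V' = dn M V
    · rw [hone V' h3]
      have h4 : sc (algebraMap LM LN y') =
          sc (algebraMap LM LN y) + sc (algebraMap LM LN (y' * y)) := by
        rw [map_mul, H38T1.sc_mul hιy' hιy]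
        have h5 : sc (algebraMap LM LN y) + (sc (algebraMap LM LN y') + sc (algebraMap LM LN y)) =
            sc (algebraMap LM LN y') + (sc (algebraMap LM LN y) + sc (algebraMap LM LN y)) := by
          abel
        rw [h5, ← two_nsmul, H38T1.SC.two_smul, add_zero]
      rw [h4, map_mul, map_mul, map_pow, map_pow]
      refine B2_add S.cub V hdN hEN (B2_HH hιy (hup hN)) (B2_HH hιyy (hup hNyy))
        ((H30GX.Lv_iff S E V _).1 h) ?_
      refine H76OD.Wc_sq S.cub V (haN _) (hbN _) hdN hEN ?_
      rw [H30ZO.mem_Sqv]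
      intro w hw
      refine B2_up w hyy ?_
      rw [← hsc]
      refine hy'u _ ?_
      rw [hdn, hw]
    · rw [map_mul, map_mul, map_pow, map_pow]
      refine H76OD.Wc_sq S.cub V' (haN _) (hbN _) hdN hEN ?_
      rw [H30ZO.mem_Sqv]
      intro w hw
      refine B2_up w hy'0 ?_
      refine hy'U (dn M V') ((hU _).2 ?_) h3 _ ?_
      · rw [H73P2.dn_dn V']
        exact hV'
      · rw [hdn, hw]) (dn M V) hdV
  rw [← H30ZO.Wc_iff _ hMD hd0, hd, map_mul, map_mul, map_pow, map_pow] at key
  have h6 : sc y = sc y' + sc (y' * y) := by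
    rw [H38T1.sc_mul hy'0 hy, ← add_assoc, ← two_nsmul, H38T1.SC.two_smul, zero_add]
  rw [h6]
  refine B2_add hM (dn M V) hdM hEM (B2_HH hy'0 hN') (B2_HH hyy hNyy) key ?_
  refine H76OD.Wc_sq hM (dn M V) (haM _) (hbM _) hdM hEM ?_
  rw [H30ZO.mem_Sqv]
  intro p hp
  rw [← hsc]
  exact hy'u p hp

end H88GT
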