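import Pool.Agent.H88.GT.A1
import Pool.Agent.H88.GT.A2
import Pool.Agent.H88.GT.A3
import Pool.Agent.H88.GT.B2
import Pool.Agent.H88.GT.D1
import Pool.Agent.H88.GT.D3
import Pool.Agent.H38.OD.Nb

/-!
ROW D7 (MP_78d38b_GT). The descent condition for `D` excludes three places above `dn M V`.

PROOF. Suppose that there are three places `p` of `LM` above `u = dn M V`.  By D3 (locM, `m = 2`) there is `c' = sc y ∈ HH M LM` with `r i c' = 0` and `u 0 c' = 1`: it satisfies the local condition of `D0` and not that of `D` at `u` (LocD.hr, LocD.hu).  So `eo p c' = 0` for all `p` above `u`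
(H30OR.Wc_even over `M`, Pool/Agent/H30/OR/Tf.lean: the order of `D0` at `u` is 0).  Let `w` be a place of `LN` above `V` and `p = dn LM w` (above `u`).  Claim: `sc (algebraMap LM LN y) ∈ H30ZO.Sq w`.  `ord_p y` is even, so there is `t ∈ LM` with `y * t ^ 2` a unit at `p`.  Residue degrees (A3 inert_tower,
instances of algebras and towers have to be provided; the degree of `w` over `M` through `N` and through `LM`: q.ml): `f(w/p) * f(p/u) = f(w/V) * f(V/u) `, `f(V/u) = 2` (A2, D1 card, H38OD.ram_up), `f(p/u) = 1` (A3 nb3), so `f(w/p)` is even and `la w (sc (algebraMap LM LN (y t ^ 2))) = 0` by A1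
(`k := LM`, `k' := LN`); `eo w = 0` too (a unit).  An element of `SC` with `eo w = 0`, `la w = 0` at an odd place is in `Sq w` (see `nsq_of_la`, `H38T1.la_sc`, `lam_unit`; or a lemma like mem_Sq).
So `sc (algebraMap LM LN y)` is in `H76OD.Sqv N LN V` and satisfies the local condition `S.Lv D V` (H76OD.Wc_sq, Pool/Agent/H76/OD/Lt.lean; H30GX.Lv_iff).  By B2 (`ld`, with hone from D1 (QV.one)) the local condition of `D` at `u` holds for `sc y`: a contradiction.
-/

set_option autoImplicit false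
set_option linter.unusedSectionVars false
open scoped Classical

open WithZero NumberField IsDedekindDomain H38RT
open H38T1 (SC sc scu rep eo la si OddP)
open H36MX (hsv)
open H76MQ (al be)
open H76PP (Cub LC ev scm dn Te_nf)
open H36CY (DescAt)
open H30ZO (nb HH Wc)
open H30OR (LocD)
open H88GX (Ext)

namespace H88GT

variable {K N LN : Type} [Field K] [NumberField K] [Field N] [NumberField N] [Field LN]
  [NumberField LN] [Algebra K N] [Algebra N LN] {a b : K} {θ : LN} {S : Ext K N LN a b θ}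
  {Sg : Finset (HeightOneSpectrum (𝓞 K))} {D0 D : K}

variable {M LM : Type} [Field M] [NumberField M] [Field LM] [NumberField LM] [Algebra K M]
  [Algebra M N] [IsScalarTower K M N] [Algebra M LM] [Algebra LM LN] {θM : LM} {ψ : N ≃ₐ[K] N}

private theorem D7_ord {F : Type} [Field F] [NumberField F] (p : HeightOneSpectrum (𝓞 F)) {y : F}
    (hy : y ≠ 0) (he : eo p (sc y) = 0) : ∃ t : F, t ≠ 0 ∧ p.valuation F (y * t ^ 2) = 1 := by
  rw [H38T1.eo_sc hy, ZMod.intCast_zmod_eq_zero_iff_dvd] at he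
  obtain ⟨n, hn⟩ := he
  obtain ⟨ϖ, hϖ⟩ := p.valuation_exists_uniformizer F
  have hϖ0 : ϖ ≠ 0 := by
    rintro rfl
    rw [map_zero] at hϖ
    exact absurd hϖ.symm exp_ne_zero
  refine ⟨ϖ ^ (-n), zpow_ne_zero _ hϖ0, ?_⟩
  have hv : p.valuation F y ≠ 0 := (Valuation.ne_zero_iff _).2 hy
  have h1 : p.valuation F y = exp (-(ord (p.valuation F) y)) := by
    unfold ord
    rw [neg_neg, exp_log hv]
  rw [map_mul, map_pow, map_zpow₀, h1, hϖ, hn, ← exp_zsmul, ← exp_nsmul, ← exp_add]
  have e : -(((2 : ℕ) : ℤ) * n) + 2 • (-n) • (-1 : ℤ) = 0 := by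
    simp only [nsmul_eq_mul, zsmul_eq_mul, Int.cast_neg, Int.cast_id]
    push_cast
    ring
  rw [e, exp_zero]

theorem QV.ne3 (q : QV M S θM ψ) (hok : S.Ok D0 Sg)
    (h3 : ∀ v : HeightOneSpectrum (𝓞 K), v ∉ Sg → v.valuation K 3 = 1)
    (hram : ∀ V : HeightOneSpectrum (𝓞 N), dn K V ∉ Sg → ¬ H73P2.Ram K V) (hD : D ≠ 0)
    {V : HeightOneSpectrum (𝓞 N)} (hV : dn K V ∉ Sg) (hDo : Odd (ord ((dn K V).valuation K) D))
    (hdesc : DescAt K N (dn K V) (D ^ 2 * a) (D ^ 3 * b)) (hψ : ψ ∈ St K V) :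
    nb M LM (dn M V) ≠ 3 := by
  intro hnb
  obtain ⟨m, r, u, hm, hloc, -, hex⟩ := locM hok h3 hram hD hV hDo q.cub
  have hm2 : m = 2 := by omega
  subst hm2
  obtain ⟨c', hc', hr0, hu0⟩ := hex (fun _ => 0) (fun i => if i = 0 then 1 else 0)
  obtain ⟨y, hy, rfl⟩ := H38T1.sc_surj c'
  have hN : IsSquare (Algebra.norm M y) := (H30ZO.mem_HH hy).1 hc'
  have hW0 := (hloc.hr _ hc').2 hr0
  have hdd : dn K (dn M V) = dn K V := H73P2.dn_dn V
  have hV' : dn K (dn M V) ∉ Sg := by
    rw [hdd]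
    exact hV
  have hE : algebraMap K M D0 ≠ 0 := (map_ne_zero _).2 hok.ne
  have hEe : Even (ord ((dn M V).valuation M) (algebraMap K M D0)) := by
    rw [(H73P2.unram_mid (k := M) (hram V hV)).2 _ hok.ne]
    unfold ord
    rw [hok.val _ hV, log_one, neg_zero]
    exact ⟨0, rfl⟩
  have heo := (H30OR.Wc_even q.cub (H76PP.val_le (S.ha _)) (H76PP.val_le (S.hb _))
    (H42GN.ig_two _ (hok.two _ hV')) (H42GN.ig_disc _ (hok.dis _ hV')) hE hEe hc').1 hW0
  have _ : IsGalois M N := q.gal
  let _ : Algebra M LN := ((algebraMap N LN).comp (algebraMap M N)).toAlgebra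
  have _ : IsScalarTower M N LN := IsScalarTower.of_algebraMap_eq fun x => rfl
  have _ : IsScalarTower M LM LN := IsScalarTower.of_algebraMap_eq fun x => (q.ml x).symm
  have hram' : ¬ H73P2.Ram M V := fun h => hram V hV (H38OD.ram_up (K := K) (F := M) h)
  have hfV : V.asIdeal.inertiaDeg (𝓞 M) = 2 := (inert_st hram').trans (q.card hψ)
  have hsq : sc (algebraMap LM LN y) ∈ H30ZO.Sqv N LN V := by
    rw [H30ZO.mem_Sqv]
    intro w hw
    have hdn : dn M (dn LM w) = dn M V := by
      rw [H73P2.dn_dn (K := M) (k := LM) w, ← hw, H73P2.dn_dn (K := M) (k := N) w]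
    obtain ⟨t, ht0, ht⟩ := D7_ord (dn LM w) hy (heo _ hdn)
    have hyt : y * t ^ 2 ≠ 0 := mul_ne_zero hy (pow_ne_zero 2 ht0)
    have ho : OddP w := by
      have h8 := H76PP.val_one (L := LN) (w := w) (K := N) (x := 2) (by
        rw [hw]
        exact H42GN.ig_two _ (hok.two _ hV))
      rwa [map_ofNat] at h8
    have hf1 : (dn LM w).asIdeal.inertiaDeg (𝓞 M) = 1 := nb3 q.cub hnb hdn
    have hf2 := inert_tower (K := M) (k := LM) w
    have hf3 := inert_tower (K := M) (k := N) w
    rw [hf1, one_mul] at hf2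
    rw [hw, hfV] at hf3
    have hla : la w (sc (algebraMap LM LN (y * t ^ 2))) = 0 := by
      rw [la_res ho ht, ← hf2, hf3]
      push_cast
      have h2 : (2 : ZMod 2) = 0 := rfl
      rw [h2, zero_mul, zero_mul]
    have hιyt : algebraMap LM LN (y * t ^ 2) ≠ 0 := (map_ne_zero _).2 hyt
    have hιy : algebraMap LM LN y ≠ 0 := (map_ne_zero _).2 hy
    have hev : eo w (sc (algebraMap LM LN (y * t ^ 2))) = 0 := by
      rw [H38T1.eo_sc hιyt]
      have h5 := H76PP.val_one (L := LN) (w := w) ht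
      unfold ord
      rw [h5, log_one, neg_zero, Int.cast_zero]
    have hs := H36MX.sq_of_la ho hιyt hev hla
    have he : sc (algebraMap LM LN y) = sc (algebraMap LM LN (y * t ^ 2)) := by
      refine H36MX.sc_eq_of_sq hιy hιyt ⟨algebraMap LM LN (y * t), ?_⟩
      rw [← map_mul, ← map_mul]
      congr 1
      ring
    rw [he, H30ZO.mem_Sq hιyt]
    exact hs
  have hdN : 4 * (algebraMap K N a) ^ 3 + 27 * (algebraMap K N b) ^ 2 ≠ 0 := by
    intro e
    apply S.dne
    apply (algebraMap K N).injective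
    rw [map_zero, map_add, map_mul, map_mul, map_pow, map_pow, map_ofNat, map_ofNat]
    exact e
  have hLv : S.Lv D V (sc (algebraMap LM LN y)) := by
    refine (H30GX.Lv_iff S D V _).2 ?_
    exact H76OD.Wc_sq S.cub V (H76PP.val_le (S.ha _)) (H76PP.val_le (S.hb _)) hdN
      ((map_ne_zero _).2 hD) hsq
  have hW := ld S q.cub q.ml q.th q.two (hok.two _ hV) (fun W h => q.one hψ W h) hD hdesc hy hN
    hLv
  have h7 := (hloc.hu _ hc').1 hW 0
  rw [hu0 0, if_pos rfl] at h7
  exact one_ne_zero h7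

end H88GT
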