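import Pool.Agent.H88.GT.D4
import Pool.Agent.H88.GT.D5
import Pool.Agent.H88.GT.D6
import Pool.Agent.H88.GT.D7

/-!
ROW D8 (MP_78d38b_GT). The symbol at a place below a fixed place, and the moving class.

PROOF (gam). `1 ≤ nb N LN V ≤ 3` (H30OR.nb_ge1, nb_le3), `≠ 2` (D5).  Put `u = dn M V` and let `r', u'` be the local data over `M` (D3 locM), `nb M LM u = m' + 1`.  If `nb N LN V = 1`: `nb M LM u = 1` (D1 le), `m' = 0` and the symbol is zero (LocD.hq, empty sum); the right side is zero since `S.Lv D0 V c` holds for all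
`c ∈ HH` (D3 locN with `m = 0`, LocD.hr; H30GX.Lv_iff).  If `nb N LN V = 3`: `nb M LM u` is not 1 (D6 nb1), not 3 (D7), at most 3: it is 2, `m' = 1`, the symbol is `r' 0 c' * u' 0 c'`, `c' = sc y`.  `r' 0 c' = 0` iff `c'` satisfies the local condition of `D0` at `u` (LocD.hr) iff `S.Lv D0 V c`,
`c = sc (algebraMap LM LN y)` (D4 up; B2 ld with hdesc0, hone by D1), the same for `D`.  `c ∈ HH N LN`: the norm of `algebraMap LM LN y` is `algebraMap M N (norm y)` (see Pool/Agent/H42/GN or H76PP.Te_norm).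
(mov) D0, D6 moving, and: `m' = 1`, so `la u Δ = 1` by D3 (locM); `la u Δ = f * la (dn K V) Δ` by A1 (`k := K`, `k' := M`; `dn K (dn M V) = dn K V`), so `la (dn K V) Δ = 1`.
-/

set_option autoImplicit false
set_option linter.unusedSectionVars false
open scoped Classical

open WithZero NumberField IsDedekindDomain H38RT
open H38T1 (SC sc scu rep eo la si OddP)
open H36MX (hsv)
open H76MQ (al be)
open H76PP (Cub LC ev scm dn Te_nf)
open H36CY (DescAt)
open H30ZO (nb HH Wc)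
open H30OR (LocD)
open H88GX (Ext)

namespace H88GT

variable {K N LN : Type} [Field K] [NumberField K] [Field N] [NumberField N] [Field LN]
  [NumberField LN] [Algebra K N] [Algebra N LN] {a b : K} {θ : LN} {S : Ext K N LN a b θ}
  {Sg : Finset (HeightOneSpectrum (𝓞 K))} {D0 D : K}

variable {M LM : Type} [Field M] [NumberField M] [Field LM] [NumberField LM] [Algebra K M]
  [Algebra M N] [IsScalarTower K M N] [Algebra M LM] [Algebra LM LN] {θM : LM} {ψ : N ≃ₐ[K] N}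

private theorem D8_HH {k L : Type} [Field k] [NumberField k] [Field L] [NumberField L]
    [Algebra k L] {y : L} (hy : y ≠ 0) (h : IsSquare (Algebra.norm k y)) : sc y ∈ HH k L := by
  rw [HH, AddMonoidHom.mem_ker, H76PP.scm_sc _ hy]
  exact (H38T1.sc_eq_zero (H76PP.scm_ne _ hy)).2 h

private theorem D8_norm {M N LM LN : Type} [Field M] [NumberField M] [Field N]
    [NumberField N] [Field LM] [NumberField LM] [Field LN] [NumberField LN]
    [Algebra M N] [Algebra M LM] [Algebra N LN] [Algebra LM LN] {A B : M} {θM : LM} {θ : LN}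
    (hM : Cub M LM A B θM) (hN : Cub N LN (algebraMap M N A) (algebraMap M N B) θ)
    (hML : ∀ x : M, algebraMap LM LN (algebraMap M LM x) = algebraMap N LN (algebraMap M N x))
    (hθ : algebraMap LM LN θM = θ) {y : LM} (h : IsSquare (Algebra.norm M y)) :
    IsSquare (Algebra.norm N (algebraMap LM LN y)) := by
  obtain ⟨c0, c1, c2, hc⟩ := hM.sp y
  obtain ⟨d, hd⟩ : ∃ d : Fin 3 → M, ev θM d = y := ⟨![c0, c1, c2], by rw [hc]; simp [ev]⟩
  rw [← hd, H76PP.Te_norm hM] at h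
  have h1 : algebraMap LM LN y = ev θ (fun i => algebraMap M N (d i)) := by
    rw [← hd]
    unfold ev
    rw [map_add, map_add, map_mul (algebraMap LM LN) (algebraMap M LM (d 1)),
      map_mul (algebraMap LM LN) (algebraMap M LM (d 2)), map_pow, hML, hML, hML, hθ]
  have h2 : Te_nf (algebraMap M N A) (algebraMap M N B) (fun i => algebraMap M N (d i)) =
      algebraMap M N (Te_nf A B d) := by
    simp only [Te_nf, map_add, map_sub, map_mul, map_pow]
  rw [h1, H76PP.Te_norm hN, h2]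
  exact h.map _

private theorem D8_z2 (r u : ZMod 2) (P Q : Prop) (hP : P ↔ r = 0) (hQ : Q ↔ u = 0) :
    r * u = if P ∨ Q then 0 else 1 := by
  by_cases h1 : r = 0
  · rw [if_pos (Or.inl (hP.2 h1)), h1, zero_mul]
  · by_cases h2 : u = 0
    · rw [if_pos (Or.inr (hQ.2 h2)), h2, mul_zero]
    · rw [if_neg (by rintro (h | h); exacts [h1 (hP.1 h), h2 (hQ.1 h)])]
      have h3 : ∀ r u : ZMod 2, r ≠ 0 → u ≠ 0 → r * u = 1 := by decide
      exact h3 r u h1 h2

theorem QV.nb2 (q : QV M S θM ψ) (hok : S.Ok D0 Sg)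
    (h3 : ∀ v : HeightOneSpectrum (𝓞 K), v ∉ Sg → v.valuation K 3 = 1)
    (hram : ∀ V : HeightOneSpectrum (𝓞 N), dn K V ∉ Sg → ¬ H73P2.Ram K V) (hD : D ≠ 0)
    {V : HeightOneSpectrum (𝓞 N)} (hV : dn K V ∉ Sg) (hDo : Odd (ord ((dn K V).valuation K) D))
    (hdesc : DescAt K N (dn K V) (D ^ 2 * a) (D ^ 3 * b)) (hψ : ψ ∈ St K V)
    (hnb : nb N LN V = 3) : nb M LM (dn M V) = 2 := by
  have e1 := H30OR.nb_ge1 M LM (dn M V)
  have e2 := H30OR.nb_le3 q.cub (dn M V)
  have e3 := q.nb1 hψ hnb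
  have e4 := q.ne3 hok h3 hram hD hV hDo hdesc hψ
  omega

theorem gam (q : QV M S θM ψ) (hok : S.Ok D0 Sg)
    (h3 : ∀ v : HeightOneSpectrum (𝓞 K), v ∉ Sg → v.valuation K 3 = 1)
    (hram : ∀ V : HeightOneSpectrum (𝓞 N), dn K V ∉ Sg → ¬ H73P2.Ram K V) (hD : D ≠ 0)
    {V : HeightOneSpectrum (𝓞 N)} (hV : dn K V ∉ Sg) (hDo : Odd (ord ((dn K V).valuation K) D))
    (hdesc : DescAt K N (dn K V) (D ^ 2 * a) (D ^ 3 * b))
    (hdesc0 : DescAt K N (dn K V) (D0 ^ 2 * a) (D0 ^ 3 * b)) (hψ : ψ ∈ St K V) {y : LM}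
    (hy : y ≠ 0) (hN : IsSquare (Algebra.norm M y)) (hal : al q.cub y ≠ 0)
    (hbe : be q.cub y ≠ 0) :
    hsv (dn M V) (al q.cub y) (be q.cub y) =
      if S.Lv D0 V (sc (algebraMap LM LN y)) ∨ S.Lv D V (sc (algebraMap LM LN y)) then 0 else 1 := by
  obtain ⟨m', r', u', hnbM, hL, -, -⟩ := locM hok h3 hram hD hV hDo q.cub
  obtain ⟨m, r, u, hnbN, hLN, -, -⟩ := locN hok h3 hram hD hV hDo
  have hc' : sc y ∈ HH M LM := D8_HH hy hN
  have hιy : algebraMap LM LN y ≠ 0 := (map_ne_zero _).2 hy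
  have hcubN : Cub N LN (algebraMap M N (algebraMap K M a)) (algebraMap M N (algebraMap K M b)) θ := by
    rw [← IsScalarTower.algebraMap_apply K M N, ← IsScalarTower.algebraMap_apply K M N]
    exact S.cub
  have hc : sc (algebraMap LM LN y) ∈ HH N LN := D8_HH hιy (D8_norm q.cub hcubN q.ml q.th hN)
  rw [hL.hq _ hc' y hy rfl hal hbe]
  have e1 := H30OR.nb_ge1 N LN V
  have e2 := H30OR.nb_le3 S.cub V
  have e3 := nb_ne2 hok h3 hram hD hV hDo hψ q.inv q.ne1
  by_cases h4 : nb N LN V = 1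
  · have e5 := q.le hψ
    have e6 : m' = 0 := by omega
    have e7 : m = 0 := by omega
    subst e6
    subst e7
    have h8 : S.Lv D0 V (sc (algebraMap LM LN y)) := by
      rw [H30GX.Lv_iff]
      exact (hLN.hr _ hc).2 fun i => i.elim0
    rw [if_pos (Or.inl h8)]
    simp
  · have e5 : nb N LN V = 3 := by omega
    have e6 := q.nb2 hok h3 hram hD hV hDo hdesc hψ e5
    have e7 : m' = 1 := by omega
    subst e7
    rw [Fin.sum_univ_one]
    have h2 : (dn K V).valuation K 2 = 1 := hok.two _ hV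
    refine D8_z2 _ _ _ _ ?_ ?_
    · have h9 := hL.hr _ hc'
      constructor
      · intro h
        exact h9.1 (ld S q.cub q.ml q.th q.two h2 (q.one hψ) hok.ne hdesc0 hy hN h) 0
      · intro h
        exact q.up hok.ne V hy (h9.2 fun i => by rw [Subsingleton.elim i 0]; exact h)
    · have h9 := hL.hu _ hc'
      constructor
      · intro h
        exact h9.1 (ld S q.cub q.ml q.th q.two h2 (q.one hψ) hD hdesc hy hN h) 0
      · intro h
        exact q.up hD V hy (h9.2 fun i => by rw [Subsingleton.elim i 0]; exact h)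

theorem mov (hok : S.Ok D0 Sg) (h3 : ∀ v : HeightOneSpectrum (𝓞 K), v ∉ Sg → v.valuation K 3 = 1)
    (hram : ∀ V : HeightOneSpectrum (𝓞 N), dn K V ∉ Sg → ¬ H73P2.Ram K V) (hD : D ≠ 0)
    {V : HeightOneSpectrum (𝓞 N)} (hV : dn K V ∉ Sg) (hDo : Odd (ord ((dn K V).valuation K) D))
    (hdesc : DescAt K N (dn K V) (D ^ 2 * a) (D ^ 3 * b)) (hnb : nb N LN V = 3)
    (hψ : ψ ∈ St K V) (hψ2 : ψ * ψ = 1) (hψ1 : ψ ≠ 1) :
    (∃ x ∈ HH N LN, ¬ S.Lv D0 V (x + S.ρ ψ • x)) ∧
      la (dn K V) (sc (-(4 * a ^ 3 + 27 * b ^ 2))) = 1 := by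
  obtain ⟨M, _, _, _, _, _, LM, _, _, _, _, θM, q⟩ := exists_QV S hψ2 hψ1
  have hu := q.nb2 hok h3 hram hD hV hDo hdesc hψ hnb
  refine ⟨q.moving hok h3 hram hD hV hDo hψ hnb hu, ?_⟩
  obtain ⟨m', r', u', hnbM, -, hla, -⟩ := locM hok h3 hram hD hV hDo q.cub
  have e1 : m' = 1 := by omega
  subst e1
  have hdd : dn K (dn M V) = dn K V := H73P2.dn_dn V
  have hV' : dn K (dn M V) ∉ Sg := by
    rw [hdd]
    exact hV
  have ho : OddP (dn M V) := H42GN.ig_two _ (hok.two _ hV')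
  have hx : (dn K (dn M V)).valuation K (-(4 * a ^ 3 + 27 * b ^ 2)) = 1 := by
    rw [Valuation.map_neg]
    exact hok.dis _ hV'
  have h5 := la_res ho hx
  have h6 : algebraMap K M (-(4 * a ^ 3 + 27 * b ^ 2)) =
      -(4 * (algebraMap K M a) ^ 3 + 27 * (algebraMap K M b) ^ 2) := by
    rw [map_neg, map_add, map_mul, map_mul, map_pow, map_pow, map_ofNat, map_ofNat]
  rw [h6, ← hla, hdd] at h5
  have h7 : ∀ f l : ZMod 2, ((1 : ℕ) : ZMod 2) = f * l → l = 1 := by decide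
  exact h7 _ _ h5

end H88GT
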