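import Mathlib

/-!
ROW E1 (MP_78d38b_GT), abstract linear algebra over `ZMod 2`.

`r`, `u` are independent on `H` (`js`), the form `∑ r i * u i` and the common kernels of the `r i` and of the `u i` on `H` are invariant under `Dg`.
Then `u` is transformed by matrices, and the pairing `∑ r i x * u i y` is invariant.

PROOF. Fix `d ∈ Dg`.  The functional `x ↦ r i (act d x)` on `H` vanishes on the common kernel of the `r j`, and `(r j)_j : H → F_2^n` is surjective, so there are `A i j` with `r i (act d x) = ∑ j, A i j * r j x` for `x ∈ H`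
(`A i j` = the value at a class with `r = e_j`, `u = 0`; two elements with the same `r` differ by an element of the kernel); the same for `u` with a matrix `B`.  Then `∑ i, (∑ j, A i j r j) (∑ k, B i k u k) = ∑ i, r i u i` at all `x ∈ H`; take `x` with `r = e_j`, `u = e_k`:
`∑ i, A i j * B i k = if j = k then 1 else 0`.  So `∑ i, r i (act d x) * u i (act d y) = ∑ j k, (∑ i, A i j * B i k) * r j x * u k y = ∑ i, r i x * u i y`.
-/

set_option autoImplicit false
open scoped Classical

namespace H88GT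

theorem la1 {G V : Type} [Group G] [AddCommGroup V] {act : G → V → V}
    (aadd : ∀ g x y, act g (x + y) = act g x + act g y) {H : AddSubgroup V}
    (stb : ∀ g, ∀ x ∈ H, act g x ∈ H) {Dg : Subgroup G} {n : ℕ} {r u : Fin n → (V →+ ZMod 2)}
    (js : ∀ z z' : Fin n → ZMod 2, ∃ x ∈ H, (∀ i, r i x = z i) ∧ ∀ i, u i x = z' i)
    (hr : ∀ d ∈ Dg, ∀ x ∈ H, (∀ i, r i x = 0) → ∀ i, r i (act d x) = 0)
    (hu : ∀ d ∈ Dg, ∀ x ∈ H, (∀ i, u i x = 0) → ∀ i, u i (act d x) = 0)
    (hQ : ∀ d ∈ Dg, ∀ x ∈ H, ∑ i, r i (act d x) * u i (act d x) = ∑ i, r i x * u i x) :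
    (∀ d ∈ Dg, ∀ i, ∃ A : Fin n → ZMod 2, ∀ x ∈ H, u i (act d x) = ∑ j, A j * u j x) ∧
      ∀ d ∈ Dg, ∀ x ∈ H, ∀ y ∈ H, ∑ i, r i (act d x) * u i (act d y) = ∑ i, r i x * u i y := by
  classical
  have hsub : ∀ (f : V →+ ZMod 2) (x y : V), f (x - y) = f x - f y := fun f x y => map_sub f x y
  let a : G → (V →+ V) := fun g => AddMonoidHom.mk' (act g) (aadd g)
  have ha : ∀ g x, a g x = act g x := fun g x => rfl
  -- equal `r` values on `H`
  have hr' : ∀ d ∈ Dg, ∀ x ∈ H, ∀ x' ∈ H, (∀ i, r i x = r i x') →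
      ∀ i, r i (act d x) = r i (act d x') := by
    intro d hd x hx x' hx' he i
    have h1 := hr d hd (x - x') (H.sub_mem hx hx') (fun j => by rw [hsub, he j, sub_self]) i
    rw [← ha, map_sub, hsub, ha, ha] at h1
    exact sub_eq_zero.1 h1
  have hu' : ∀ d ∈ Dg, ∀ x ∈ H, ∀ x' ∈ H, (∀ i, u i x = u i x') →
      ∀ i, u i (act d x) = u i (act d x') := by
    intro d hd x hx x' hx' he i
    have h1 := hu d hd (x - x') (H.sub_mem hx hx') (fun j => by rw [hsub, he j, sub_self]) i
    rw [← ha, map_sub, hsub, ha, ha] at h1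
    exact sub_eq_zero.1 h1
  refine ⟨?_, ?_⟩
  · intro d hd i
    choose f hfH hfr hfu using fun j : Fin n => js 0 (Pi.single j 1)
    refine ⟨fun j => u i (act d (f j)), fun x hx => ?_⟩
    have hyH : ∑ j, (u j x).val • f j ∈ H :=
      H.sum_mem (fun j _ => H.nsmul_mem (hfH j) _)
    have hval : ∀ k, u k (∑ j, (u j x).val • f j) = u k x := by
      intro k
      rw [map_sum]
      simp only [map_nsmul, hfu, nsmul_eq_mul, ZMod.natCast_val, ZMod.cast_id', id_eq]
      rw [Finset.sum_eq_single k]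
      · simp
      · intro j _ hj
        rw [Pi.single_eq_of_ne (Ne.symm hj), mul_zero]
      · simp
    rw [← hu' d hd _ hyH x hx hval i, ← ha, map_sum, map_sum]
    refine Finset.sum_congr rfl (fun j _ => ?_)
    rw [map_nsmul, map_nsmul, nsmul_eq_mul, ZMod.natCast_val, ZMod.cast_id', id_eq, mul_comm, ha]
  · intro d hd x hx y hy
    obtain ⟨x', hx'H, hx'r, hx'u⟩ := js (fun i => r i x) 0
    obtain ⟨y', hy'H, hy'r, hy'u⟩ := js 0 (fun i => u i y)
    have hdy'r : ∀ i, r i (act d y') = 0 := hr d hd y' hy'H (fun i => by simpa using hy'r i)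
    have e1 : ∑ i, r i (act d x) * u i (act d y) = ∑ i, r i (act d x') * u i (act d y') := by
      refine Finset.sum_congr rfl (fun i _ => ?_)
      rw [hr' d hd x hx x' hx'H (fun j => (hx'r j).symm) i,
        hu' d hd y hy y' hy'H (fun j => (hy'u j).symm) i]
    have e2 : ∑ i, r i x * u i y = ∑ i, r i x' * u i y' := by
      refine Finset.sum_congr rfl (fun i _ => ?_)
      rw [hx'r i, hy'u i]
    have pol : ∀ v w : V, ∑ i, r i (v + w) * u i (v + w) =
        ∑ i, r i v * u i v + ∑ i, r i w * u i w + ∑ i, r i v * u i w + ∑ i, r i w * u i v := by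
      intro v w
      rw [← Finset.sum_add_distrib, ← Finset.sum_add_distrib, ← Finset.sum_add_distrib]
      refine Finset.sum_congr rfl (fun i _ => ?_)
      rw [map_add, map_add]
      ring
    have z1 : ∑ i, r i (act d y') * u i (act d x') = 0 :=
      Finset.sum_eq_zero (fun i _ => by rw [hdy'r i, zero_mul])
    have z2 : ∑ i, r i y' * u i x' = 0 :=
      Finset.sum_eq_zero (fun i _ => by rw [hy'r i]; simp)
    have q1 := hQ d hd (x' + y') (H.add_mem hx'H hy'H)
    rw [aadd, pol, pol, hQ d hd x' hx'H, hQ d hd y' hy'H, z1, z2, add_zero, add_zero] at q1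
    rw [e1, e2]
    exact add_left_cancel q1


end H88GT
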