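import Pool.Agent.H88.GT.F0
import Pool.Agent.H88.GT.E1

/-!
ROW F1 (MP_78d38b_GT). The local package, odd decomposition group.

PROOF. `C = St K V`.  hr, hu: LocD.hr, LocD.hu with H30GX.Lv_iff and F0.  hq: LocD.hq and F0: all the `|St|` (odd) terms are equal.  eqv, inv: E1 (`act g c = S.ρ g • c`, `H = HH N LN`, `H88GX.HH_smul`).  fix: a group of odd order has no involution (orderOf_dvd_natCard).
card: `m * |St| = m * |St|`.
-/

set_option autoImplicit false
set_option linter.unusedSectionVars false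
open scoped Classical

open WithZero NumberField IsDedekindDomain H38RT
open H38T1 (SC sc scu rep eo la si OddP)
open H36MX (hsv)
open H76MQ (al be)
open H76PP (Cub LC ev scm dn Te_nf)
open H36CY (DescAt)
open H30ZO (nb HH Wc)
open H30OR (LocD)
open H88GX (Ext)

namespace H88GT

variable {K N LN : Type} [Field K] [NumberField K] [Field N] [NumberField N] [Field LN]
  [NumberField LN] [Algebra K N] [Algebra N LN] {a b : K} {θ : LN} {S : Ext K N LN a b θ}
  {Sg : Finset (HeightOneSpectrum (𝓞 K))} {D0 D : K}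

theorem LP_odd {V : HeightOneSpectrum (𝓞 N)} {m : ℕ} {r u : Fin m → (SC LN →+ ZMod 2)}
    (hl : LocD S.cub V (algebraMap K N D0) (algebraMap K N D) r u) (hnb : nb N LN V = m + 1)
    (js : ∀ z z' : Fin m → ZMod 2, ∃ c ∈ HH N LN, (∀ i, r i c = z i) ∧ ∀ i, u i c = z' i)
    (hodd : Odd (Nat.card (St K V))) : LP S V D0 D (St K V) r u := by
  have L0 : ∀ c ∈ HH N LN, (S.Lv D0 V c ↔ ∀ i, r i c = 0) := fun c hc =>
    (H30GX.Lv_iff S D0 V c).trans (hl.hr c hc)
  have L1 : ∀ c ∈ HH N LN, (S.Lv D V c ↔ ∀ i, u i c = 0) := fun c hc =>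
    (H30GX.Lv_iff S D V c).trans (hl.hu c hc)
  have hla := la1 (act := fun (g : N ≃ₐ[K] N) (c : SC LN) => S.ρ g • c)
    (fun g x y => smul_add _ _ _) (H := HH N LN) (fun g x hx => H88GX.HH_smul S g hx)
    (Dg := St K V) js (fun d hd x hx => (loc_inv hl hd hx).2.1)
    (fun d hd x hx => (loc_inv hl hd hx).2.2) (fun d hd x hx => (loc_inv hl hd hx).1)
  have h1s : ∀ c : SC LN, S.ρ (1 : N ≃ₐ[K] N) • c = c := by
    intro c
    rw [map_one, one_smul]
  refine ⟨le_rfl, hodd, ?_, ?_, ?_, ?_, hla.1, hla.2, ?_⟩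
  · rw [hnb, Nat.add_sub_cancel]
  · intro c hc
    rw [L0 c hc]
    constructor
    · intro h d hd
      exact (loc_inv hl hd hc).2.1 h
    · intro h i
      have h2 := h 1 (one_mem _) i
      rwa [h1s] at h2
  · intro c hc
    rw [L1 c hc]
    constructor
    · intro h d hd
      exact (loc_inv hl hd hc).2.2 h
    · intro h i
      have h2 := h 1 (one_mem _) i
      rwa [h1s] at h2
  · intro _ c hc y hy hyc h1 h2
    rw [hl.hq c hc y hy hyc h1 h2]
    have h3 : ∀ d : St K V, ∑ i, r i (S.ρ (d : N ≃ₐ[K] N) • c) * u i (S.ρ (d : N ≃ₐ[K] N) • c)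
        = ∑ i, r i c * u i c := fun d => (loc_inv hl d.2 hc).1
    rw [Finset.sum_congr rfl (fun d _ => h3 d), Finset.sum_const, Finset.card_univ,
      ← Nat.card_eq_fintype_card, nsmul_eq_mul, (ZMod.natCast_eq_one_iff_odd).2 hodd, one_mul]
  · intro _ ψ hψ h2 h1
    exfalso
    have h3 : orderOf (⟨ψ, hψ⟩ : St K V) = 2 := by
      apply orderOf_eq_prime
      · rw [sq]
        exact Subtype.ext h2
      · intro h4
        exact h1 (congrArg Subtype.val h4)
    have h4 := orderOf_dvd_natCard (⟨ψ, hψ⟩ : St K V)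
    rw [h3] at h4
    rcases hodd with ⟨k, hk⟩
    omega

end H88GT
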