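import Pool.Agent.H88.GT.F0

/-!
ROW F2 (MP_78d38b_GT). The local package if there is one place above `V` (no functionals).
-/

set_option autoImplicit false
set_option linter.unusedSectionVars false
open scoped Classical

open WithZero NumberField IsDedekindDomain H38RT
open H38T1 (SC sc scu rep eo la si OddP)
open H36MX (hsv)
open H76MQ (al be)
open H76PP (Cub LC ev scm dn Te_nf)
open H36CY (DescAt)
open H30ZO (nb HH Wc)
open H30OR (LocD)
open H88GX (Ext)

namespace H88GT

variable {K N LN : Type} [Field K] [NumberField K] [Field N] [NumberField N] [Field LN]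
  [NumberField LN] [Algebra K N] [Algebra N LN] {a b : K} {θ : LN} {S : Ext K N LN a b θ}
  {Sg : Finset (HeightOneSpectrum (𝓞 K))} {D0 D : K}

theorem LP_one {V : HeightOneSpectrum (𝓞 N)} {r u : Fin 0 → (SC LN →+ ZMod 2)}
    (hl : LocD S.cub V (algebraMap K N D0) (algebraMap K N D) r u) (hnb : nb N LN V = 1) :
    LP S V D0 D (⊥ : Subgroup (N ≃ₐ[K] N)) r u := by
  have hr : ∀ c ∈ HH N LN, S.Lv D0 V c := by
    intro c hc
    rw [H30GX.Lv_iff]
    exact (hl.hr c hc).2 fun i => i.elim0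
  have hu : ∀ c ∈ HH N LN, S.Lv D V c := by
    intro c hc
    rw [H30GX.Lv_iff]
    exact (hl.hu c hc).2 fun i => i.elim0
  refine ⟨bot_le, ?_, ?_, ?_, ?_, ?_, ?_, ?_, ?_⟩
  · rw [Subgroup.card_bot]
    exact odd_one
  · rw [hnb, Nat.sub_self, zero_mul, zero_mul]
  · exact fun c hc => ⟨fun _ _ _ i => i.elim0, fun _ => hr c hc⟩
  · exact fun c hc => ⟨fun _ _ _ i => i.elim0, fun _ => hu c hc⟩
  · intro _ c hc y hy hyc ha hb
    rw [hl.hq c hc y hy hyc ha hb]
    simp
  · exact fun _ _ i => i.elim0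
  · intro c _ x _ y _
    simp
  · intro _ ψ _ _ _ x hx
    rw [if_pos (Or.inl (hr _ ((HH N LN).add_mem hx (H88GX.HH_smul S ψ hx))))]
    simp

end H88GT
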