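import Pool.Agent.H88.GT.E1

/-!
ROW E2 (MP_78d38b_GT), abstract linear algebra over `ZMod 2`.

`r`, `u` (two functionals each) are independent on `H`, the form `∑ r i * u i` and the common kernels are invariant under the cyclic group `Dg`; the involution `ψ ∈ Dg` does not act trivially on the span of the `r i`.
Then `Dg` has a subgroup `C` of odd order and index two, and the form is `r' u' + (r' ∘ ψ) (u' ∘ ψ)` for functionals `r'`, `u'` invariant under `C` on `H`.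

PROOF. For `d ∈ Dg` let `A d` be the matrix of `d` on the `r i`: `r i (act d x) = ∑ j, A d i j * r j x` for `x ∈ H` (as in the proof of E1), `B d` that for the `u i`; `A`, `B` are (anti)multiplicative (`act_mul`, and `js`: the matrices are unique), `A 1 = 1`, and
`∑ i, A d i j * B d i k = δ_{jk}` (proof of E1).  Let `φ` be the generator, `A φ = a`.  Then `A ψ = a ^ n` (`ψ = φ ^ n`) has square one and is not one (hmov: `r i x₀ + r i (act ψ x₀) ≠ 0` for some `i`).  `decide` over 2 x 2 matrices over `ZMod 2`: (i) if `a ^ n` is an involution `≠ 1` for some `n`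
then `a ^ 2 = 1` (all invertible `a` satisfy `a ^ 6 = 1`, so `n` matters mod 6), (ii) no `a` has `a ^ 2` = an involution `≠ 1`.  If `4` divides `Nat.card Dg` then `ψ` (the only element of order two of the cyclic group `Dg`) is the square of an element `χ ∈ Dg`, so `A ψ = (A χ) ^ 2`,
a contradiction to (ii).  So `Nat.card Dg = 2 * (odd)` and `C = {φ ^ (2 k)}` (zpowers of `φ ^ 2`) has odd order and index two and acts trivially on the `r i` and (by the contragredience) on the `u i`.  The involution `A ψ` of `F_2^2` interchanges two of the three nonzero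
functionals of the span: take `r'` one of the two, so `r'`, `r' ∘ ψ` is a basis of the span (`r' = r 0`, `r 1` or `r 0`..., finitely many cases: `A ψ` is one of three matrices), and `u'`, `u''` the dual basis of the span of the `u i` (change of basis); by the invariance of the form under `ψ`
and `js`, `u'' = u' ∘ ψ` on `H` (directly: `u' = u 0`, `u 1`, ... in the three cases, by the formula for `B ψ`).
-/

set_option autoImplicit false

namespace H88GT

private lemma E2_dec1 : ∀ p q s t p' q' s' t' : ZMod 2,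
    (!![p, q; s, t] : Matrix (Fin 2) (Fin 2) (ZMod 2)).transpose * !![p', q'; s', t'] = 1 →
    (!![p, q; s, t] : Matrix (Fin 2) (Fin 2) (ZMod 2)) ^ 6 = 1 := by
  decide

private lemma E2_dec2 : ∀ p q s t : ZMod 2, ∀ m : Fin 6,
    (!![p, q; s, t] : Matrix (Fin 2) (Fin 2) (ZMod 2)) ^ (m : ℕ) ≠ 1 →
    (!![p, q; s, t] : Matrix (Fin 2) (Fin 2) (ZMod 2)) ^ (m : ℕ) *
        (!![p, q; s, t] : Matrix (Fin 2) (Fin 2) (ZMod 2)) ^ (m : ℕ) = 1 →
      (!![p, q; s, t] : Matrix (Fin 2) (Fin 2) (ZMod 2)) ^ 2 = 1 ∧ (m : ℕ) % 2 = 1 := by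
  decide

private lemma E2_dec3 : ∀ p q s t : ZMod 2,
    (!![p, q; s, t] : Matrix (Fin 2) (Fin 2) (ZMod 2)) ^ 2 = 1 →
    (!![p, q; s, t] : Matrix (Fin 2) (Fin 2) (ZMod 2)) ≠ 1 →
      (!![p, q; s, t] : Matrix (Fin 2) (Fin 2) (ZMod 2)) = !![0, 1; 1, 0] ∨
      (!![p, q; s, t] : Matrix (Fin 2) (Fin 2) (ZMod 2)) = !![1, 1; 0, 1] ∨
      (!![p, q; s, t] : Matrix (Fin 2) (Fin 2) (ZMod 2)) = !![1, 0; 1, 1] := by
  decide

private lemma E2_dec4 : ∀ p' q' s' t' : ZMod 2,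
    (!![0, 1; 1, 0] : Matrix (Fin 2) (Fin 2) (ZMod 2)).transpose * !![p', q'; s', t'] = 1 →
    (!![p', q'; s', t'] : Matrix (Fin 2) (Fin 2) (ZMod 2)) = !![0, 1; 1, 0] := by
  decide

private lemma E2_dec5 : ∀ p' q' s' t' : ZMod 2,
    (!![1, 1; 0, 1] : Matrix (Fin 2) (Fin 2) (ZMod 2)).transpose * !![p', q'; s', t'] = 1 →
    (!![p', q'; s', t'] : Matrix (Fin 2) (Fin 2) (ZMod 2)) = !![1, 0; 1, 1] := by
  decide

private lemma E2_dec6 : ∀ p' q' s' t' : ZMod 2,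
    (!![1, 0; 1, 1] : Matrix (Fin 2) (Fin 2) (ZMod 2)).transpose * !![p', q'; s', t'] = 1 →
    (!![p', q'; s', t'] : Matrix (Fin 2) (Fin 2) (ZMod 2)) = !![1, 1; 0, 1] := by
  decide

end H88GT

open scoped Classical

namespace H88GT

private lemma E2_lin {V : Type} [AddCommGroup V] {H : AddSubgroup V} {r : Fin 2 → (V →+ ZMod 2)}
    {xs : Fin 2 → V} (hx : ∀ k, xs k ∈ H) (e : ∀ i k, r i (xs k) = if i = k then 1 else 0)
    (f : V →+ ZMod 2) (hf : ∀ x ∈ H, (∀ i, r i x = 0) → f x = 0) :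
    ∀ x ∈ H, f x = ∑ j, f (xs j) * r j x := by
  intro x hxH
  have hc : ∀ (g : V →+ ZMod 2) (j : Fin 2), g ((r j x).val • xs j) = r j x * g (xs j) := by
    intro g j
    rw [map_nsmul, nsmul_eq_mul, ZMod.natCast_zmod_val]
  have hy : x - ∑ j, (r j x).val • xs j ∈ H :=
    H.sub_mem hxH (AddSubgroup.sum_mem _ fun j _ => H.nsmul_mem (hx j) _)
  have hy0 : ∀ i, r i (x - ∑ j, (r j x).val • xs j) = 0 := by
    intro i
    rw [map_sub, map_sum]
    have h1 : ∑ j, r i ((r j x).val • xs j) = r i x := by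
      rw [Finset.sum_congr rfl fun j _ => hc (r i) j]
      simp [e]
    rw [h1, sub_self]
  have h2 := hf _ hy hy0
  rw [map_sub, map_sum, sub_eq_zero] at h2
  rw [h2]
  refine Finset.sum_congr rfl fun j _ => ?_
  rw [hc f j, mul_comm]

private lemma E2_mat (a b : Matrix (Fin 2) (Fin 2) (ZMod 2)) (h : a.transpose * b = 1) (n : ℕ)
    (h1 : a ^ n ≠ 1) (h2 : a ^ n * a ^ n = 1) :
    a ^ 2 = 1 ∧ n % 2 = 1 ∧
      ((a 0 0 = 0 ∧ a 0 1 = 1 ∧ a 1 0 = 1 ∧ a 1 1 = 0 ∧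
          b 0 0 = 0 ∧ b 0 1 = 1 ∧ b 1 0 = 1 ∧ b 1 1 = 0) ∨
        (a 0 0 = 1 ∧ a 0 1 = 1 ∧ a 1 0 = 0 ∧ a 1 1 = 1 ∧
          b 0 0 = 1 ∧ b 0 1 = 0 ∧ b 1 0 = 1 ∧ b 1 1 = 1) ∨
        (a 0 0 = 1 ∧ a 0 1 = 0 ∧ a 1 0 = 1 ∧ a 1 1 = 1 ∧
          b 0 0 = 1 ∧ b 0 1 = 1 ∧ b 1 0 = 0 ∧ b 1 1 = 1)) := by
  have h3 := E2_dec1 (a 0 0) (a 0 1) (a 1 0) (a 1 1) (b 0 0) (b 0 1) (b 1 0) (b 1 1)
  have h5 := E2_dec2 (a 0 0) (a 0 1) (a 1 0) (a 1 1) ⟨n % 6, Nat.mod_lt _ (by norm_num)⟩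
  have h6 := E2_dec3 (a 0 0) (a 0 1) (a 1 0) (a 1 1)
  rw [← Matrix.eta_fin_two a, ← Matrix.eta_fin_two b] at h3
  rw [← Matrix.eta_fin_two a] at h5 h6
  have h4 := h3 h
  have h7 : a ^ n = a ^ (n % 6) := by
    conv_lhs => rw [← Nat.div_add_mod n 6, pow_add, pow_mul, h4, one_pow, one_mul]
  simp only at h5
  rw [← h7] at h5
  obtain ⟨h8, h9⟩ := h5 h1 h2
  have h10 : a ≠ 1 := by
    intro h
    rw [h, one_pow] at h1
    exact h1 rfl
  have hb := Matrix.eta_fin_two b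
  refine ⟨h8, by omega, ?_⟩
  rcases h6 h8 h10 with h11 | h11 | h11
  · left
    rw [h11, hb] at h
    have h12 := E2_dec4 _ _ _ _ h
    rw [← hb] at h12
    rw [h11, h12]
    exact ⟨rfl, rfl, rfl, rfl, rfl, rfl, rfl, rfl⟩
  · right
    left
    rw [h11, hb] at h
    have h12 := E2_dec5 _ _ _ _ h
    rw [← hb] at h12
    rw [h11, h12]
    exact ⟨rfl, rfl, rfl, rfl, rfl, rfl, rfl, rfl⟩
  · right
    right
    rw [h11, hb] at h
    have h12 := E2_dec6 _ _ _ _ h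
    rw [← hb] at h12
    rw [h11, h12]
    exact ⟨rfl, rfl, rfl, rfl, rfl, rfl, rfl, rfl⟩

theorem la2 {G V : Type} [Group G] [AddCommGroup V] {act : G → V → V}
    (a1 : ∀ x, act 1 x = x) (amul : ∀ g h x, act (g * h) x = act g (act h x))
    (aadd : ∀ g x y, act g (x + y) = act g x + act g y) {H : AddSubgroup V}
    (stb : ∀ g, ∀ x ∈ H, act g x ∈ H) {Dg : Subgroup G} [Finite Dg]
    (hcyc : ∃ φ ∈ Dg, ∀ g ∈ Dg, ∃ n : ℕ, g = φ ^ n) {r u : Fin 2 → (V →+ ZMod 2)}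
    (js : ∀ z z' : Fin 2 → ZMod 2, ∃ x ∈ H, (∀ i, r i x = z i) ∧ ∀ i, u i x = z' i)
    (hr : ∀ d ∈ Dg, ∀ x ∈ H, (∀ i, r i x = 0) → ∀ i, r i (act d x) = 0)
    (hu : ∀ d ∈ Dg, ∀ x ∈ H, (∀ i, u i x = 0) → ∀ i, u i (act d x) = 0)
    (hQ : ∀ d ∈ Dg, ∀ x ∈ H, ∑ i, r i (act d x) * u i (act d x) = ∑ i, r i x * u i x)
    {ψ : G} (hψ : ψ ∈ Dg) (hψ2 : ψ * ψ = 1) {x₀ : V} (hx₀ : x₀ ∈ H)
    (hmov : ∃ i, r i (x₀ + act ψ x₀) ≠ 0) :
    ∃ (C : Subgroup G) (r' u' : V →+ ZMod 2), C ≤ Dg ∧ Odd (Nat.card C) ∧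
      Nat.card Dg = 2 * Nat.card C ∧
      (∀ c ∈ C, ∀ x ∈ H, r' (act c x) = r' x ∧ u' (act c x) = u' x) ∧
      (∀ x ∈ H, (∀ i, r i x = 0) ↔ r' x = 0 ∧ r' (act ψ x) = 0) ∧
      (∀ x ∈ H, (∀ i, u i x = 0) ↔ u' x = 0 ∧ u' (act ψ x) = 0) ∧
      ∀ x ∈ H, ∑ i, r i x * u i x = r' x * u' x + r' (act ψ x) * u' (act ψ x) := by
  obtain ⟨φ, hφ, hgen⟩ := hcyc
  -- dual bases
  have js1 : ∀ k : Fin 2, ∃ x ∈ H, (∀ i, r i x = if i = k then 1 else 0) ∧ ∀ i, u i x = 0 :=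
    fun k => js (fun i => if i = k then 1 else 0) (fun _ => 0)
  have js2 : ∀ k : Fin 2, ∃ x ∈ H, (∀ i, r i x = 0) ∧ ∀ i, u i x = if i = k then 1 else 0 :=
    fun k => js (fun _ => 0) (fun i => if i = k then 1 else 0)
  choose xs hxH hxr hxu using js1
  choose ys hyH hyr hyu using js2
  have ex : ∀ i k, r i (xs k) = if i = k then 1 else 0 := fun i k => hxr k i
  have ey : ∀ i k, u i (ys k) = if i = k then 1 else 0 := fun i k => hyu k i
  obtain ⟨ac, hac⟩ : ∃ ac : G → (V →+ V), ∀ g x, ac g x = act g x :=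
    ⟨fun g => AddMonoidHom.mk' (act g) (aadd g), fun g x => rfl⟩
  obtain ⟨A, hAd⟩ : ∃ A : G → Matrix (Fin 2) (Fin 2) (ZMod 2), ∀ g i j, A g i j = r i (act g (xs j)) :=
    ⟨fun g => Matrix.of fun i j => r i (act g (xs j)), fun g i j => rfl⟩
  obtain ⟨B, hBd⟩ : ∃ B : G → Matrix (Fin 2) (Fin 2) (ZMod 2), ∀ g i j, B g i j = u i (act g (ys j)) :=
    ⟨fun g => Matrix.of fun i j => u i (act g (ys j)), fun g i j => rfl⟩
  have hA : ∀ d ∈ Dg, ∀ x ∈ H, ∀ i, r i (act d x) = ∑ j, A d i j * r j x := by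
    intro d hd x hx i
    have h1 := E2_lin hxH ex ((r i).comp (ac d)) (fun y hy hy0 => by
      rw [AddMonoidHom.comp_apply, hac]
      exact hr d hd y hy hy0 i) x hx
    simp only [AddMonoidHom.comp_apply, hac] at h1
    rw [h1]
    exact Finset.sum_congr rfl fun j _ => by rw [hAd]
  have hB : ∀ d ∈ Dg, ∀ x ∈ H, ∀ i, u i (act d x) = ∑ j, B d i j * u j x := by
    intro d hd x hx i
    have h1 := E2_lin hyH ey ((u i).comp (ac d)) (fun y hy hy0 => by
      rw [AddMonoidHom.comp_apply, hac]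
      exact hu d hd y hy hy0 i) x hx
    simp only [AddMonoidHom.comp_apply, hac] at h1
    rw [h1]
    exact Finset.sum_congr rfl fun j _ => by rw [hBd]
  have hA1 : A 1 = 1 := by
    ext i j
    rw [hAd, a1, ex, Matrix.one_apply]
  have hB1 : B 1 = 1 := by
    ext i j
    rw [hBd, a1, ey, Matrix.one_apply]
  have hAm : ∀ g ∈ Dg, ∀ h ∈ Dg, A (g * h) = A g * A h := by
    intro g hg h hh
    ext i k
    rw [hAd, amul, hA g hg _ (stb h _ (hxH k)), Matrix.mul_apply]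
    exact Finset.sum_congr rfl fun j _ => by rw [hAd h]
  have hBm : ∀ g ∈ Dg, ∀ h ∈ Dg, B (g * h) = B g * B h := by
    intro g hg h hh
    ext i k
    rw [hBd, amul, hB g hg _ (stb h _ (hyH k)), Matrix.mul_apply]
    exact Finset.sum_congr rfl fun j _ => by rw [hBd h]
  have hAp : ∀ g ∈ Dg, ∀ n : ℕ, A (g ^ n) = A g ^ n := by
    intro g hg n
    induction n with
    | zero => rw [pow_zero, pow_zero, hA1]
    | succ n ih => rw [pow_succ, pow_succ, hAm _ (Dg.pow_mem hg n) _ hg, ih]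
  have hBp : ∀ g ∈ Dg, ∀ n : ℕ, B (g ^ n) = B g ^ n := by
    intro g hg n
    induction n with
    | zero => rw [pow_zero, pow_zero, hB1]
    | succ n ih => rw [pow_succ, pow_succ, hBm _ (Dg.pow_mem hg n) _ hg, ih]
  have hAB : ∀ d ∈ Dg, (A d).transpose * B d = 1 := by
    intro d hd
    ext j k
    obtain ⟨x, hx, hx1, hx2⟩ := js (fun i => if i = j then 1 else 0) (fun i => if i = k then 1 else 0)
    have h1 := hQ d hd x hx
    have h2 : ∀ i, r i (act d x) = A d i j := by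
      intro i
      rw [hA d hd x hx i]
      simp [hx1]
    have h3 : ∀ i, u i (act d x) = B d i k := by
      intro i
      rw [hB d hd x hx i]
      simp [hx2]
    rw [Matrix.mul_apply]
    simp only [Matrix.transpose_apply]
    rw [Finset.sum_congr rfl fun i _ => by rw [← h2 i, ← h3 i], h1, Matrix.one_apply]
    rw [Finset.sum_congr rfl fun i _ => by rw [hx1 i, hx2 i]]
    by_cases hjk : j = k
    · subst hjk
      simp
    · rw [if_neg hjk]
      refine Finset.sum_eq_zero fun i _ => ?_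
      by_cases hij : i = j
      · rw [if_pos hij, if_neg (fun hik => hjk (hij.symm.trans hik)), mul_zero]
      · rw [if_neg hij, zero_mul]
  obtain ⟨n, hn⟩ := hgen ψ hψ
  have hAψ : A ψ = A φ ^ n := by rw [hn, hAp φ hφ]
  have hBψ : B ψ = B φ ^ n := by rw [hn, hBp φ hφ]
  have hne : A φ ^ n ≠ 1 := by
    rw [← hAψ]
    intro h
    obtain ⟨i, hi⟩ := hmov
    apply hi
    rw [map_add, hA ψ hψ x₀ hx₀ i, h]
    have h5 : ∑ j, (1 : Matrix (Fin 2) (Fin 2) (ZMod 2)) i j * r j x₀ = r i x₀ := by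
      simp [Matrix.one_apply]
    rw [h5]
    exact CharTwo.add_self_eq_zero _
  have hsq : A φ ^ n * A φ ^ n = 1 := by
    rw [← hAψ, ← hAm ψ hψ ψ hψ, hψ2, hA1]
  obtain ⟨h2, hodd, hcase⟩ := E2_mat (A φ) (B φ) (hAB φ hφ) n hne hsq
  have hB2 : B φ ^ 2 = 1 := by
    have h3 := hAB (φ ^ 2) (Dg.pow_mem hφ 2)
    rw [hAp φ hφ, hBp φ hφ, h2, Matrix.transpose_one, one_mul] at h3
    exact h3
  have hAψ' : A ψ = A φ := by
    rw [hAψ, ← Nat.div_add_mod n 2, pow_add, pow_mul, h2, one_pow, one_mul, hodd, pow_one]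
  have hBψ' : B ψ = B φ := by
    rw [hBψ, ← Nat.div_add_mod n 2, pow_add, pow_mul, hB2, one_pow, one_mul, hodd, pow_one]
  -- the group
  have hDz : Dg = Subgroup.zpowers φ := by
    apply le_antisymm
    · intro g hg
      obtain ⟨m, hm⟩ := hgen g hg
      rw [hm]
      exact Subgroup.pow_mem _ (Subgroup.mem_zpowers φ) m
    · rw [Subgroup.zpowers_le]
      exact hφ
  have hfin : IsOfFinOrder φ := by
    have h3 : IsOfFinOrder (⟨φ, hφ⟩ : Dg) := isOfFinOrder_of_finite _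
    exact (Submonoid.isOfFinOrder_coe (x := (⟨φ, hφ⟩ : Dg))).2 h3
  have hcard : Nat.card Dg = orderOf φ := by rw [hDz, Nat.card_zpowers]
  have hψ1 : ψ ≠ 1 := by
    intro h
    apply hne
    rw [← hAψ, h, hA1]
  have hdvd : orderOf φ ∣ 2 * n := by
    apply orderOf_dvd_of_pow_eq_one
    rw [two_mul, pow_add, ← hn, hψ2]
  have hndvd : ¬ orderOf φ ∣ n := by
    intro h
    apply hψ1
    rw [hn]
    exact orderOf_dvd_iff_pow_eq_one.1 h
  have h2dvd : 2 ∣ orderOf φ := by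
    by_contra hcon
    have hcop : Nat.Coprime (orderOf φ) 2 := by
      rw [Nat.coprime_comm]
      exact (Nat.Prime.coprime_iff_not_dvd Nat.prime_two).2 hcon
    exact hndvd (hcop.dvd_of_dvd_mul_left hdvd)
  obtain ⟨M, hM⟩ := h2dvd
  have hMdvd : M ∣ n := by
    rw [hM] at hdvd
    exact Nat.dvd_of_mul_dvd_mul_left (by norm_num) hdvd
  have hModd : Odd M := by
    have h3 : Odd n := Nat.odd_iff.2 hodd
    exact Odd.of_dvd_nat h3 hMdvd
  have hMpos : 0 < orderOf φ := hfin.orderOf_pos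
  have hC : Nat.card (Subgroup.zpowers (φ ^ 2)) = M := by
    rw [Nat.card_zpowers, orderOf_pow' φ (by norm_num : (2 : ℕ) ≠ 0), hM]
    have h3 : Nat.gcd (2 * M) 2 = 2 := Nat.gcd_eq_right (Dvd.intro _ rfl)
    rw [h3]
    omega
  have hCle : Subgroup.zpowers (φ ^ 2) ≤ Dg := by
    rw [Subgroup.zpowers_le]
    exact Dg.pow_mem hφ 2
  have hCpow : ∀ c ∈ Subgroup.zpowers (φ ^ 2), ∃ k : ℕ, c = (φ ^ 2) ^ k := by
    intro c hc
    have h3 : IsOfFinOrder (φ ^ 2) := hfin.pow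
    rw [← h3.mem_powers_iff_mem_zpowers] at hc
    obtain ⟨k, hk⟩ := hc
    exact ⟨k, hk.symm⟩
  have hAC : ∀ c ∈ Subgroup.zpowers (φ ^ 2), A c = 1 ∧ B c = 1 := by
    intro c hc
    obtain ⟨k, rfl⟩ := hCpow c hc
    rw [hAp _ (Dg.pow_mem hφ 2), hBp _ (Dg.pow_mem hφ 2), hAp φ hφ, hBp φ hφ, h2, hB2, one_pow]
    exact ⟨rfl, rfl⟩
  have hrC : ∀ c ∈ Subgroup.zpowers (φ ^ 2), ∀ x ∈ H, ∀ i, r i (act c x) = r i x := by
    intro c hc x hx i
    rw [hA c (hCle hc) x hx i, (hAC c hc).1]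
    simp [Matrix.one_apply]
  have huC : ∀ c ∈ Subgroup.zpowers (φ ^ 2), ∀ x ∈ H, ∀ i, u i (act c x) = u i x := by
    intro c hc x hx i
    rw [hB c (hCle hc) x hx i, (hAC c hc).2]
    simp [Matrix.one_apply]
  have hrψ : ∀ x ∈ H, ∀ i, r i (act ψ x) = A φ i 0 * r 0 x + A φ i 1 * r 1 x := by
    intro x hx i
    rw [hA ψ hψ x hx i, hAψ', Fin.sum_univ_two]
  have huψ : ∀ x ∈ H, ∀ i, u i (act ψ x) = B φ i 0 * u 0 x + B φ i 1 * u 1 x := by
    intro x hx i
    rw [hB ψ hψ x hx i, hBψ', Fin.sum_univ_two]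
  rcases hcase with ⟨p1, p2, p3, p4, q1, q2, q3, q4⟩ | ⟨p1, p2, p3, p4, q1, q2, q3, q4⟩ |
    ⟨p1, p2, p3, p4, q1, q2, q3, q4⟩
  · refine ⟨Subgroup.zpowers (φ ^ 2), r 0, u 0, hCle, by rw [hC]; exact hModd,
      by rw [hC, hcard, hM], fun c hc x hx => ⟨hrC c hc x hx 0, huC c hc x hx 0⟩, ?_, ?_, ?_⟩
    · intro x hx
      rw [hrψ x hx 0, p1, p2, Fin.forall_fin_two]
      simp
    · intro x hx
      rw [huψ x hx 0, q1, q2, Fin.forall_fin_two]
      simp
    · intro x hx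
      rw [hrψ x hx 0, huψ x hx 0, p1, p2, q1, q2, Fin.sum_univ_two]
      ring
  · refine ⟨Subgroup.zpowers (φ ^ 2), r 0, u 0 + u 1, hCle, by rw [hC]; exact hModd,
      by rw [hC, hcard, hM], fun c hc x hx => ⟨hrC c hc x hx 0, ?_⟩, ?_, ?_, ?_⟩
    · rw [AddMonoidHom.add_apply, AddMonoidHom.add_apply, huC c hc x hx 0, huC c hc x hx 1]
    · intro x hx
      rw [hrψ x hx 0, p1, p2, Fin.forall_fin_two]
      generalize r 0 x = a
      generalize r 1 x = b
      revert a b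
      decide
    · intro x hx
      rw [AddMonoidHom.add_apply, AddMonoidHom.add_apply, huψ x hx 0, huψ x hx 1, q1, q2, q3, q4,
        Fin.forall_fin_two]
      generalize u 0 x = a
      generalize u 1 x = b
      revert a b
      decide
    · intro x hx
      rw [AddMonoidHom.add_apply, AddMonoidHom.add_apply, hrψ x hx 0, huψ x hx 0, huψ x hx 1,
        p1, p2, q1, q2, q3, q4, Fin.sum_univ_two]
      generalize r 0 x = a
      generalize r 1 x = b
      generalize u 0 x = c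
      generalize u 1 x = d
      revert a b c d
      decide
  · refine ⟨Subgroup.zpowers (φ ^ 2), r 1, u 0 + u 1, hCle, by rw [hC]; exact hModd,
      by rw [hC, hcard, hM], fun c hc x hx => ⟨hrC c hc x hx 1, ?_⟩, ?_, ?_, ?_⟩
    · rw [AddMonoidHom.add_apply, AddMonoidHom.add_apply, huC c hc x hx 0, huC c hc x hx 1]
    · intro x hx
      rw [hrψ x hx 1, p3, p4, Fin.forall_fin_two]
      generalize r 0 x = a
      generalize r 1 x = b
      revert a b
      decide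
    · intro x hx
      rw [AddMonoidHom.add_apply, AddMonoidHom.add_apply, huψ x hx 0, huψ x hx 1, q1, q2, q3, q4,
        Fin.forall_fin_two]
      generalize u 0 x = a
      generalize u 1 x = b
      revert a b
      decide
    · intro x hx
      rw [AddMonoidHom.add_apply, AddMonoidHom.add_apply, hrψ x hx 1, huψ x hx 0, huψ x hx 1,
        p3, p4, q1, q2, q3, q4, Fin.sum_univ_two]
      generalize r 0 x = a
      generalize r 1 x = b
      generalize u 0 x = c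
      generalize u 1 x = d
      revert a b c d
      decide

end H88GT
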