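import Pool.Agent.H88.GT.F0
import Pool.Agent.H88.GT.E2

/-!
ROW F3 (MP_78d38b_GT). The local package at a place with three places above it and an involution `ψ` in the decomposition group.

PROOF. E2 with `act g c = S.ρ g • c`, `H = HH N LN`, `Dg = St K V`; hr, hu, hQ by F0; hmov: `¬ S.Lv D0 V (x + S.ρ ψ • x)` and LocD.hr.  It gives `C, r', u'`; take `fun _ : Fin 1 => r'`, `fun _ => u'`.  `St K V = C ∪ C ψ` (index two, `ψ ∉ C` since `C` has odd order), a disjoint union; for `x ∈ HH` and `d = c * ψ`, `c ∈ C`: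
`r' (ρ d • x) = r' (ρ ψ • x)`, for `d = c`: `r' x`; the same for `u'`.  hr: `∀ d ∈ St, r' (ρ d • c) = 0` iff `r' c = 0 ∧ r' (ρ ψ • c) = 0` iff all `r i c = 0` iff `S.Lv D0 V c` (LocD.hr, H30GX.Lv_iff).  hq: the sum over `St` is `|C| (r' x u' x + r' (ψ x) u' (ψ x)) = ∑ r i x * u i x` (`|C|` odd), LocD.hq.
eqv, inv: `r'`, `u'` are invariant under `C` on `HH`.  card: `(3 - 1) * |C| = 1 * |St|`.  fix: let `ψ'` be an involution of `St`; it is not in `C`, and `St` is cyclic with `ψ` its only involution: `ψ' = ψ` (or: `ψ' = c ψ` with `c ∈ C`; `St` is commutative, so `1 = ψ' ^ 2 = c ^ 2`, `c = 1`).  With `z = x + ρ ψ • x` (`ρ ψ • z = z`):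
the sum is `∑ c ∈ C, (r' x * u' z + r' (ψ x) * u' z) = r' z * u' z`; `S.Lv D0 V z` iff `r' z = 0`, `S.Lv D V z` iff `u' z = 0`, and for `s, t : ZMod 2`: `s * t = if s = 0 ∨ t = 0 then 0 else 1`.
-/

set_option autoImplicit false
set_option linter.unusedSectionVars false
open scoped Classical

open WithZero NumberField IsDedekindDomain H38RT
open H38T1 (SC sc scu rep eo la si OddP)
open H36MX (hsv)
open H76MQ (al be)
open H76PP (Cub LC ev scm dn Te_nf)
open H36CY (DescAt)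
open H30ZO (nb HH Wc)
open H30OR (LocD)
open H88GX (Ext)

namespace H88GT

variable {K N LN : Type} [Field K] [NumberField K] [Field N] [NumberField N] [Field LN]
  [NumberField LN] [Algebra K N] [Algebra N LN] {a b : K} {θ : LN} {S : Ext K N LN a b θ}
  {Sg : Finset (HeightOneSpectrum (𝓞 K))} {D0 D : K}

theorem LP_two {V : HeightOneSpectrum (𝓞 N)} {r u : Fin 2 → (SC LN →+ ZMod 2)}
    (hl : LocD S.cub V (algebraMap K N D0) (algebraMap K N D) r u) (hnb : nb N LN V = 3)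
    (js : ∀ z z' : Fin 2 → ZMod 2, ∃ c ∈ HH N LN, (∀ i, r i c = z i) ∧ ∀ i, u i c = z' i)
    (hcyc : ∃ φ ∈ St K V, ∀ g ∈ St K V, ∃ n : ℕ, g = φ ^ n) {ψ : N ≃ₐ[K] N} (hψ : ψ ∈ St K V)
    (hψ2 : ψ * ψ = 1) (hψ1 : ψ ≠ 1) (hmov : ∃ x ∈ HH N LN, ¬ S.Lv D0 V (x + S.ρ ψ • x)) :
    ∃ (C : Subgroup (N ≃ₐ[K] N)) (r' u' : Fin 1 → (SC LN →+ ZMod 2)), LP S V D0 D C r' u' := by
  classical
  have hN : FiniteDimensional K N := Module.Finite.of_restrictScalars_finite ℚ K N
  have hfin : Finite (N ≃ₐ[K] N) := inferInstance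
  have hrl : ∀ c ∈ HH N LN, (S.Lv D0 V c ↔ ∀ i, r i c = 0) := by
    intro c hc
    rw [H30GX.Lv_iff]
    exact hl.hr c hc
  have hul : ∀ c ∈ HH N LN, (S.Lv D V c ↔ ∀ i, u i c = 0) := by
    intro c hc
    rw [H30GX.Lv_iff]
    exact hl.hu c hc
  obtain ⟨x₀, hx₀, hx₀m⟩ := hmov
  have hmem : ∀ g : N ≃ₐ[K] N, ∀ x ∈ HH N LN, S.ρ g • x ∈ HH N LN :=
    fun g x hx => H88GX.HH_smul S g hx
  have hm0 : ∃ i, r i (x₀ + S.ρ ψ • x₀) ≠ 0 := by
    by_contra hcon
    push Not at hcon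
    exact hx₀m ((hrl _ ((HH N LN).add_mem hx₀ (hmem ψ _ hx₀))).2 hcon)
  obtain ⟨C, r', u', hle, hodd, hcard, hinv, hr0, hu0, hq0⟩ :=
    la2 (act := fun (g : N ≃ₐ[K] N) (x : SC LN) => S.ρ g • x) (H := HH N LN) (Dg := St K V)
      (fun x => by simp only [map_one, one_smul])
      (fun g h x => by simp only [map_mul, mul_smul])
      (fun g x y => by simp only [smul_add]) hmem hcyc js
      (fun d hd x hx h => (loc_inv hl hd hx).2.1 h)
      (fun d hd x hx h => (loc_inv hl hd hx).2.2 h)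
      (fun d hd x hx => (loc_inv hl hd hx).1) hψ hψ2 hx₀ hm0
  -- involutions are not in C
  have hinvo : ∀ g ∈ C, g * g = 1 → g = 1 := by
    intro g hg hg2
    have h1 : orderOf g ∣ Nat.card C := Subgroup.orderOf_dvd_natCard C hg
    have h2 : orderOf g ∣ 2 := orderOf_dvd_of_pow_eq_one (by rw [pow_two, hg2])
    have h3 : orderOf g = 1 := by
      rcases (Nat.dvd_prime Nat.prime_two).1 h2 with h | h
      · exact h
      · rw [h] at h1
        exact absurd h1 (fun hh => by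
          rw [Nat.odd_iff] at hodd
          omega)
    exact orderOf_eq_one_iff.1 h3
  -- index two
  have hcardC : Nat.card (C.subgroupOf (St K V)) = Nat.card C :=
    Nat.card_congr (Subgroup.subgroupOfEquivOfLe hle).toEquiv
  have hidx : (C.subgroupOf (St K V)).index = 2 := by
    have h1 := (C.subgroupOf (St K V)).card_mul_index
    rw [hcardC, hcard, mul_comm 2] at h1
    exact Nat.eq_of_mul_eq_mul_left Nat.card_pos h1
  have hi2 : ∀ g ∈ St K V, ∀ h ∈ St K V, (g * h ∈ C ↔ (g ∈ C ↔ h ∈ C)) := by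
    intro g hg h hh
    have h1 := Subgroup.mul_mem_iff_of_index_two hidx (a := ⟨g, hg⟩) (b := ⟨h, hh⟩)
    simpa [Subgroup.mem_subgroupOf] using h1
  have hψC : ψ ∉ C := fun h => hψ1 (hinvo ψ h hψ2)
  have hdC : ∀ d ∈ St K V, d ∉ C → d * ψ ∈ C := by
    intro d hd hdc
    exact (hi2 d hd ψ hψ).2 ⟨fun h => absurd h hdc, fun h => absurd h hψC⟩
  have hdec : ∀ d ∈ St K V, d ∉ C → ∃ c ∈ C, d = c * ψ := by
    intro d hd hdc
    refine ⟨d * ψ, hdC d hd hdc, ?_⟩
    rw [mul_assoc, hψ2, mul_one]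
  have hout : ∀ d ∈ St K V, d ∉ C → ∀ x ∈ HH N LN,
      r' (S.ρ d • x) = r' (S.ρ ψ • x) ∧ u' (S.ρ d • x) = u' (S.ρ ψ • x) := by
    intro d hd hdc x hx
    obtain ⟨c, hc, rfl⟩ := hdec d hd hdc
    rw [map_mul, mul_smul]
    exact hinv c hc _ (hmem ψ x hx)
  have hcomm : ∀ g ∈ St K V, ∀ h ∈ St K V, g * h = h * g := by
    obtain ⟨φ, hφ, hgen⟩ := hcyc
    intro g hg h hh
    obtain ⟨n, rfl⟩ := hgen g hg
    obtain ⟨m, rfl⟩ := hgen h hh
    rw [← pow_add, ← pow_add, add_comm]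
  have huniq : ∀ g ∈ St K V, g * g = 1 → g ≠ 1 → g = ψ := by
    intro g hg hg2 hg1
    have hgC : g ∉ C := fun h => hg1 (hinvo g h hg2)
    have h1 := hdC g hg hgC
    have h2 : g * ψ = 1 := by
      refine hinvo _ h1 ?_
      calc g * ψ * (g * ψ) = g * (ψ * g) * ψ := by group
        _ = g * (g * ψ) * ψ := by rw [hcomm ψ hψ g hg]
        _ = (g * g) * (ψ * ψ) := by group
        _ = 1 := by rw [hg2, hψ2, one_mul]
    calc g = g * (ψ * ψ) := by rw [hψ2, mul_one]
      _ = (g * ψ) * ψ := by group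
      _ = ψ := by rw [h2, one_mul]
  have hsum : ∀ [Fintype (St K V)], ∀ (f : (N ≃ₐ[K] N) → ZMod 2) (α β : ZMod 2),
      (∀ d ∈ C, f d = α) → (∀ d ∈ St K V, d ∉ C → f d = β) →
      ∑ d : St K V, f (d : N ≃ₐ[K] N) = α + β := by
    intro _ f α β hα hβ
    have hcC : (Finset.univ.filter fun d : St K V => (d : N ≃ₐ[K] N) ∈ C).card = Nat.card C := by
      rw [← hcardC, ← Fintype.card_subtype, ← Nat.card_eq_fintype_card]
      rfl
    have hcC' : (Finset.univ.filter fun d : St K V => ¬ (d : N ≃ₐ[K] N) ∈ C).card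
        = Nat.card C := by
      have h1 := Finset.card_filter_add_card_filter_not
        (s := (Finset.univ : Finset (St K V))) (fun d : St K V => (d : N ≃ₐ[K] N) ∈ C)
      rw [hcC, Finset.card_univ, ← Nat.card_eq_fintype_card, hcard] at h1
      omega
    have hC1 : ((Nat.card C : ℕ) : ZMod 2) = 1 := by
      rw [ZMod.natCast_eq_one_iff_odd]
      exact hodd
    rw [← Finset.sum_filter_add_sum_filter_not Finset.univ
      (fun d : St K V => (d : N ≃ₐ[K] N) ∈ C)]
    congr 1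
    · rw [Finset.sum_congr rfl (g := fun _ => α)
        (fun d hd => hα _ (Finset.mem_filter.1 hd).2), Finset.sum_const, hcC, nsmul_eq_mul, hC1,
        one_mul]
    · rw [Finset.sum_congr rfl (g := fun _ => β)
        (fun d hd => hβ _ d.2 (Finset.mem_filter.1 hd).2), Finset.sum_const, hcC', nsmul_eq_mul,
        hC1, one_mul]
  have hzd : ∀ x : SC LN, S.ρ ψ • (x + S.ρ ψ • x) = x + S.ρ ψ • x := by
    intro x
    rw [smul_add, ← mul_smul, ← map_mul, hψ2, map_one, one_smul, add_comm]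
  refine ⟨C, fun _ => r', fun _ => u', ?_⟩
  refine
    { le := hle
      odd := hodd
      card := ?_
      hr := ?_
      hu := ?_
      hq := ?_
      eqv := ?_
      inv := ?_
      fix := ?_ }
  · rw [hnb, hcard, one_mul]
  · intro c hc
    rw [hrl c hc, hr0 c hc]
    constructor
    · rintro ⟨h1, h2⟩ d hd _
      by_cases hdc : d ∈ C
      · rw [(hinv d hdc c hc).1, h1]
      · rw [(hout d hd hdc c hc).1, h2]
    · intro h
      refine ⟨?_, h ψ hψ 0⟩
      have h1 := h 1 (St K V).one_mem 0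
      rwa [map_one, one_smul] at h1
  · intro c hc
    rw [hul c hc, hu0 c hc]
    constructor
    · rintro ⟨h1, h2⟩ d hd _
      by_cases hdc : d ∈ C
      · rw [(hinv d hdc c hc).2, h1]
      · rw [(hout d hd hdc c hc).2, h2]
    · intro h
      refine ⟨?_, h ψ hψ 0⟩
      have h1 := h 1 (St K V).one_mem 0
      rwa [map_one, one_smul] at h1
  · intro _ c hc y hy hyc ha hb
    rw [hl.hq c hc y hy hyc ha hb, hq0 c hc]
    simp only [Finset.univ_unique, Finset.sum_singleton]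
    refine (hsum (fun d => r' (S.ρ d • c) * u' (S.ρ d • c)) _ _ ?_ ?_).symm
    · intro d hd
      show r' (S.ρ d • c) * u' (S.ρ d • c) = r' c * u' c
      rw [(hinv d hd c hc).1, (hinv d hd c hc).2]
    · intro d hd hdc
      show r' (S.ρ d • c) * u' (S.ρ d • c) = r' (S.ρ ψ • c) * u' (S.ρ ψ • c)
      rw [(hout d hd hdc c hc).1, (hout d hd hdc c hc).2]
  · intro c hc _
    refine ⟨fun _ => 1, fun x hx => ?_⟩
    simp only [Finset.univ_unique, Finset.sum_singleton, one_mul]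
    exact (hinv c hc x hx).2
  · intro c hc x hx y hy
    simp only [Finset.univ_unique, Finset.sum_singleton]
    rw [(hinv c hc x hx).1, (hinv c hc y hy).2]
  · intro _ ψ' hψ' hψ'2 hψ'1 x hx
    obtain rfl := huniq ψ' hψ' hψ'2 hψ'1
    have hz : x + S.ρ ψ' • x ∈ HH N LN := (HH N LN).add_mem hx (hmem ψ' x hx)
    have e1 : S.Lv D0 V (x + S.ρ ψ' • x) ↔ r' (x + S.ρ ψ' • x) = 0 := by
      rw [hrl _ hz, hr0 _ hz]
      constructor
      · exact fun h => h.1
      · intro h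
        refine ⟨h, ?_⟩
        show r' (S.ρ ψ' • (x + S.ρ ψ' • x)) = 0
        rw [hzd x, h]
    have e2 : S.Lv D V (x + S.ρ ψ' • x) ↔ u' (x + S.ρ ψ' • x) = 0 := by
      rw [hul _ hz, hu0 _ hz]
      constructor
      · exact fun h => h.1
      · intro h
        refine ⟨h, ?_⟩
        show u' (S.ρ ψ' • (x + S.ρ ψ' • x)) = 0
        rw [hzd x, h]
    simp only [Finset.univ_unique, Finset.sum_singleton]
    rw [hsum (fun d => r' (S.ρ d • x) * u' (S.ρ d • (x + S.ρ ψ' • x)))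
      (r' x * u' (x + S.ρ ψ' • x)) (r' (S.ρ ψ' • x) * u' (x + S.ρ ψ' • x))]
    · rw [← add_mul, ← map_add]
      simp only [e1, e2]
      generalize r' (x + S.ρ ψ' • x) = s
      generalize u' (x + S.ρ ψ' • x) = t
      revert s t
      decide
    · intro d hd
      show r' (S.ρ d • x) * u' (S.ρ d • (x + S.ρ ψ' • x)) = r' x * u' (x + S.ρ ψ' • x)
      rw [(hinv d hd x hx).1, (hinv d hd _ hz).2]
    · intro d hd hdc
      show r' (S.ρ d • x) * u' (S.ρ d • (x + S.ρ ψ' • x)) =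
        r' (S.ρ ψ' • x) * u' (x + S.ρ ψ' • x)
      rw [(hout d hd hdc x hx).1, (hout d hd hdc _ hz).2, hzd x]

end H88GT
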