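import Pool.Agent.H88.GT.Dq
import Pool.Agent.H88.GX.Gc
import Pool.Agent.H42.GN.Ig

/-!
ROW F5 (MP_78d38b_GT). If there is one place above `V` then the Legendre class of the discriminant at `dn K V` is zero.

PROOF. `LK` = the cubic field over `K` below `LN` (H73P2.exists_sub with `k := K`, `k' := N`; give `LN` the `K`-algebra structure through `N`, see Pool/Agent/H42/GN/Id.lean).  Claim: `nb K LK (dn K V) ≤ nb N LN V`: for a place `p` of `LK` above `dn K V` take a place `w` of `LN` above `p` (H76PP.exists_above); `dn N w` lies above `dn K V`,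
so `V = gq g • dn N w` for some `g` (H88GX.Gc_trans), and `S.ρ g • w` lies above `V` (H88GX.dn_smul) and above `p` (`S.ρ g` fixes the elements of `LK`: polynomials in `θK` over `K`; S.ρθ, S.ρF, g.commutes); `p ↦ S.ρ g • w` is injective.  So `nb K LK (dn K V) = 1` (H30OR.nb_ge1), and `H42GN.locD_of` over `K` (`D := 1` and `E` a uniformizer at
`dn K V`: HeightOneSpectrum.valuation_exists_uniformizer) gives `nb = m + 1`, `(m : ZMod 2) = la (dn K V) _`, `m = 0`.
-/

set_option autoImplicit false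
set_option linter.unusedSectionVars false
open scoped Classical

open WithZero NumberField IsDedekindDomain H38RT
open H38T1 (SC sc scu rep eo la si OddP)
open H36MX (hsv)
open H76MQ (al be)
open H76PP (Cub LC ev scm dn Te_nf)
open H36CY (DescAt)
open H30ZO (nb HH Wc)
open H30OR (LocD)
open H88GX (Ext)

namespace H88GT

variable {K N LN : Type} [Field K] [NumberField K] [Field N] [NumberField N] [Field LN]
  [NumberField LN] [Algebra K N] [Algebra N LN] {a b : K} {θ : LN} {S : Ext K N LN a b θ}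
  {Sg : Finset (HeightOneSpectrum (𝓞 K))} {D0 D : K}

/-- `S.ρ g` fixes the elements of the cubic field over `K`. -/
private theorem F5_fix {LK : Type} [Field LK] [NumberField LK] [Algebra K LK] [Algebra LK LN]
    {θK : LK} (hK : Cub K LK a b θK)
    (hml : ∀ x : K, algebraMap LK LN (algebraMap K LK x) = algebraMap N LN (algebraMap K N x))
    (hth : algebraMap LK LN θK = θ) (S : Ext K N LN a b θ) (g : N ≃ₐ[K] N) (x : LK) :
    S.ρ g (algebraMap LK LN x) = algebraMap LK LN x := by
  obtain ⟨c₀, c₁, c₂, hx⟩ := hK.sp x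
  have h1 : algebraMap LK LN x = algebraMap N LN (algebraMap K N c₀) +
      algebraMap N LN (algebraMap K N c₁) * θ + algebraMap N LN (algebraMap K N c₂) * θ ^ 2 := by
    rw [hx, map_add, map_add, map_mul, map_mul, map_pow, hml, hml, hml, hth]
  rw [h1, map_add, map_add, map_mul, map_mul, map_pow, S.ρθ, S.ρF, S.ρF, S.ρF, g.commutes,
    g.commutes, g.commutes]

/-- The place below does not change. -/
private theorem F5_dn {LK : Type} [Field LK] [NumberField LK] [Algebra K LK] [Algebra LK LN]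
    {θK : LK} (hK : Cub K LK a b θK)
    (hml : ∀ x : K, algebraMap LK LN (algebraMap K LK x) = algebraMap N LN (algebraMap K N x))
    (hth : algebraMap LK LN θK = θ) (S : Ext K N LN a b θ) (g : N ≃ₐ[K] N)
    (w : HeightOneSpectrum (𝓞 LN)) : dn LK (S.ρ g • w) = dn LK w := by
  apply HeightOneSpectrum.ext
  ext x
  change H38T1.gO (S.ρ g)⁻¹ (algebraMap (𝓞 LK) (𝓞 LN) x) ∈ w.asIdeal ↔
    algebraMap (𝓞 LK) (𝓞 LN) x ∈ w.asIdeal
  have h : H38T1.gO (S.ρ g)⁻¹ (algebraMap (𝓞 LK) (𝓞 LN) x) = algebraMap (𝓞 LK) (𝓞 LN) x := by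
    apply RingOfIntegers.ext
    rw [H38T1.gO_coe, ← map_inv]
    exact F5_fix hK hml hth S g⁻¹ (x : LK)
  rw [h]

/-- The place of `K` below a place of `LN`. -/
private theorem F5_tow {LK : Type} [Field LK] [NumberField LK] [Algebra K LK] [Algebra LK LN]
    (hml : ∀ x : K, algebraMap LK LN (algebraMap K LK x) = algebraMap N LN (algebraMap K N x))
    (w : HeightOneSpectrum (𝓞 LN)) : dn K (dn LK w) = dn K (dn N w) := by
  apply HeightOneSpectrum.ext
  ext x
  change algebraMap (𝓞 LK) (𝓞 LN) (algebraMap (𝓞 K) (𝓞 LK) x) ∈ w.asIdeal ↔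
    algebraMap (𝓞 N) (𝓞 LN) (algebraMap (𝓞 K) (𝓞 N) x) ∈ w.asIdeal
  have h : algebraMap (𝓞 LK) (𝓞 LN) (algebraMap (𝓞 K) (𝓞 LK) x) =
      algebraMap (𝓞 N) (𝓞 LN) (algebraMap (𝓞 K) (𝓞 N) x) := by
    apply RingOfIntegers.ext
    exact hml (x : K)
  rw [h]

/-- The number of places. -/
private theorem F5_nb {LK : Type} [Field LK] [NumberField LK] [Algebra K LK] [Algebra LK LN]
    {θK : LK} (hK : Cub K LK a b θK)
    (hml : ∀ x : K, algebraMap LK LN (algebraMap K LK x) = algebraMap N LN (algebraMap K N x))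
    (hth : algebraMap LK LN θK = θ) (S : Ext K N LN a b θ) (V : HeightOneSpectrum (𝓞 N)) :
    nb K LK (dn K V) ≤ nb N LN V := by
  have _ : IsGalois K N := S.gal
  unfold H30ZO.nb
  have key : ∀ p : HeightOneSpectrum (𝓞 LK), dn K p = dn K V →
      ∃ W : HeightOneSpectrum (𝓞 LN), dn N W = V ∧ dn LK W = p := by
    intro p hp
    obtain ⟨w, hw⟩ := H76PP.exists_above (L := LN) p
    have h1 : dn K V = dn K (dn N w) := by
      rw [← F5_tow hml w, hw, hp]
    obtain ⟨g, hg⟩ := H88GX.Gc_trans h1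
    refine ⟨S.ρ g • w, ?_, ?_⟩
    · rw [H88GX.dn_smul]
      exact hg.symm
    · rw [F5_dn hK hml hth S g w, hw]
  have _ : Nonempty (HeightOneSpectrum (𝓞 LN)) := ⟨(H76PP.exists_above (L := LN) V).choose⟩
  choose! f hf1 hf2 using key
  refine Set.ncard_le_ncard_of_injOn f (fun p hp => hf1 p hp) (fun p hp p' hp' h => ?_)
    (H76PP.fin_above V)
  rw [← hf2 p hp, ← hf2 p' hp', h]

theorem la_zero (hok : S.Ok D0 Sg)
    (h3 : ∀ v : HeightOneSpectrum (𝓞 K), v ∉ Sg → v.valuation K 3 = 1)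
    {V : HeightOneSpectrum (𝓞 N)} (hV : dn K V ∉ Sg) (hnb : nb N LN V = 1) :
    la (dn K V) (sc (-(4 * a ^ 3 + 27 * b ^ 2))) = 0 := by
  let _ : Algebra K LN := ((algebraMap N LN).comp (algebraMap K N)).toAlgebra
  have _ : IsScalarTower K N LN := IsScalarTower.of_algebraMap_eq fun x => rfl
  obtain ⟨LK, _, _, _, _, _, θK, hK, hθK⟩ := H73P2.exists_sub (k := K) S.cub
  have hml : ∀ x : K, algebraMap LK LN (algebraMap K LK x) = algebraMap N LN (algebraMap K N x) :=
    fun x => by rw [← IsScalarTower.algebraMap_apply K LK LN, ← IsScalarTower.algebraMap_apply K N LN]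
  have h1 : nb K LK (dn K V) = 1 := by
    have h2 := F5_nb hK hml hθK S V
    have h4 := H30OR.nb_ge1 K LK (dn K V)
    rw [hnb] at h2
    omega
  obtain ⟨E, hE⟩ := (dn K V).valuation_exists_uniformizer K
  have hE0 : E ≠ 0 := by
    rintro rfl
    rw [map_zero] at hE
    exact WithZero.exp_ne_zero hE.symm
  have hE1 : ord ((dn K V).valuation K) E = 1 := by
    unfold ord
    rw [hE, log_exp, neg_neg]
  obtain ⟨m, r, u, hm, -, hla⟩ := H42GN.locD_of (v := dn K V) hK S.ha S.hb (hok.two _ hV)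
    (h3 _ hV) (hok.dis _ hV) (D := 1) (E := E) one_ne_zero (by rw [H38RT.Od_ord_one]; exact Even.zero) hE0
    (by rw [hE1]; exact odd_one)
  have h5 : m = 0 := by omega
  rw [← hla, h5, Nat.cast_zero]

end H88GT
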