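import Pool.Agent.H88.GT.A1
import Pool.Agent.H88.GT.A2
import Pool.Agent.H88.GT.A4
import Pool.Agent.H88.GT.D8
import Pool.Agent.H88.GT.F1
import Pool.Agent.H88.GT.F2
import Pool.Agent.H88.GT.F3
import Pool.Agent.H88.GT.F5

/-!
ROW F4 (MP_78d38b_GT). The local package (assembly).

PROOF. D3 (locN): `m, r, u` with `nb N LN V = m + 1`, `m ≤ 2` (H30OR.nb_le3).  If `Nat.card (St K V)` is odd: F1; `(m : ZMod 2) = la V Δ = f * la (dn K V) Δ` (A1 for `N / K`; `Δ` is a unit), `f = Nat.card (St K V)` (A2) is odd.  If it is even: an involution `ψ ∈ St K V` (exists_prime_orderOf_dvd_card'), `m ≠ 1` (D5);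
if `m = 0`: F2 and F5; if `m = 2`: D8 (mov), A4, F3; `n = 1` and `la (dn K V) Δ = 1` by mov.
-/

set_option autoImplicit false
set_option linter.unusedSectionVars false
open scoped Classical

open WithZero NumberField IsDedekindDomain H38RT
open H38T1 (SC sc scu rep eo la si OddP)
open H36MX (hsv)
open H76MQ (al be)
open H76PP (Cub LC ev scm dn Te_nf)
open H36CY (DescAt)
open H30ZO (nb HH Wc)
open H30OR (LocD)
open H88GX (Ext)

namespace H88GT

variable {K N LN : Type} [Field K] [NumberField K] [Field N] [NumberField N] [Field LN]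
  [NumberField LN] [Algebra K N] [Algebra N LN] {a b : K} {θ : LN} {S : Ext K N LN a b θ}
  {Sg : Finset (HeightOneSpectrum (𝓞 K))} {D0 D : K}

theorem exists_LP (hok : S.Ok D0 Sg)
    (h3 : ∀ v : HeightOneSpectrum (𝓞 K), v ∉ Sg → v.valuation K 3 = 1)
    (hram : ∀ V : HeightOneSpectrum (𝓞 N), dn K V ∉ Sg → ¬ H73P2.Ram K V) (hD : D ≠ 0)
    {V : HeightOneSpectrum (𝓞 N)} (hV : dn K V ∉ Sg) (hDo : Odd (ord ((dn K V).valuation K) D))
    (hdesc : DescAt K N (dn K V) (D ^ 2 * a) (D ^ 3 * b)) :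
    ∃ (n : ℕ) (C : Subgroup (N ≃ₐ[K] N)) (r u : Fin n → (SC LN →+ ZMod 2)),
      LP S V D0 D C r u ∧ n ≤ 2 ∧
        (n : ZMod 2) = la (dn K V) (sc (-(4 * a ^ 3 + 27 * b ^ 2))) := by
  have _ : IsGalois K N := S.gal
  obtain ⟨m, r, u, hnb, hl, hla, js⟩ := locN hok h3 hram hD hV hDo
  have hm3 := H30OR.nb_le3 S.cub V
  have hm2 : m ≤ 2 := by omega
  by_cases hodd : Odd (Nat.card (St K V))
  · refine ⟨m, St K V, r, u, LP_odd hl hnb js hodd, hm2, ?_⟩
    have ho : OddP V := H42GN.ig_two V (hok.two _ hV)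
    have hx : (dn K V).valuation K (-(4 * a ^ 3 + 27 * b ^ 2)) = 1 := by
      rw [Valuation.map_neg]
      exact hok.dis _ hV
    have h5 := la_res ho hx
    have h6 : algebraMap K N (-(4 * a ^ 3 + 27 * b ^ 2)) =
        -(4 * (algebraMap K N a) ^ 3 + 27 * (algebraMap K N b) ^ 2) := by
      rw [map_neg, map_add, map_mul, map_mul, map_pow, map_pow, map_ofNat, map_ofNat]
    rw [h6, ← hla, inert_st (hram V hV)] at h5
    have h7 : (Nat.card (St K V) : ZMod 2) = 1 := ZMod.natCast_eq_one_iff_odd.2 hodd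
    rw [h5, h7, one_mul]
  · have heven : 2 ∣ Nat.card (St K V) := (Nat.not_odd_iff_even.1 hodd).two_dvd
    have _ : Fact (Nat.Prime 2) := ⟨Nat.prime_two⟩
    obtain ⟨ψ, hψ⟩ := exists_prime_orderOf_dvd_card' 2 heven
    have hψ2 : (ψ : N ≃ₐ[K] N) * ψ = 1 := by
      have h := pow_orderOf_eq_one ψ
      rw [hψ, pow_two] at h
      exact congrArg Subtype.val h
    have hψ1 : (ψ : N ≃ₐ[K] N) ≠ 1 := by
      intro h
      have h' : ψ = 1 := Subtype.ext h
      rw [h', orderOf_one] at hψ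
      omega
    have hne := nb_ne2 hok h3 hram hD hV hDo ψ.2 hψ2 hψ1
    by_cases hn1 : nb N LN V = 1
    · have e : m = 0 := by omega
      subst e
      refine ⟨0, ⊥, r, u, LP_one hl hn1, by omega, ?_⟩
      rw [la_zero hok h3 hV hn1, Nat.cast_zero]
    · have hn3 : nb N LN V = 3 := by omega
      have e : m = 2 := by omega
      subst e
      obtain ⟨hmov, hla1⟩ := mov hok h3 hram hD hV hDo hdesc hn3 ψ.2 hψ2 hψ1
      obtain ⟨C, r', u', hLP⟩ := LP_two hl hn3 js (st_cyc (hram V hV)) ψ.2 hψ2 hψ1 hmov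
      refine ⟨1, C, r', u', hLP, by omega, ?_⟩
      rw [hla1, Nat.cast_one]

end H88GT
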