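import Pool.Agent.H88.GT.G2
import Pool.Agent.H88.GT.D8

/-!
ROW G3 (MP_78d38b_GT). The vanishing at involutions.

PROOF. `g = 1`: G2.  Let `g ≠ 1`, `P = H42GN.inv2 hg`, `M` its fixed field, `z = y + ρ g • y` (fixed by `ρ g`; in `S.Y`, see inv_sum in Pool/Agent/H42/GN/If.lean), `F v k = ∑ i, r v i (ρ k • y) * u v i (ρ k • z)`.  We show `∑ v k, F v k = 0`; with G2 and additivity of `u v i` this is the claim (as at the end of
`H42GN.inv_sum`).  G0 and G1 (`c = z`, hE from `exists_e` as in `fix_sum`): let `w ∈ TM`, `(v, k₀)` as in G0, `V = gq k₀⁻¹ • W v`, and `LM, θM, hM, y'` as in G1 with `sc (algebraMap LM LN y') = z`.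
Case 1: `gq g • V ≠ V`.  Then the map `(d, p) ↦ d * k₀ * p` from `St K (W v) × {1, g}` to the filter is bijective (`d k₀ = d' k₀ g` gives `k₀ g k₀⁻¹ ∈ St K (W v)`, i.e. `gq g • V = V`), and `F v (d k₀) + F v (d k₀ g) = ∑ i, (r v i (ρ (d k₀) • y) + r v i (ρ (d k₀ g) • y)) * u v i (ρ (d k₀) • z)
= ∑ i, r v i (ρ d • (ρ k₀ • z)) * u v i (ρ d • (ρ k₀ • z))`, so `q w = hsv (W v) _ _` at `ρ k₀ • z` (LP.hq) `= hsv V _ _` at `z` `= hsv w (al hM y') (be hM y')` by hsv_down: the automorphisms of `N / M` are `1` and `g`, and `g` does not fix `V`.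
Case 2: `gq g • V = V`.  Then `ψ = k₀ g k₀⁻¹ ∈ St K (W v)` is an involution and the filter is `{d k₀ | d ∈ St K (W v)}` (`d k₀ g = d ψ k₀`).  With `x = ρ k₀ • y`: `ρ k₀ • z = x + ρ ψ • x`, so `q w = ∑ d, ∑ i, r v i (ρ d • x) * u v i (ρ d • (x + ρ ψ • x))`, which is `0` or `1` by LP.fix:
`0` iff `S.Lv D0 (W v) (ρ k₀ • z) ∨ S.Lv D (W v) (ρ k₀ • z)` iff `S.Lv D0 V z ∨ S.Lv D V z` (H88GX.Lv_smul).  This is the value of `gam` (D8) with the structure `QV M S θM g` (fields: M is the fixed field of P; the degree: finrank_fixedField_eq_card), `g ∈ St K V`.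
-/

set_option autoImplicit false
set_option linter.unusedSectionVars false
open scoped Classical

open WithZero NumberField IsDedekindDomain H38RT
open H38T1 (SC sc scu rep eo la si OddP)
open H36MX (hsv)
open H76MQ (al be)
open H76PP (Cub LC ev scm dn Te_nf)
open H36CY (DescAt)
open H30ZO (nb HH Wc)
open H30OR (LocD)
open H88GX (Ext)

namespace H88GT

variable {K N LN : Type} [Field K] [NumberField K] [Field N] [NumberField N] [Field LN]
  [NumberField LN] [Algebra K N] [Algebra N LN] {a b : K} {θ : LN} {S : Ext K N LN a b θ}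
  {Sg : Finset (HeightOneSpectrum (𝓞 K))} {D0 D : K}

private theorem G3_fil1 {G : Type} [Group G] [Fintype G] {H : Subgroup G} [Fintype H] {g k₀ : G}
    (hg : g * g = 1) (hg1 : g ≠ 1) (hn : k₀ * g * k₀⁻¹ ∉ H) (F : G → ZMod 2) :
    ∑ k ∈ Finset.univ.filter (fun k => ∃ d ∈ H, ∃ p ∈ H42GN.inv2 hg, k = d * k₀ * p), F k =
      ∑ d : H, (F (d * k₀) + F (d * k₀ * g)) := by
  let _ : Fintype (H42GN.inv2 hg) := Fintype.ofFinite _
  have h1 : ∀ d : H, F (d * k₀) + F (d * k₀ * g) = ∑ p : H42GN.inv2 hg, F (d * k₀ * p) := by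
    intro d
    rw [H42GN.inv2_sum hg hg1 (fun p => F (d * k₀ * p)), mul_one]
  rw [Finset.sum_congr rfl fun d _ => h1 d,
    ← Fintype.sum_prod_type' (f := fun (d : H) (p : H42GN.inv2 hg) => F (d * k₀ * p))]
  symm
  refine Finset.sum_bij (fun (x : H × H42GN.inv2 hg) _ => (x.1 : G) * k₀ * (x.2 : G)) ?_ ?_ ?_
    fun _ _ => rfl
  · intro x _
    rw [Finset.mem_filter]
    exact ⟨Finset.mem_univ _, x.1, x.1.2, x.2, x.2.2, rfl⟩
  · rintro ⟨d, p⟩ _ ⟨d', p'⟩ _ h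
    have h0 : (d : G) * k₀ * (p : G) = (d' : G) * k₀ * (p' : G) := h
    have h2 : k₀ * ((p : G) * (p' : G)⁻¹) * k₀⁻¹ = (d : G)⁻¹ * d' := by
      calc k₀ * ((p : G) * (p' : G)⁻¹) * k₀⁻¹ =
            (d : G)⁻¹ * ((d : G) * k₀ * (p : G)) * (p' : G)⁻¹ * k₀⁻¹ := by group
        _ = (d : G)⁻¹ * ((d' : G) * k₀ * (p' : G)) * (p' : G)⁻¹ * k₀⁻¹ := by rw [h0]
        _ = (d : G)⁻¹ * d' := by group
    have h3 : (p : G) * (p' : G)⁻¹ ∈ H42GN.inv2 hg := Subgroup.mul_mem _ p.2 (Subgroup.inv_mem _ p'.2)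
    rcases h3 with h3 | h3
    · have h4 : p = p' := Subtype.ext (mul_inv_eq_one.1 h3)
      subst h4
      have h5 : d = d' := Subtype.ext (mul_right_cancel (mul_right_cancel h0))
      rw [h5]
    · refine absurd ?_ hn
      rw [h3] at h2
      rw [h2]
      exact H.mul_mem (H.inv_mem d.2) d'.2
  · intro k hk
    rw [Finset.mem_filter] at hk
    obtain ⟨-, d, hd, p, hp, rfl⟩ := hk
    exact ⟨(⟨d, hd⟩, ⟨p, hp⟩), Finset.mem_univ _, rfl⟩

private theorem G3_fil2 {G : Type} [Group G] [Fintype G] {H : Subgroup G} [Fintype H] {g k₀ : G}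
    (hg : g * g = 1) (hn : k₀ * g * k₀⁻¹ ∈ H) (F : G → ZMod 2) :
    ∑ k ∈ Finset.univ.filter (fun k => ∃ d ∈ H, ∃ p ∈ H42GN.inv2 hg, k = d * k₀ * p), F k =
      ∑ d : H, F (d * k₀) := by
  symm
  refine Finset.sum_bij (fun (x : H) _ => (x : G) * k₀) ?_ ?_ ?_ fun _ _ => rfl
  · intro x _
    rw [Finset.mem_filter]
    exact ⟨Finset.mem_univ _, x, x.2, 1, Subgroup.one_mem _, (mul_one _).symm⟩
  · intro d _ d' _ h
    exact Subtype.ext (mul_right_cancel h)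
  · intro k hk
    rw [Finset.mem_filter] at hk
    obtain ⟨-, d, hd, p, hp, rfl⟩ := hk
    rcases hp with rfl | rfl
    · exact ⟨⟨d, hd⟩, Finset.mem_univ _, (mul_one _).symm⟩
    · refine ⟨⟨d * (k₀ * p * k₀⁻¹), H.mul_mem hd hn⟩, Finset.mem_univ _, ?_⟩
      change d * (k₀ * p * k₀⁻¹) * k₀ = d * k₀ * p
      group

private theorem G3_conj {V : HeightOneSpectrum (𝓞 N)} (k x : N ≃ₐ[K] N) :
    k * x * k⁻¹ ∈ St K V ↔ x ∈ St K (H88OD.gq k⁻¹ • V) := by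
  rw [mem_St, mem_St]
  have e1 : H88OD.gq (k * x * k⁻¹) • V = H88OD.gq k • (H88OD.gq x • (H88OD.gq k⁻¹ • V)) := by
    rw [H42GN.gq_mul, H42GN.gq_mul, mul_smul, mul_smul]
  have e2 : H88OD.gq k⁻¹ = (H88OD.gq k)⁻¹ := rfl
  rw [e1, e2]
  constructor
  · intro h
    rw [eq_inv_smul_iff]
    exact h
  · intro h
    rw [h, smul_inv_smul]

section Aux

variable {M : Type} [Field M] [NumberField M] [Algebra K M] [Algebra M N] [IsScalarTower K M N]
  {LM : Type} [Field LM] [NumberField LM] [Algebra M LM] [Algebra LM LN] {θM : LM}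

private theorem G3_one (hgal : IsGalois M N) (hok : S.Ok D0 Sg) {g : N ≃ₐ[K] N} (hg : g * g = 1)
    (hMP : ∀ h : N ≃ₐ[M] N, h.restrictScalars K ∈ H42GN.inv2 hg)
    {W₀ : HeightOneSpectrum (𝓞 N)} (hW₀ : dn K W₀ ∉ Sg) {n : ℕ} {C : Subgroup (N ≃ₐ[K] N)}
    {r u : Fin n → (SC LN →+ ZMod 2)} (hL : LP S W₀ D0 D C r u) [Fintype (St K W₀)] {y : SC LN}
    (hy : y ∈ HH N LN) {k₀ : N ≃ₐ[K] N} (hn : g ∉ St K (H88OD.gq k₀⁻¹ • W₀))
    (hM : Cub M LM (algebraMap K M a) (algebraMap K M b) θM)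
    (hML : ∀ x : M, algebraMap LM LN (algebraMap M LM x) = algebraMap N LN (algebraMap M N x))
    (hθM : algebraMap LM LN θM = θ) {y' : LM} (hy' : y' ≠ 0)
    (hyc : sc (algebraMap LM LN y') = y + S.ρ g • y) (hal : al hM y' ≠ 0) (hbe : be hM y' ≠ 0) :
    hsv (dn M (H88OD.gq k₀⁻¹ • W₀)) (al hM y') (be hM y') =
      ∑ d : St K W₀, ((∑ i, r i (S.ρ ((d : N ≃ₐ[K] N) * k₀) • y) *
          u i (S.ρ ((d : N ≃ₐ[K] N) * k₀) • (y + S.ρ g • y))) +
        ∑ i, r i (S.ρ ((d : N ≃ₐ[K] N) * k₀ * g) • y) *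
          u i (S.ρ ((d : N ≃ₐ[K] N) * k₀ * g) • (y + S.ρ g • y))) := by
  have hgg : ∀ x : SC LN, S.ρ g • (S.ρ g • x) = x := by
    intro x
    rw [← mul_smul, ← map_mul, hg, map_one, one_smul]
  have hz : algebraMap LM LN y' ≠ 0 := (map_ne_zero _).2 hy'
  have hzH : y + S.ρ g • y ∈ HH N LN := AddSubgroup.add_mem _ hy (H88GX.HH_smul S g hy)
  have hVo : OddP (H88OD.gq k₀⁻¹ • W₀) := by
    have h6 : dn K (H88OD.gq k₀⁻¹ • W₀) ∉ Sg := by
      rw [H88OD.dn_gq]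
      exact hW₀
    have h8 := H76PP.val_one (L := N) (w := H88OD.gq k₀⁻¹ • W₀) (hok.two _ h6)
    rwa [map_ofNat] at h8
  have htriv : ∀ h : N ≃ₐ[M] N, H88OD.gq h • (H88OD.gq k₀⁻¹ • W₀) = H88OD.gq k₀⁻¹ • W₀ → h = 1 := by
    intro h hh
    rcases hMP h with h1 | h1
    · apply AlgEquiv.ext
      intro x
      exact congrArg (fun t : N ≃ₐ[K] N => t x) h1
    · refine absurd ?_ hn
      rw [mem_St, ← h1]
      exact hh
  have h3 := H42GN.hsv_down hgal hVo htriv hal hbe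
  rw [← h3]
  have ha1 : al S.cub (algebraMap LM LN y') = algebraMap _ N (al hM y') :=
    H42GN.al_up hM S.cub hML hθM y'
  have hb1 : be S.cub (algebraMap LM LN y') = algebraMap _ N (be hM y') :=
    H42GN.be_up hM S.cub hML hθM (IsScalarTower.algebraMap_apply K M N a) y'
  rw [← ha1, ← hb1, H42GN.hsv_act, inv_inv]
  have hg0 : ∀ x : N, x ≠ 0 → k₀ x ≠ 0 := fun x hx => (map_ne_zero _).2 hx
  rw [hL.hq (S.ρ k₀ • (y + S.ρ g • y)) (H88GX.HH_smul S k₀ hzH) (S.ρ k₀ (algebraMap LM LN y'))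
    (H38T1.Eb_ne _ hz) (by rw [← H38T1.smul_sc _ hz, hyc])
    (by
      rw [H42GN.al_act, ha1]
      exact hg0 _ ((map_ne_zero _).2 hal))
    (by
      rw [H42GN.be_act, hb1]
      exact hg0 _ ((map_ne_zero _).2 hbe))]
  refine Finset.sum_congr rfl fun d _ => ?_
  rw [← Finset.sum_add_distrib]
  refine Finset.sum_congr rfl fun i _ => ?_
  have e1 : S.ρ ((d : N ≃ₐ[K] N) * k₀ * g) • y = S.ρ ((d : N ≃ₐ[K] N) * k₀) • (S.ρ g • y) := by
    rw [map_mul, mul_smul]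
  have e2 : S.ρ ((d : N ≃ₐ[K] N) * k₀ * g) • (y + S.ρ g • y) =
      S.ρ ((d : N ≃ₐ[K] N) * k₀) • (y + S.ρ g • y) := by
    rw [map_mul, mul_smul, smul_add, hgg, add_comm]
  have e3 : S.ρ (d : N ≃ₐ[K] N) • (S.ρ k₀ • (y + S.ρ g • y)) =
      S.ρ ((d : N ≃ₐ[K] N) * k₀) • (y + S.ρ g • y) := by
    rw [map_mul, mul_smul]
  rw [e1, e2, e3, ← add_mul, ← map_add, ← smul_add]

private theorem G3_two (hok : S.Ok D0 Sg)
    (h3 : ∀ v : HeightOneSpectrum (𝓞 K), v ∉ Sg → v.valuation K 3 = 1)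
    (hdesc : ∀ v, DescAt K N v (D0 ^ 2 * a) (D0 ^ 3 * b))
    (hdescD : ∀ v, DescAt K N v (D ^ 2 * a) (D ^ 3 * b))
    (hram : ∀ V : HeightOneSpectrum (𝓞 N), dn K V ∉ Sg → ¬ H73P2.Ram K V) (hD : D ≠ 0)
    {g : N ≃ₐ[K] N} {W₀ : HeightOneSpectrum (𝓞 N)} (hW₀ : dn K W₀ ∉ Sg)
    (hWo : Odd (ord ((dn K W₀).valuation K) D)) {n : ℕ} {C : Subgroup (N ≃ₐ[K] N)}
    {r u : Fin n → (SC LN →+ ZMod 2)} (hL : LP S W₀ D0 D C r u) [Fintype (St K W₀)] {y : SC LN}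
    (hy : y ∈ HH N LN) {k₀ : N ≃ₐ[K] N} (hn : g ∈ St K (H88OD.gq k₀⁻¹ • W₀))
    (q : QV M S θM g) {y' : LM} (hy' : y' ≠ 0) (hN : IsSquare (Algebra.norm M y'))
    (hyc : sc (algebraMap LM LN y') = y + S.ρ g • y) (hal : al q.cub y' ≠ 0)
    (hbe : be q.cub y' ≠ 0) :
    hsv (dn M (H88OD.gq k₀⁻¹ • W₀)) (al q.cub y') (be q.cub y') =
      ∑ d : St K W₀, ∑ i, r i (S.ρ ((d : N ≃ₐ[K] N) * k₀) • y) *
          u i (S.ρ ((d : N ≃ₐ[K] N) * k₀) • (y + S.ρ g • y)) := by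
  have hdn : dn K (H88OD.gq k₀⁻¹ • W₀) = dn K W₀ := H88OD.dn_gq _ _
  have h1 := gam q hok h3 hram hD (V := H88OD.gq k₀⁻¹ • W₀) (by rw [hdn]; exact hW₀)
    (by rw [hdn]; exact hWo) (hdescD _) (hdesc _) hn hy' hN hal hbe
  rw [h1, hyc]
  have hψ : k₀ * g * k₀⁻¹ ∈ St K W₀ := (G3_conj k₀ g).2 hn
  have hψ2 : k₀ * g * k₀⁻¹ * (k₀ * g * k₀⁻¹) = 1 := by
    calc k₀ * g * k₀⁻¹ * (k₀ * g * k₀⁻¹) = k₀ * (g * g) * k₀⁻¹ := by group
      _ = 1 := by rw [q.inv, mul_one, mul_inv_cancel]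
  have hψ1 : k₀ * g * k₀⁻¹ ≠ 1 := by
    intro h
    apply q.ne1
    rw [mul_inv_eq_one, mul_eq_left] at h
    exact h
  have h2 := hL.fix (k₀ * g * k₀⁻¹) hψ hψ2 hψ1 (S.ρ k₀ • y) (H88GX.HH_smul S k₀ hy)
  have e1 : S.ρ k₀ • y + S.ρ (k₀ * g * k₀⁻¹) • (S.ρ k₀ • y) = S.ρ k₀ • (y + S.ρ g • y) := by
    rw [← mul_smul, ← map_mul, inv_mul_cancel_right, map_mul, mul_smul, smul_add]
  rw [e1] at h2
  have hWW : H88OD.gq k₀ • (H88OD.gq k₀⁻¹ • W₀) = W₀ := by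
    rw [← mul_smul, ← H42GN.gq_mul, mul_inv_cancel, H42GN.gq_one', one_smul]
  have e2 : ∀ D : K, S.Lv D W₀ (S.ρ k₀ • (y + S.ρ g • y)) ↔
      S.Lv D (H88OD.gq k₀⁻¹ • W₀) (y + S.ρ g • y) := by
    intro D
    have h4 := H88GX.Lv_smul S D k₀ (H88OD.gq k₀⁻¹ • W₀) (y + S.ρ g • y)
    have h5 : S.Lv D W₀ (S.ρ k₀ • (y + S.ρ g • y)) ↔
        S.Lv D (H88OD.gq k₀ • (H88OD.gq k₀⁻¹ • W₀)) (S.ρ k₀ • (y + S.ρ g • y)) := by
      rw [hWW]
    exact h5.trans h4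
  rw [e2 D0, e2 D] at h2
  rw [← h2]
  refine Finset.sum_congr rfl fun d _ => Finset.sum_congr rfl fun i _ => ?_
  rw [map_mul, mul_smul, mul_smul]

private theorem G3_M (hgal : IsGalois M N) (two : Module.finrank M N = 2) (hok : S.Ok D0 Sg)
    (h3 : ∀ v : HeightOneSpectrum (𝓞 K), v ∉ Sg → v.valuation K 3 = 1)
    (hreal : H30ZO.RealAt K N a b)
    (hdesc : ∀ v, DescAt K N v (D0 ^ 2 * a) (D0 ^ 3 * b))
    (hdescD : ∀ v, DescAt K N v (D ^ 2 * a) (D ^ 3 * b))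
    (hram : ∀ V : HeightOneSpectrum (𝓞 N), dn K V ∉ Sg → ¬ H73P2.Ram K V) (hD : D ≠ 0)
    {T : Finset (HeightOneSpectrum (𝓞 K))} (hT : ∀ v ∈ T, v ∉ Sg)
    (hTo : ∀ v ∈ T, Odd (ord (v.valuation K) D))
    (W : {v // v ∈ T} → HeightOneSpectrum (𝓞 N)) (hW : ∀ v, dn K (W v) = v.1)
    {n : {v // v ∈ T} → ℕ} {C : {v // v ∈ T} → Subgroup (N ≃ₐ[K] N)}
    {r u : ∀ v, Fin (n v) → (SC LN →+ ZMod 2)} (hL : ∀ v, LP S (W v) D0 D (C v) (r v) (u v))
    [Fintype (N ≃ₐ[K] N)] {y : SC LN} (hy : S.Y D0 Sg T y) {g : N ≃ₐ[K] N} (hg : g * g = 1)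
    (hg1 : g ≠ 1) (hMP : ∀ h : N ≃ₐ[M] N, h.restrictScalars K ∈ H42GN.inv2 hg)
    (hPM : ∀ p ∈ H42GN.inv2 hg, ∃ h : N ≃ₐ[M] N, h.restrictScalars K = p)
    (hzY : S.Y D0 Sg T (y + S.ρ g • y))
    (hE : ∃ e : Fin 3 → M,
      ev (algebraMap N LN (algebraMap K N D0) * θ) (fun i => algebraMap M N (e i)) ≠ 0 ∧
      sc (ev (algebraMap N LN (algebraMap K N D0) * θ) (fun i => algebraMap M N (e i))) =
        y + S.ρ g • y ∧
      IsSquare (Te_nf (algebraMap K M (D0 ^ 2 * a)) (algebraMap K M (D0 ^ 3 * b)) e)) :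
    ∑ v, ∑ k : N ≃ₐ[K] N, ∑ i, r v i (S.ρ k • y) * u v i (S.ρ k • (y + S.ρ g • y)) = 0 := by
  obtain ⟨TM, hTM⟩ : ∃ A : Finset (HeightOneSpectrum (𝓞 M)), ∀ v, v ∈ A ↔ dn K v ∈ T := by
    have hfin : {v : HeightOneSpectrum (𝓞 M) | dn K v ∈ T}.Finite := by
      have h1 : {v : HeightOneSpectrum (𝓞 M) | dn K v ∈ T} =
          ⋃ v ∈ T, {u : HeightOneSpectrum (𝓞 M) | dn K u = v} := by
        ext w
        simp only [Set.mem_iUnion, Set.mem_ofPred_eq]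
        constructor
        · intro hw
          exact ⟨dn K w, hw, rfl⟩
        · rintro ⟨v, hv, hw⟩
          rw [hw]
          exact hv
      rw [h1]
      exact T.finite_toSet.biUnion fun v _ => H76PP.fin_above v
    exact ⟨hfin.toFinset, fun v => by rw [Set.Finite.mem_toFinset]; exact Iff.rfl⟩
  obtain ⟨q, hq1, hq2⟩ := fib_sum (M := M) hgal S.gal (H42GN.inv2 hg) hMP hPM W hW hTM
    (fun v k => ∑ i, r v i (S.ρ k • y) * u v i (S.ρ k • (y + S.ρ g • y)))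
  rw [hq2]
  refine fix_rec (M := M) hgal (r := 1) (by rw [two, pow_one]) hok hreal (fun v _ => hdesc v) hram
    hT hzY hE hTM ?_
  intro w hw LM _ _ _ _ θM hM hML hθM y' hy' hN hyc hal hbe
  obtain ⟨v, k₀, h1, h2⟩ := hq1 w hw
  have hWv : dn K (W v) ∉ Sg := by
    rw [hW]
    exact hT _ v.2
  have hWo : Odd (ord ((dn K (W v)).valuation K) D) := by
    rw [hW]
    exact hTo _ v.2
  let _ : Fintype (St K (W v)) := Fintype.ofFinite _
  rw [h2, ← h1]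
  by_cases hn : g ∈ St K (H88OD.gq k₀⁻¹ • W v)
  · have hq : QV M S θM g :=
      { cub := hM
        ml := hML
        th := hθM
        gal := hgal
        two := two
        inv := hg
        ne1 := hg1
        aut := fun h => by
          rcases hMP h with h4 | h4
          · left
            apply AlgEquiv.ext
            intro x
            exact congrArg (fun t : N ≃ₐ[K] N => t x) h4
          · exact Or.inr h4
        ex := hPM g (Or.inr rfl) }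
    rw [G3_fil2 hg ((G3_conj k₀ g).2 hn)
      (fun k => ∑ i, r v i (S.ρ k • y) * u v i (S.ρ k • (y + S.ρ g • y)))]
    exact G3_two hok h3 hdesc hdescD hram hD hWv hWo (hL v) hy.hh hn hq hy' hN hyc hal hbe
  · rw [G3_fil1 hg hg1 (fun h => hn ((G3_conj k₀ g).1 h))
      (fun k => ∑ i, r v i (S.ρ k • y) * u v i (S.ρ k • (y + S.ρ g • y)))]
    exact G3_one hgal hok hg hMP hWv (hL v) hy.hh hn hM hML hθM hy' hyc hal hbe

end Aux

theorem inv_sum (hok : S.Ok D0 Sg)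
    (h3 : ∀ v : HeightOneSpectrum (𝓞 K), v ∉ Sg → v.valuation K 3 = 1)
    (hreal : H30ZO.RealAt K N a b)
    (hdesc : ∀ v, DescAt K N v (D0 ^ 2 * a) (D0 ^ 3 * b))
    (hdescD : ∀ v, DescAt K N v (D ^ 2 * a) (D ^ 3 * b))
    (hram : ∀ V : HeightOneSpectrum (𝓞 N), dn K V ∉ Sg → ¬ H73P2.Ram K V) (hD : D ≠ 0)
    {T : Finset (HeightOneSpectrum (𝓞 K))} (hT : ∀ v ∈ T, v ∉ Sg)
    (hTo : ∀ v ∈ T, Odd (ord (v.valuation K) D))
    (W : {v // v ∈ T} → HeightOneSpectrum (𝓞 N)) (hW : ∀ v, dn K (W v) = v.1)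
    {n : {v // v ∈ T} → ℕ} {C : {v // v ∈ T} → Subgroup (N ≃ₐ[K] N)}
    {r u : ∀ v, Fin (n v) → (SC LN →+ ZMod 2)} (hL : ∀ v, LP S (W v) D0 D (C v) (r v) (u v))
    [Fintype (N ≃ₐ[K] N)] {y : SC LN} (hy : S.Y D0 Sg T y) {g : N ≃ₐ[K] N} (hg : g * g = 1) :
    ∑ v, ∑ k : N ≃ₐ[K] N, ∑ i, r v i (S.ρ k • y) * u v i (S.ρ k • (S.ρ g • y)) = 0 := by
  have h0 := rec_sum hok hreal (fun v _ => hdesc v) hram hT W hW hL hy
  by_cases hg1 : g = 1
  · rw [hg1, map_one, one_smul]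
    exact h0
  have _ : IsGalois K N := S.gal
  have hfd : FiniteDimensional K N := Module.Finite.of_restrictScalars_finite ℚ K N
  have hnf : NumberField (IntermediateField.fixedField (H42GN.inv2 hg)) :=
    NumberField.of_module_finite K (IntermediateField.fixedField (H42GN.inv2 hg))
  have hgal : IsGalois (IntermediateField.fixedField (H42GN.inv2 hg)) N :=
    IsGalois.tower_top_of_isGalois K _ N
  have hcard : Nat.card (H42GN.inv2 hg) = 2 := by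
    let _ : Fintype (H42GN.inv2 hg) := Fintype.ofFinite _
    rw [Nat.card_eq_fintype_card, ← Finset.card_univ]
    have h1 : (Finset.univ : Finset (H42GN.inv2 hg)) = {⟨1, Or.inl rfl⟩, ⟨g, Or.inr rfl⟩} := by
      ext ⟨x, hx⟩
      simp only [Finset.mem_univ, Finset.mem_insert, Finset.mem_singleton, true_iff]
      rcases hx with h | h
      · exact Or.inl (Subtype.ext h)
      · exact Or.inr (Subtype.ext h)
    rw [h1, Finset.card_pair]
    intro h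
    exact hg1 (congrArg Subtype.val h).symm
  have two : Module.finrank (IntermediateField.fixedField (H42GN.inv2 hg)) N = 2 := by
    rw [IntermediateField.finrank_fixedField_eq_card]
    exact hcard
  have hMP : ∀ h : N ≃ₐ[IntermediateField.fixedField (H42GN.inv2 hg)] N,
      h.restrictScalars K ∈ H42GN.inv2 hg := by
    intro h
    have h1 : h.restrictScalars K ∈
        (IntermediateField.fixedField (H42GN.inv2 hg)).fixingSubgroup := by
      rw [IntermediateField.mem_fixingSubgroup_iff]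
      intro x hx
      exact h.commutes ⟨x, hx⟩
    rwa [IntermediateField.fixingSubgroup_fixedField] at h1
  have hPM : ∀ p ∈ H42GN.inv2 hg,
      ∃ h : N ≃ₐ[IntermediateField.fixedField (H42GN.inv2 hg)] N, h.restrictScalars K = p := by
    intro p hp
    refine ⟨AlgEquiv.ofRingEquiv (f := p.toRingEquiv) fun x => ?_, ?_⟩
    · exact x.2 ⟨p, hp⟩
    · apply AlgEquiv.ext
      intro x
      rfl
  have hgg : ∀ x : SC LN, S.ρ g • (S.ρ g • x) = x := by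
    intro x
    rw [← mul_smul, ← map_mul, hg, map_one, one_smul]
  have hzY : S.Y D0 Sg T (y + S.ρ g • y) := by
    obtain ⟨Z, -, hZ⟩ := H88GX.exists_YG S hok.ne Sg T
    rw [← hZ]
    exact Z.add_mem ((hZ _).2 hy) ((hZ _).2 (H88GX.Y_smul S g hy))
  have hfix : ∀ h ∈ H42GN.inv2 hg, S.ρ h • (y + S.ρ g • y) = y + S.ρ g • y := by
    rintro h (rfl | rfl)
    · rw [map_one, one_smul]
    · rw [smul_add, hgg, add_comm]
  have h1 := G3_M (M := IntermediateField.fixedField (H42GN.inv2 hg)) hgal two hok h3 hreal hdesc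
    hdescD hram hD hT hTo W hW hL hy hg hg1 hMP hPM hzY
    (H42GN.exists_e S (H42GN.inv2 hg) hok.ne hzY.hh hfix)
  have h2 : ∑ v, ∑ k : N ≃ₐ[K] N, ∑ i, r v i (S.ρ k • y) * u v i (S.ρ k • (y + S.ρ g • y)) =
      ∑ v, ∑ k : N ≃ₐ[K] N, ∑ i, r v i (S.ρ k • y) * u v i (S.ρ k • y) +
      ∑ v, ∑ k : N ≃ₐ[K] N, ∑ i, r v i (S.ρ k • y) * u v i (S.ρ k • (S.ρ g • y)) := by
    rw [← Finset.sum_add_distrib]
    refine Finset.sum_congr rfl fun v _ => ?_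
    rw [← Finset.sum_add_distrib]
    refine Finset.sum_congr rfl fun k _ => ?_
    rw [← Finset.sum_add_distrib]
    refine Finset.sum_congr rfl fun i _ => ?_
    rw [smul_add, map_add, mul_add]
  rw [h2, h0, zero_add] at h1
  exact h1

end H88GT
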