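import Pool.Agent.H88.GT.Dq
import Pool.Agent.H30.GN2.Ba

/-!
ROW H1 (MP_78d38b_GT, helper30). `H30OR.card_YN` (Pool/Agent/H30/OR/Tp.lean) for primes with arbitrary decomposition groups.

PROOF. Copy the proof of card_YN with `sum_split` replaced by: `∑ v ∈ T', f v = ∑ v, f (W v) * (St K (W v)).index` for `f` invariant under the group: the places above `v ∈ T` are the `gq g • W v`, in bijection with the cosets of `St K (W v)`.
-/

set_option autoImplicit false
set_option linter.unusedSectionVars false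
open scoped Classical

open WithZero NumberField IsDedekindDomain H38RT
open H38T1 (SC sc scu rep eo la si OddP)
open H36MX (hsv)
open H76MQ (al be)
open H76PP (Cub LC ev scm dn Te_nf)
open H36CY (DescAt)
open H30ZO (nb HH Wc)
open H30OR (LocD)
open H88GX (Ext)

namespace H88GT

variable {K N LN : Type} [Field K] [NumberField K] [Field N] [NumberField N] [Field LN]
  [NumberField LN] [Algebra K N] [Algebra N LN] {a b : K} {θ : LN} {S : Ext K N LN a b θ}
  {Sg : Finset (HeightOneSpectrum (𝓞 K))} {D0 D : K}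

theorem card_Y (ok : S.Ok D0 Sg)
    {T : Finset (HeightOneSpectrum (𝓞 K))} (hTS : ∀ v ∈ T, v ∉ Sg)
    (W : {v // v ∈ T} → HeightOneSpectrum (𝓞 N)) (hW : ∀ v, dn K (W v) = v.1)
    {Y : AddSubgroup (SC LN)} (hY : ∀ c, c ∈ Y ↔ S.Y D0 Sg T c) :
    Finite Y ∧ 2 ^ (∑ v, (nb N LN (W v) - 1) * (St K (W v)).index) ≤ Nat.card Y := by
  have h := H30GN.card_YO ok hTS W hW (m := fun v => nb N LN (W v) - 1)
    (fun v => by
      have h1 := H30OR.nb_ge1 N LN (W v)
      omega) hY
  have e : ∀ v, H30GN.st K (W v) = St K (W v) := fun v => by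
    ext g
    exact Iff.rfl
  refine ⟨h.1, le_trans (le_of_eq ?_) h.2⟩
  congr 1
  refine Finset.sum_congr rfl fun v _ => ?_
  rw [e, mul_comm]

end H88GT
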