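import Pool.Agent.H88.GT.A4
import Pool.Agent.H88.GT.F4
import Pool.Agent.H88.GT.G3
import Pool.Agent.H88.GT.H1
import Pool.Agent.H49.GN2.Ic
import Pool.Agent.H88.GN.Pm

/-!
MP_78d38b_GN2 (helper88): the two-Selmer group of `E_{D0}` over `N` is balanced if that of `E_D` is trivial and the descent conditions hold.
-/

set_option autoImplicit false
set_option linter.unusedSectionVars false
open scoped Classical

open WithZero NumberField IsDedekindDomain H38RT
open H38T1 (SC sc scu rep eo la si OddP)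
open H36MX (hsv)
open H76MQ (al be)
open H76PP (Cub LC ev scm dn Te_nf)
open H36CY (DescAt)
open H30ZO (nb HH Wc RealAt)
open H88GX (Ext)

namespace H88GT

variable {K N LN : Type} [Field K] [NumberField K] [Field N] [NumberField N] [Field LN]
  [NumberField LN] [Algebra K N] [Algebra N LN] {a b : K} {θ : LN} {S : Ext K N LN a b θ}
  {Sg : Finset (HeightOneSpectrum (𝓞 K))} {D0 D : K}

/-- Subgroups of a cyclic group. -/
theorem zpow_of {G : Type} [Group G] {H C : Subgroup G} (h : ∃ φ ∈ H, ∀ g ∈ H, ∃ n : ℕ, g = φ ^ n)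
    (hC : C ≤ H) : ∃ σ, C = Subgroup.zpowers σ := by
  obtain ⟨φ, -, hφ⟩ := h
  have hle : C ≤ Subgroup.zpowers φ := by
    intro c hc
    obtain ⟨n, hn⟩ := hφ c (hC hc)
    exact ⟨n, by rw [hn]; exact zpow_natCast φ n⟩
  have h1 : IsCyclic (C.subgroupOf (Subgroup.zpowers φ)) := inferInstance
  obtain ⟨⟨⟨x, hx⟩, hx'⟩, hgen⟩ := h1.exists_generator
  have hxC : x ∈ C := Subgroup.mem_subgroupOf.1 hx'
  refine ⟨x, le_antisymm ?_ ?_⟩
  · intro c hc
    obtain ⟨k, hk⟩ := Subgroup.mem_zpowers_iff.1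
      (hgen ⟨⟨c, hle hc⟩, Subgroup.mem_subgroupOf.2 hc⟩)
    have h2 := congrArg (fun t => ((t : C.subgroupOf (Subgroup.zpowers φ)) : G)) hk
    exact ⟨k, h2⟩
  · rw [Subgroup.zpowers_le]
    exact hxC

theorem nec_nt2 (hok : S.Ok D0 Sg)
    (h3 : ∀ v : HeightOneSpectrum (𝓞 K), v ∉ Sg → v.valuation K 3 = 1)
    (hram : ∀ V : HeightOneSpectrum (𝓞 N), dn K V ∉ Sg → ¬ H73P2.Ram K V) (hD : D ≠ 0)
    (hsq : ∀ v ∈ Sg, IsSquare (algebraMap K (v.adicCompletion K) (D / D0)))
    (hpos : ∀ s : K →+* ℝ, 0 < s (D / D0)) (hreal : RealAt K N a b)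
    (hdesc : ∀ v, DescAt K N v (D0 ^ 2 * a) (D0 ^ 3 * b))
    (hdescD : ∀ v, DescAt K N v (D ^ 2 * a) (D ^ 3 * b)) (hV : ∀ c, S.V D c → c = 0)
    {W : AddSubgroup (SC LN)} (hW : ∀ c, c ∈ W ↔ S.V D0 c) :
    H26GN.GBal (fun (g : N ≃ₐ[K] N) (c : SC LN) => S.ρ g • c) W := by
  have hgal : IsGalois K N := S.gal
  have hfd : FiniteDimensional K N := Module.Finite.of_restrictScalars_finite ℚ K N
  have h0 : D0 ≠ 0 := hok.ne
  have hδ : D / D0 ≠ 0 := div_ne_zero hD h0
  -- the set `T`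
  obtain ⟨T, hTT⟩ : ∃ T : Finset (HeightOneSpectrum (𝓞 K)), ∀ v, v ∈ T ↔
      v ∉ Sg ∧ Odd (ord (v.valuation K) (D / D0)) := by
    have hfin : {v : HeightOneSpectrum (𝓞 K) | v ∉ Sg ∧
        Odd (ord (v.valuation K) (D / D0))}.Finite := by
      refine (H38RT.fin_bad hδ).subset fun v hv => ?_
      intro h1
      have h2 := hv.2
      unfold ord at h2
      rw [h1, log_one, neg_zero] at h2
      exact (Int.not_odd_iff_even.2 (⟨0, rfl⟩ : Even (0 : ℤ))) h2
    exact ⟨hfin.toFinset, fun v => by rw [Set.Finite.mem_toFinset]; exact Iff.rfl⟩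
  have hTS : ∀ v ∈ T, v ∉ Sg := fun v hv => ((hTT v).1 hv).1
  have hord0 : ∀ v : HeightOneSpectrum (𝓞 K), v ∉ Sg → ord (v.valuation K) D0 = 0 := by
    intro v hv
    unfold ord
    rw [hok.val v hv, log_one, neg_zero]
  have hordD : ∀ v : HeightOneSpectrum (𝓞 K), v ∉ Sg →
      ord (v.valuation K) D = ord (v.valuation K) (D / D0) := by
    intro v hv
    have h1 : D = D / D0 * D0 := by field_simp
    conv_lhs => rw [h1]
    rw [ord_mul hδ h0, hord0 v hv, add_zero]
  have hTo : ∀ v ∈ T, Odd (ord (v.valuation K) D) := by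
    intro v hv
    rw [hordD v (hTS v hv)]
    exact ((hTT v).1 hv).2
  -- the places above `T`
  have hab : ∀ v : {v // v ∈ T}, ∃ V : HeightOneSpectrum (𝓞 N), dn K V = v.1 := fun v =>
    H76PP.exists_above v.1
  choose V hVd using hab
  have hout : ∀ v, dn K (V v) ∉ Sg := fun v => by
    rw [hVd]
    exact hTS v.1 v.2
  have hex : ∀ v : {v // v ∈ T}, ∃ (n : ℕ) (C : Subgroup (N ≃ₐ[K] N))
      (r u : Fin n → (SC LN →+ ZMod 2)), LP S (V v) D0 D C r u ∧ n ≤ 2 ∧
        (n : ZMod 2) = la v.1 (sc (-(4 * a ^ 3 + 27 * b ^ 2))) := by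
    intro v
    have h1 := exists_LP hok h3 hram hD (hout v) (by
      rw [hVd]
      exact hTo v.1 v.2) (hdescD (dn K (V v)))
    rwa [hVd] at h1
  choose n C r u hL hn2 hnla using hex
  -- the relaxed group
  obtain ⟨Y, -, hY⟩ := H88GX.exists_YG S h0 Sg T
  have hVD := H42GN.V_iff_T (S := S) hok hD hsq hpos (T := T) (fun v h1 h2 => by
      rw [hordD v h1, ← Int.not_odd_iff_even]
      exact fun h4 => h2 ((hTT v).2 ⟨h1, h4⟩)) V hVd
  have hVD0 := H42GN.V_iff_T (S := S) hok h0 (fun v _ => by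
      rw [div_self h0, map_one]
      exact IsSquare.one) (fun s => by
      rw [div_self h0, map_one]
      exact one_pos) (T := T) (fun v h1 _ => by
      rw [hord0 v h1]
      exact ⟨0, rfl⟩) V hVd
  have hmul : ∀ (g h : N ≃ₐ[K] N) (c : SC LN), S.ρ (g * h) • c = S.ρ g • S.ρ h • c := by
    intro g h c
    rw [map_mul, mul_smul]
  have hLD : ∀ v c, c ∈ HH N LN →
      ((∀ g, S.Lv D (V v) (S.ρ g • c)) ↔ ∀ i g, u v i (S.ρ g • c) = 0) := by
    intro v c hc
    constructor
    · intro h i g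
      have h1 := ((hL v).hu _ (H88GX.HH_smul S g hc)).1 (h g) 1 (St K (V v)).one_mem i
      rwa [map_one, one_smul] at h1
    · intro h g
      refine ((hL v).hu _ (H88GX.HH_smul S g hc)).2 fun d _ i => ?_
      rw [← hmul]
      exact h i _
  have hLD0 : ∀ v c, c ∈ HH N LN →
      ((∀ g, S.Lv D0 (V v) (S.ρ g • c)) ↔ ∀ i g, r v i (S.ρ g • c) = 0) := by
    intro v c hc
    constructor
    · intro h i g
      have h1 := ((hL v).hr _ (H88GX.HH_smul S g hc)).1 (h g) 1 (St K (V v)).one_mem i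
      rwa [map_one, one_smul] at h1
    · intro h g
      refine ((hL v).hr _ (H88GX.HH_smul S g hc)).2 fun d _ i => ?_
      rw [← hmul]
      exact h i _
  let _ : Fintype (N ≃ₐ[K] N) := Fintype.ofFinite _
  -- the parity
  have heven : Even (∑ v, n v) := by
    have hΔ : (-(4 * a ^ 3 + 27 * b ^ 2) : K) ≠ 0 := neg_ne_zero.2 S.dne
    rw [← ZMod.natCast_eq_zero_iff_even, Nat.cast_sum]
    rw [Finset.sum_congr rfl fun v _ => hnla v, Finset.sum_coe_sort T fun v =>
      la v (sc (-(4 * a ^ 3 + 27 * b ^ 2)))]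
    exact H30OR.sum_la hΔ hδ (fun v hv => hok.two v hv)
      (fun v hv => by rw [Valuation.map_neg]; exact hok.dis v hv) hsq hpos hTT
  obtain ⟨m, hm⟩ := heven
  have hHH : ∀ y ∈ Y, y ∈ HH N LN := fun y hy => ((hY y).1 hy).hh
  refine H49GN.gbal_of_cyc (act := fun (g : N ≃ₐ[K] N) (c : SC LN) => S.ρ g • c) (Y := Y)
    (ι := {v // v ∈ T}) (n := n) (C := C) (m := m) (fun x => ?_) (fun g h x => hmul g h x)
    (fun g x y => ?_) (fun g y hy => ?_) hn2 (by rw [hm, two_mul]) (fun v => (hL v).odd) (fun v => ?_)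
    u r ?_ ?_ ?_ ?_ ?_ ?_ ?_
  · change S.ρ 1 • x = x
    rw [map_one, one_smul]
  · exact smul_add _ _ _
  · rw [hY] at hy ⊢
    exact H88GX.Y_smul S g hy
  · exact zpow_of (st_cyc (hram (V v) (hout v))) (hL v).le
  · intro y hy h
    have hy' := (hY y).1 hy
    exact hV y ((hVD y).2 ⟨hy', fun v g => (hLD v y hy'.hh).2 (fun i g => h v i g) g⟩)
  · have h1 := (card_Y hok hTS V hVd hY).2
    refine le_trans (le_of_eq ?_) h1
    congr 1
    refine Finset.sum_congr rfl fun v _ => ?_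
    have e1 := (hL v).card
    have e2 := (C v).index_mul_card
    have e3 := (St K (V v)).index_mul_card
    have p1 : 0 < Nat.card (C v) := Nat.card_pos
    have p2 : 0 < Nat.card (St K (V v)) := Nat.card_pos
    have e4 : n v * (C v).index * (Nat.card (C v) * Nat.card (St K (V v))) =
        (nb N LN (V v) - 1) * (St K (V v)).index * (Nat.card (C v) * Nat.card (St K (V v))) := by
      calc n v * (C v).index * (Nat.card (C v) * Nat.card (St K (V v)))
          = (n v * Nat.card (St K (V v))) * ((C v).index * Nat.card (C v)) := by ring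
        _ = ((nb N LN (V v) - 1) * Nat.card (C v)) *
              ((St K (V v)).index * Nat.card (St K (V v))) := by rw [e1, e2, e3]
        _ = _ := by ring
    exact Nat.eq_of_mul_eq_mul_right (Nat.mul_pos p1 p2) e4
  · intro x
    rw [hW, hVD0, hY]
    refine and_congr_right fun hx => ?_
    constructor
    · intro h v i g
      exact (hLD0 v x hx.hh).1 (h v) i g
    · intro h v g
      exact (hLD0 v x hx.hh).2 (fun i g => h v i g) g
  · intro v c hc i
    obtain ⟨A, hA⟩ := (hL v).eqv c hc i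
    exact ⟨A, fun x hx => hA x (hHH x hx)⟩
  · intro v c hc x hx y hy
    have h1 := (hL v).inv c hc y (hHH y hy) x (hHH x hx)
    simp only [mul_comm (r v _ _)] at h1
    exact h1
  · intro y hy
    have h1 := rec_sum hok hreal (fun v _ => hdesc v) hram hTS V hVd hL ((hY y).1 hy)
    simp only [mul_comm (r _ _ _)] at h1
    exact h1
  · intro g hg _ y hy
    have h1 := inv_sum hok h3 hreal hdesc hdescD hram hD hTS hTo V hVd hL
      (H88GX.Y_smul S g ((hY y).1 hy)) hg
    have hgg : S.ρ g • S.ρ g • y = y := by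
      rw [← hmul, hg, map_one, one_smul]
    rw [hgg] at h1
    simp only [mul_comm (r _ _ _)] at h1
    exact h1

end H88GT
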