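import Pool.Agent.H26.GN.G1
import Pool.Agent.H88.GT.J2
import Pool.Agent.H88.PL.Pf
import Pool.Agent.H88.GN.Kd

/-!
MP_78d38b_GN2 (helper88): the converse, for finitely many curves, without a condition on the valuations of `D / D0`
(compare Pool/Agent/H26/GN/G2.lean, helper26).
-/

set_option autoImplicit false
set_option linter.unusedSectionVars false
open scoped Classical

open WithZero NumberField IsDedekindDomain H38RT
open H76PP (Cub LC ev scm dn)
open H30ZO (Tv RealAt)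
open H36CY (DescAt)
open H88GX

namespace H26GX

open H26OD (Zs NRt dd3)
open H26GN (GBal)

/-- **The converse.** -/
theorem nec_N2 {K N : Type} [Field K] [NumberField K] [Field N] [NumberField N] [Algebra K N]
    [IsGalois K N] {ι : Type} [Fintype ι] {a b : ι → 𝓞 K}
    (hir : ∀ (j : ι) (t : K), t ^ 3 + (a j : K) * t + (b j : K) ≠ 0)
    (hsq : ∀ j, ¬ IsSquare (algebraMap K N (dd3 (a j : K) (b j : K))))
    {D0 : K} (hD0 : D0 ≠ 0) :
    ∃ S0 : Finset (HeightOneSpectrum (𝓞 K)), ∀ D : K, D ≠ 0 →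
      (∀ v ∈ S0, IsSquare (algebraMap K (v.adicCompletion K) (D / D0))) →
      (∀ s : K →+* ℝ, 0 < s (D / D0)) →
      (∀ j, H88PL.TvN K N (a j : K) (b j : K) D) →
      ∀ j, RealAt K N (a j : K) (b j : K) ∧
        (∀ v, DescAt K N v (D0 ^ 2 * (a j : K)) (D0 ^ 3 * (b j : K))) ∧
        ∀ p : Pk K N (a j : K) (b j : K), p.Bl D0 := by
  have p0 : ∀ j, Pk K N (a j : K) (b j : K) := fun j => (exists_pk (a j) (b j) (hir j) (hsq j)).some
  have h3f : {v : HeightOneSpectrum (𝓞 K) | (3 : 𝓞 K) ∈ v.asIdeal}.Finite :=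
    H30MQ.fin_mem (by norm_num)
  obtain ⟨Sg, hle, hok, hram⟩ := ok_all p0 hD0 h3f.toFinset
  have h3 : ∀ v : HeightOneSpectrum (𝓞 K), v ∉ Sg → v.valuation K 3 = 1 := by
    intro v hv
    have h1 : (3 : 𝓞 K) ∉ v.asIdeal := fun h => hv (hle (by
      rw [Set.Finite.mem_toFinset]
      exact h))
    have h2 := v.valuation_eq_one_iff_notMem (K := K) |>.mpr h1
    have e : ((3 : 𝓞 K) : K) = 3 := map_ofNat _ 3
    rwa [show algebraMap (𝓞 K) K 3 = (3 : K) from map_ofNat _ 3] at h2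
  refine ⟨Sg, fun D hD hS hpos htv j => ?_⟩
  have hne : 4 * (a j : K) ^ 3 + 27 * (b j : K) ^ 2 ≠ 0 := (p0 j).S.dne
  obtain ⟨h1, h2⟩ := H38OD.desc_of_all (N := N) (fun v => v.valuation_le_one (a j))
    (fun v => v.valuation_le_one (b j)) hne hD fun M _ => htv j M
  have hdesc : ∀ v, DescAt K N v (D0 ^ 2 * (a j : K)) (D0 ^ 3 * (b j : K)) := by
    intro v
    by_cases hv : v ∈ Sg
    · obtain ⟨r, hr⟩ := hS v hv
      have h4 := H30ZO.descAt_twist (D := D0 / D) (r := r⁻¹) (div_ne_zero hD0 hD) (by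
        rw [← inv_div, map_inv₀, hr, sq, mul_inv]) (h1 v)
      have e1 : (D0 / D) ^ 2 * (D ^ 2 * (a j : K)) = D0 ^ 2 * (a j : K) := by field_simp
      have e2 : (D0 / D) ^ 3 * (D ^ 3 * (b j : K)) = D0 ^ 3 * (b j : K) := by field_simp
      rwa [e1, e2] at h4
    · refine H38OD.descAt_good_tw ((hok j).two v hv) (fun V hV => ?_)
        (v.valuation_le_one (a j)) (v.valuation_le_one (b j)) ((hok j).dis v hv) hD0
        ((hok j).val v hv) (H26OD.noroot_N (hir j) (hsq j))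
      exact hram V (by rw [hV]; exact hv)
  refine ⟨h2, hdesc, fun p W hW => ?_⟩
  have hokp : p.S.Ok D0 Sg :=
    ⟨hD0, fun v hv => (hok j).two v hv, fun v hv => (hok j).dis v hv, fun v hv => (hok j).val v hv⟩
  have hV : ∀ c, p.S.V D c → c = 0 := fun c hc => H88GN.V_of_tv p.S hD (htv j N) c hc
  exact H88GT.nec_nt2 hokp h3 hram hD hS hpos h2 hdesc h1 hV hW

end H26GX
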