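import Pool.Agent.H88.GT.Dq

/-!
ROW A1 (MP_78d38b_GT). A unit of `k` is a square in the residue field of `w` iff it is one in the residue field of `dn k w` or the residue degree `f` is even.

PROOF. `Nv w = Nv (dn k w) ^ f` (private theorem Te_Nv of Pool/Agent/H30/OR/Te.lean, copy it). `la w (sc x) = 0` for a unit `x` iff `x` is a square in the residue field (H38T1.la_sc, H38RT.lam_unit; see the proofs of `la_one`,
`la_no` in Pool/Agent/H30/OR/Fq.lean, with the residue field map `Fq_res`). Put `q = Nv (dn k w)` (odd), `k0 = 𝓞 k / (dn k w)` of order `q` embedded in `k1 = 𝓞 k' / w` of order `q ^ f`. `x` is a square in `k1` iff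
`x ^ ((q ^ f - 1) / 2) = 1` (FiniteField.isSquare_iff), `(q ^ f - 1) / 2 = (q - 1) / 2 * (1 + q + ... + q ^ (f - 1))`, the second factor is congruent to `f` mod 2, and `x ^ ((q - 1) / 2)` is 1 or -1.
-/

set_option autoImplicit false
set_option linter.unusedSectionVars false
open scoped Classical

open WithZero NumberField IsDedekindDomain H38RT
open H38T1 (SC sc scu rep eo la si OddP)
open H36MX (hsv)
open H76MQ (al be)
open H76PP (Cub LC ev scm dn Te_nf)
open H36CY (DescAt)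
open H30ZO (nb HH Wc)
open H30OR (LocD)
open H88GX (Ext)

namespace H88GT

variable {k k' : Type} [Field k] [NumberField k] [Field k'] [NumberField k'] [Algebra k k']

private theorem A1_fin {k0 k1 : Type} [Field k0] [Fintype k0] [Field k1] [Fintype k1]
    (g : k0 →+* k1) (h2 : ringChar k0 ≠ 2) (f : ℕ)
    (hc : Fintype.card k1 = Fintype.card k0 ^ f) {x : k0} (hx : x ≠ 0) :
    IsSquare (g x) ↔ IsSquare x ∨ Even f := by
  obtain ⟨q, hq⟩ : ∃ q, q = Fintype.card k0 := ⟨_, rfl⟩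
  have hodd : q % 2 = 1 := by rw [hq]; exact FiniteField.odd_card_of_char_ne_two h2
  obtain ⟨m, hm⟩ : ∃ m, m = q / 2 := ⟨_, rfl⟩
  have hqm : q = 2 * m + 1 := by omega
  have key : ∀ n : ℕ, q ^ n = 2 * (m * ∑ i ∈ Finset.range n, q ^ i) + 1 := by
    intro n
    induction n with
    | zero => simp
    | succ n ih =>
      rw [Finset.sum_range_succ, pow_succ]
      have h1 : q ^ n * q = 2 * (m * q ^ n) + q ^ n := by
        calc q ^ n * q = q ^ n * (2 * m + 1) := by rw [← hqm]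
          _ = 2 * (m * q ^ n) + q ^ n := by ring
      rw [h1]
      have h3 : 2 * (m * (∑ i ∈ Finset.range n, q ^ i + q ^ n)) + 1 =
        2 * (m * q ^ n) + (2 * (m * ∑ i ∈ Finset.range n, q ^ i) + 1) := by ring
      rw [h3, ← ih]
  have par : ∀ n : ℕ, Even (∑ i ∈ Finset.range n, q ^ i) ↔ Even n := by
    intro n
    induction n with
    | zero => simp
    | succ n ih =>
      have h1 : ¬ Even (q ^ n) := by
        rw [Nat.not_even_iff_odd]
        exact (Nat.odd_iff.2 hodd).pow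
      rw [Finset.sum_range_succ, Nat.even_add, ih, Nat.even_add_one]
      tauto
  have h1 : ringChar k1 ≠ 2 := by
    intro h
    have h3 := FiniteField.even_card_iff_char_two.1 h
    rw [hc, ← hq, key f] at h3
    omega
  have hgx : g x ≠ 0 := (map_ne_zero g).2 hx
  have hcard : Fintype.card k1 / 2 = m * ∑ i ∈ Finset.range f, q ^ i := by
    rw [hc, ← hq, key f]
    omega
  rw [FiniteField.isSquare_iff h1 hgx, FiniteField.isSquare_iff h2 hx, hcard, ← hq, ← hm, pow_mul,
    ← map_pow, ← par f]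
  have h4 := FiniteField.pow_dichotomy h2 hx
  rw [← hq, ← hm] at h4
  rcases h4 with h4 | h4
  · rw [h4, map_one, one_pow]
    tauto
  · rw [h4, map_neg, map_one]
    have h5 : (-1 : k0) ≠ 1 := Ring.neg_one_ne_one_of_char_ne_two h2
    have h6 : (-1 : k1) ≠ 1 := Ring.neg_one_ne_one_of_char_ne_two h1
    rcases Nat.even_or_odd (∑ i ∈ Finset.range f, q ^ i) with h7 | h7
    · rw [h7.neg_one_pow]
      tauto
    · rw [h7.neg_one_pow]
      have h8 := Nat.not_even_iff_odd.2 h7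
      tauto

private theorem A1_la {v : HeightOneSpectrum (𝓞 k)} (hv : OddP v) {x : k}
    (hx : v.valuation k x = 1) {a : 𝓞 k} (ha : v.valuation k (x - (a : k)) < 1) :
    la v (sc x) = if IsSquare (Ideal.Quotient.mk v.asIdeal a) then 0 else 1 := by
  have hx0 : x ≠ 0 := by
    rintro rfl
    rw [map_zero] at hx
    exact zero_ne_one hx
  rw [H38T1.la_sc hv hx0, lam_unit hx]
  refine if_congr ⟨?_, ?_⟩ rfl rfl
  · rintro ⟨t, ht⟩
    have h1 : v.valuation k (t ^ 2) = 1 := by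
      have e : t ^ 2 = x - (x - t ^ 2) := by ring
      rw [e, Valuation.map_sub_eq_of_lt_left _ (by rw [hx]; exact ht), hx]
    have ht1 : v.valuation k t = 1 := by
      rw [map_pow] at h1
      exact (pow_eq_one_iff.1 h1).resolve_right two_ne_zero
    obtain ⟨τ, hτ⟩ := H76PP.Tf_approx v ht1.le
    refine ⟨Ideal.Quotient.mk v.asIdeal τ, ?_⟩
    rw [← map_mul, Ideal.Quotient.eq, ← v.valuation_lt_one_iff_mem (K := k)]
    have e : ((a - τ * τ : 𝓞 k) : k) = -(x - (a : k)) + ((x - t ^ 2) + (t - τ) * (t + τ)) := by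
      push_cast
      ring
    refine lt_of_eq_of_lt (congrArg (v.valuation k) e) ?_
    refine Valuation.map_add_lt _ (by rw [Valuation.map_neg]; exact ha) ?_
    refine Valuation.map_add_lt _ ht ?_
    rw [map_mul]
    exact (mul_le_of_le_one_right' ((Valuation.map_add _ _ _).trans
      (max_le ht1.le (v.valuation_le_one τ)))).trans_lt hτ
  · rintro ⟨s, hs⟩
    obtain ⟨τ, rfl⟩ := Ideal.Quotient.mk_surjective s
    rw [← map_mul, Ideal.Quotient.eq, ← v.valuation_lt_one_iff_mem (K := k)] at hs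
    refine ⟨(τ : k), ?_⟩
    have e : x - (τ : k) ^ 2 = (x - (a : k)) + ((a - τ * τ : 𝓞 k) : k) := by
      push_cast
      ring
    rw [e]
    exact Valuation.map_add_lt _ ha hs

private theorem A1_char {v : HeightOneSpectrum (𝓞 k)} (hv : OddP v) :
    ((2 : 𝓞 k)) ∉ v.asIdeal := by
  intro h
  have h3 := (v.valuation_lt_one_iff_mem (K := k) _).2 h
  have h4 : ((2 : 𝓞 k) : k) = 2 := map_ofNat (algebraMap (𝓞 k) k) 2
  have h5 : v.valuation k 2 < 1 := lt_of_eq_of_lt (congrArg (v.valuation k) h4.symm) h3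
  exact absurd hv h5.ne

private theorem A1_ringChar {F : Type} [Field F] {R : Type} [CommRing R] (g : R →+* F)
    (h : g 2 ≠ 0) : ringChar F ≠ 2 := by
  intro h1
  have h2 := ringChar.Nat.cast_ringChar (R := F)
  rw [h1] at h2
  apply h
  rw [map_ofNat]
  exact_mod_cast h2

private theorem A1_Nv (w : HeightOneSpectrum (𝓞 k')) :
    Nat.card (𝓞 k' ⧸ w.asIdeal) =
      Nat.card (𝓞 k ⧸ (dn k w).asIdeal) ^ (w.asIdeal.inertiaDeg (𝓞 k)) := by
  have h1 : w.asIdeal.IsMaximal := w.isMaximal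
  have h2 : (dn k w).asIdeal.IsMaximal := (dn k w).isMaximal
  have h3 : w.asIdeal.LiesOver (dn k w).asIdeal := ⟨rfl⟩
  have h4 : Ideal.relNorm (𝓞 k) w.asIdeal = (dn k w).asIdeal ^ (w.asIdeal.inertiaDeg (𝓞 k)) :=
    Ideal.relNorm_eq_pow_of_isMaximal w.asIdeal (dn k w).asIdeal
  have h5 := Ideal.absNorm_relNorm (R := 𝓞 k) (S := 𝓞 k') w.asIdeal
  rw [h4, map_pow, Ideal.absNorm_apply, Ideal.absNorm_apply, Submodule.cardQuot_apply,
    Submodule.cardQuot_apply] at h5
  exact h5.symm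

private theorem A1_lt (w : HeightOneSpectrum (𝓞 k')) {y : k} (hy : (dn k w).valuation k y < 1) :
    w.valuation k' (algebraMap k k' y) < 1 := by
  by_cases h0 : y = 0
  · rw [h0, map_zero, map_zero]
    exact zero_lt_one
  obtain ⟨e, he, h⟩ := H76PP.ord_dn (K := k) w
  have h1 := h y h0
  have h2 : (dn k w).valuation k y ≠ 0 := (Valuation.ne_zero_iff _).2 h0
  have h3 : w.valuation k' (algebraMap k k' y) ≠ 0 :=
    (Valuation.ne_zero_iff _).2 ((map_ne_zero _).2 h0)
  rw [← log_lt_log h2 one_ne_zero, log_one] at hy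
  rw [← log_lt_log h3 one_ne_zero, log_one]
  unfold ord at h1
  have h4 : (0 : ℤ) < e := by exact_mod_cast he
  nlinarith

private theorem A1_one (w : HeightOneSpectrum (𝓞 k')) {y : k} (hy : (dn k w).valuation k y = 1) :
    w.valuation k' (algebraMap k k' y) = 1 := by
  have h0 : y ≠ 0 := by
    rintro rfl
    rw [map_zero] at hy
    exact zero_ne_one hy
  obtain ⟨e, he, h⟩ := H76PP.ord_dn (K := k) w
  have h1 := h y h0
  have h3 : w.valuation k' (algebraMap k k' y) ≠ 0 :=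
    (Valuation.ne_zero_iff _).2 ((map_ne_zero _).2 h0)
  rw [Ta_ord_unit hy, mul_zero, ord, neg_eq_zero] at h1
  rw [← exp_log h3, h1, exp_zero]

private theorem A1_sq {w : HeightOneSpectrum (𝓞 k')} (ho0 : OddP (dn k w)) {a : 𝓞 k}
    (ha1 : (dn k w).valuation k (a : k) = 1) :
    IsSquare (Ideal.Quotient.mk w.asIdeal (algebraMap (𝓞 k) (𝓞 k') a)) ↔
      IsSquare (Ideal.Quotient.mk (dn k w).asIdeal a) ∨ Even (w.asIdeal.inertiaDeg (𝓞 k)) := by
  have hmax1 : w.asIdeal.IsMaximal := w.isMaximal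
  have hmax0 : (dn k w).asIdeal.IsMaximal := (dn k w).isMaximal
  have hfin0 : Finite (𝓞 k ⧸ (dn k w).asIdeal) :=
    Ideal.finiteQuotientOfFreeOfNeBot (dn k w).asIdeal (dn k w).ne_bot
  have hfin1 : Finite (𝓞 k' ⧸ w.asIdeal) :=
    Ideal.finiteQuotientOfFreeOfNeBot w.asIdeal w.ne_bot
  let F0 := Ideal.Quotient.field (dn k w).asIdeal
  let F1 := Ideal.Quotient.field w.asIdeal
  let _ := Fintype.ofFinite (𝓞 k ⧸ (dn k w).asIdeal)
  let _ := Fintype.ofFinite (𝓞 k' ⧸ w.asIdeal)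
  have hc : Fintype.card (𝓞 k' ⧸ w.asIdeal) =
      Fintype.card (𝓞 k ⧸ (dn k w).asIdeal) ^ (w.asIdeal.inertiaDeg (𝓞 k)) := by
    rw [← Nat.card_eq_fintype_card, ← Nat.card_eq_fintype_card]
    exact A1_Nv w
  have h2 : ringChar (𝓞 k ⧸ (dn k w).asIdeal) ≠ 2 := by
    refine A1_ringChar (Ideal.Quotient.mk (dn k w).asIdeal) ?_
    rw [Ne, Ideal.Quotient.eq_zero_iff_mem]
    exact A1_char ho0
  have h0 : Ideal.Quotient.mk (dn k w).asIdeal a ≠ 0 := by
    rw [Ne, Ideal.Quotient.eq_zero_iff_mem, ← (dn k w).valuation_lt_one_iff_mem (K := k)]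
    intro h
    exact absurd ha1 h.ne
  exact A1_fin (Ideal.quotientMap w.asIdeal (algebraMap (𝓞 k) (𝓞 k')) le_rfl :
    𝓞 k ⧸ (dn k w).asIdeal →+* 𝓞 k' ⧸ w.asIdeal) h2 (w.asIdeal.inertiaDeg (𝓞 k)) hc h0

theorem la_res {w : HeightOneSpectrum (𝓞 k')} (ho : OddP w) {x : k}
    (hx : (dn k w).valuation k x = 1) : la w (sc (algebraMap k k' x)) =
      (w.asIdeal.inertiaDeg (𝓞 k) : ZMod 2) * la (dn k w) (sc x) := by
  obtain ⟨a, ha⟩ := H76PP.Tf_approx (dn k w) hx.le
  have ho0 : OddP (dn k w) := H76PP.oddP_dn.1 ho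
  have ha1 : (dn k w).valuation k (a : k) = 1 := by
    have e : (a : k) = x - (x - a) := by ring
    rw [e, Valuation.map_sub_eq_of_lt_left _ (by rw [hx]; exact ha), hx]
  have h4 : w.valuation k' (algebraMap k k' x - ((algebraMap (𝓞 k) (𝓞 k') a : 𝓞 k') : k')) < 1 := by
    have h5 := A1_lt w ha
    rw [map_sub] at h5
    exact h5
  rw [A1_la ho (A1_one w hx) h4, A1_la ho0 hx ha]
  have h6 := A1_sq ho0 ha1
  rcases Nat.even_or_odd (w.asIdeal.inertiaDeg (𝓞 k)) with h7 | h7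
  · rw [(ZMod.natCast_eq_zero_iff_even).2 h7, zero_mul]
    exact if_pos (h6.2 (Or.inr h7))
  · rw [(ZMod.natCast_eq_one_iff_odd).2 h7, one_mul]
    have h8 := Nat.not_even_iff_odd.2 h7
    exact if_congr (by tauto) rfl rfl

end H88GT
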