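import Pool.Agent.H88.GT.Dq

/-!
ROW B1 (MP_78d38b_GT). Weak approximation for classes of square norm.

PROOF. In coordinates with respect to `1, θ, θ ^ 2` (Cub.co, Cub.eq_co): by weak approximation in `M` (H30OD.weak_app, or the version used in H38OD / H30OD) choose `z = z 0 + z 1 θ + z 2 θ ^ 2`, `z i ∈ M`, with `z i` close to the coordinates of `y` at `u` and close to
those of `1` at the other places of `U`.  Then `z / y` is close to 1 at all `p` above `u` and `z` is close to 1 at all `p` above the other `u'` (so they are squares there, the places are odd: near 1 suffices), and the norm of `z` (a polynomial in the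
coordinates: H76PP.Te_norm) is close to the norm of `y` at `u`, a square, and close to 1 at the others.  Put `y' = z * N z`: its norm is `(N z) ^ 4`, `sc y' = sc z + sc (N z)`.
-/

set_option autoImplicit false
set_option linter.unusedSectionVars false
open scoped Classical

open WithZero NumberField IsDedekindDomain H38RT
open H38T1 (SC sc scu rep eo la si OddP)
open H36MX (hsv)
open H76MQ (al be)
open H76PP (Cub LC ev scm dn Te_nf)
open H36CY (DescAt)
open H30ZO (nb HH Wc)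
open H30OR (LocD)
open H88GX (Ext)

namespace H88GT


/-- the ring of the integral elements -/
private theorem B1_of3 {F : Type} [Field F] (V : Valuation F (WithZero (Multiplicative ℤ))) :
    (3 : F) ∈ V.integer := by
  have h : ((3 : V.integer) : F) ∈ V.integer := (3 : V.integer).2
  exact h

private theorem B1_of2 {F : Type} [Field F] (V : Valuation F (WithZero (Multiplicative ℤ))) :
    (2 : F) ∈ V.integer := by
  have h : ((2 : V.integer) : F) ∈ V.integer := (2 : V.integer).2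
  exact h

private theorem B1_sm {F : Type} [Field F] (V : Valuation F (WithZero (Multiplicative ℤ)))
    {x y : F} (hx : V x < 1) (hy : y ∈ V.integer) : V (x * y) < 1 := by
  rw [map_mul]
  exact mul_lt_one_of_nonneg_of_lt_one_left zero_le hx hy

private theorem B1_ad {F : Type} [Field F] (V : Valuation F (WithZero (Multiplicative ℤ)))
    {x y : F} (hx : V x < 1) (hy : V y < 1) : V (x + y) < 1 :=
  lt_of_le_of_lt (V.map_add _ _) (max_lt hx hy)

private theorem B1_m3 {F : Type} [Field F] (V : Valuation F (WithZero (Multiplicative ℤ)))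
    {a b : F} (ha : V a ≤ 1) (hb : V b ≤ 1) {u v : Fin 3 → F} (hu : ∀ i, V (u i) ≤ 1)
    (hv : ∀ i, V (v i) < 1) (i : Fin 3) : V (H76PP.m3 a b u v i) < 1 := by
  have ha' : a ∈ V.integer := ha
  have hb' : b ∈ V.integer := hb
  have hu' : ∀ i, u i ∈ V.integer := hu
  have e0 : H76PP.m3 a b u v 0 = v 0 * u 0 + (v 2 * (-(b * u 1)) + v 1 * (-(b * u 2))) := by
    simp [H76PP.m3]
    ring
  have e1 : H76PP.m3 a b u v 1 =
      v 1 * (u 0 - a * u 2) + (v 0 * u 1 + v 2 * (-(a * u 1) - b * u 2)) := by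
    simp [H76PP.m3]
    ring
  have e2 : H76PP.m3 a b u v 2 = v 2 * (u 0 - a * u 2) + (v 1 * u 1 + v 0 * u 2) := by
    simp [H76PP.m3]
    ring
  fin_cases i
  · show V (H76PP.m3 a b u v 0) < 1
    rw [e0]
    exact B1_ad V (B1_sm V (hv 0) (hu' 0)) (B1_ad V
      (B1_sm V (hv 2) (neg_mem (mul_mem hb' (hu' 1))))
      (B1_sm V (hv 1) (neg_mem (mul_mem hb' (hu' 2)))))
  · show V (H76PP.m3 a b u v 1) < 1
    rw [e1]
    exact B1_ad V (B1_sm V (hv 1) (sub_mem (hu' 0) (mul_mem ha' (hu' 2)))) (B1_ad V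
      (B1_sm V (hv 0) (hu' 1))
      (B1_sm V (hv 2) (sub_mem (neg_mem (mul_mem ha' (hu' 1))) (mul_mem hb' (hu' 2)))))
  · show V (H76PP.m3 a b u v 2) < 1
    rw [e2]
    exact B1_ad V (B1_sm V (hv 2) (sub_mem (hu' 0) (mul_mem ha' (hu' 2)))) (B1_ad V
      (B1_sm V (hv 1) (hu' 1)) (B1_sm V (hv 0) (hu' 2)))

private theorem B1_nf {F : Type} [Field F] (V : Valuation F (WithZero (Multiplicative ℤ)))
    {a b : F} (ha : V a ≤ 1) (hb : V b ≤ 1) {f : Fin 3 → F} (hf : ∀ i, V (f i) < 1) :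
    V (Te_nf a b ![1 + f 0, f 1, f 2] - 1) < 1 := by
  have ha' : a ∈ V.integer := ha
  have hb' : b ∈ V.integer := hb
  have hf' : ∀ i, f i ∈ V.integer := fun i => (hf i).le
  have h1 : 1 + f 0 ∈ V.integer := add_mem (one_mem _) (hf' 0)
  have e : Te_nf a b ![1 + f 0, f 1, f 2] - 1 =
      f 0 * (3 + 3 * f 0 + f 0 * f 0) +
      (f 1 * (a * (1 + f 0) * f 1 + 3 * b * (1 + f 0) * f 2 - b * (f 1 * f 1) - a * b * (f 2 * f 2)) +
      f 2 * (a * a * (1 + f 0) * f 2 + b * b * (f 2 * f 2) - 2 * a * ((1 + f 0) * (1 + f 0)))) := by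
    simp [Te_nf]
    ring
  rw [e]
  refine B1_ad V (B1_sm V (hf 0) ?_) (B1_ad V (B1_sm V (hf 1) ?_) (B1_sm V (hf 2) ?_))
  · exact add_mem (add_mem (B1_of3 V) (mul_mem (B1_of3 V) (hf' 0))) (mul_mem (hf' 0) (hf' 0))
  · exact sub_mem (sub_mem (add_mem (mul_mem (mul_mem ha' h1) (hf' 1))
      (mul_mem (mul_mem (mul_mem (B1_of3 V) hb') h1) (hf' 2)))
      (mul_mem hb' (mul_mem (hf' 1) (hf' 1)))) (mul_mem (mul_mem ha' hb') (mul_mem (hf' 2) (hf' 2)))
  · exact sub_mem (add_mem (mul_mem (mul_mem (mul_mem ha' ha') h1) (hf' 2))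
      (mul_mem (mul_mem hb' hb') (mul_mem (hf' 2) (hf' 2))))
      (mul_mem (mul_mem (B1_of2 V) ha') (mul_mem h1 h1))

private theorem B1_near {K : Type} [Field K] [NumberField K] {w : HeightOneSpectrum (𝓞 K)}
    (hw : OddP w) {x : K} (h : w.valuation K (x - 1) < 1) : x ≠ 0 ∧ sc x ∈ H30ZO.Sq w := by
  have hx : x ≠ 0 := by
    rintro rfl
    rw [zero_sub, Valuation.map_neg, map_one] at h
    exact lt_irrefl _ h
  refine ⟨hx, ?_⟩
  rw [H30ZO.mem_Sq hx]
  have _ : CharZero (w.adicCompletion K) := H36CY.char_zero w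
  have hv : ∀ y : K, Valued.v (algebraMap K (w.adicCompletion K) y) = w.valuation K y := fun y =>
    w.valuedAdicCompletion_eq_valuation' y
  obtain ⟨r, -, hr⟩ := H36CY.sq_near (F := w.adicCompletion K)
    (y := algebraMap K (w.adicCompletion K) x) (z := 1) (by
      have h1 : algebraMap K (w.adicCompletion K) x - 1 =
          algebraMap K (w.adicCompletion K) (x - 1) := by rw [map_sub, map_one]
      have h2 : (4 : w.adicCompletion K) * 1 = algebraMap K (w.adicCompletion K) (2 * 2) := by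
        rw [map_mul, map_ofNat]
        norm_num
      have h3 : w.valuation K 2 = 1 := hw
      rw [h1, h2, hv, hv, map_mul, h3, one_mul]
      exact h)
  exact ⟨r, by rw [hr]; ring⟩

private theorem B1_up {k L : Type} [Field k] [NumberField k] [Field L] [NumberField L]
    [Algebra k L] (w : HeightOneSpectrum (𝓞 L)) {x : k} (hx : x ≠ 0)
    (h : sc x ∈ H30ZO.Sq (dn k w)) : sc (algebraMap k L x) ∈ H30ZO.Sq w := by
  have hx' : (algebraMap k L) x ≠ 0 := (map_ne_zero (algebraMap k L)).2 hx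
  rw [H30ZO.mem_Sq hx']
  rw [H30ZO.mem_Sq hx] at h
  obtain ⟨y, hy⟩ := h
  refine ⟨(H36CY.over_dn (K := k) w).map y, ?_⟩
  rw [← Pool.Agent.H10.Over.map_algebraMap (H36CY.over_dn (K := k) w) x, hy, map_mul]

variable {M LM : Type} [Field M] [NumberField M] [Field LM] [NumberField LM] [Algebra M LM]

private theorem B1_th {A B : M} {θ : LM} (h : Cub M LM A B θ) (p : HeightOneSpectrum (𝓞 LM))
    (hA : (dn M p).valuation M A ≤ 1) (hB : (dn M p).valuation M B ≤ 1) :
    p.valuation LM θ ≤ 1 := by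
  have hA' := H76PP.val_le hA
  have hB' := H76PP.val_le hB
  by_contra hc
  rw [not_le] at hc
  have e : θ ^ 3 = -(algebraMap M LM A * θ + algebraMap M LM B) := by
    linear_combination h.root
  have h1 : p.valuation LM (θ ^ 3) ≤ p.valuation LM θ := by
    rw [e, Valuation.map_neg]
    refine (Valuation.map_add _ _ _).trans (max_le ?_ (hB'.trans hc.le))
    rw [map_mul]
    exact mul_le_of_le_one_left zero_le hA'
  rw [map_pow] at h1
  have h0 : 0 < p.valuation LM θ := lt_trans zero_lt_one hc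
  have h2 : p.valuation LM θ * 1 < p.valuation LM θ * p.valuation LM θ ^ 2 := by
    refine mul_lt_mul_of_pos_left ?_ h0
    exact one_lt_pow₀ hc two_ne_zero
  rw [mul_one, ← pow_succ'] at h2
  exact absurd h1 (not_le.2 h2)

/-- the elements close to `1` -/
private theorem B1_one {A B : M} {θ : LM} (h : Cub M LM A B θ) {v : HeightOneSpectrum (𝓞 M)}
    (hA : v.valuation M A ≤ 1) (hB : v.valuation M B ≤ 1) (hv : OddP v) {f : Fin 3 → M}
    (hf : ∀ i, v.valuation M (f i) < 1) :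
    Algebra.norm M (1 + ev θ f) ≠ 0 ∧ ∀ p : HeightOneSpectrum (𝓞 LM), dn M p = v →
      1 + ev θ f ≠ 0 ∧ sc (1 + ev θ f) ∈ H30ZO.Sq p ∧
        sc (algebraMap M LM (Algebra.norm M (1 + ev θ f))) ∈ H30ZO.Sq p := by
  have e : 1 + ev θ f = ev θ ![1 + f 0, f 1, f 2] := by
    simp [ev]
    ring
  have hn : v.valuation M (Algebra.norm M (1 + ev θ f) - 1) < 1 := by
    rw [e, H76PP.Te_norm h]
    exact B1_nf _ hA hB hf
  obtain ⟨hn0, hns⟩ := B1_near hv hn
  refine ⟨hn0, ?_⟩
  rintro p rfl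
  have hp : OddP p := (H76PP.oddP_dn (K := M)).2 hv
  have hθ := B1_th h p hA hB
  have h1 : p.valuation LM (1 + ev θ f - 1) < 1 := by
    rw [add_sub_cancel_left]
    have hθ' : θ ∈ (p.valuation LM).integer := hθ
    have e2 : ev θ f = algebraMap M LM (f 0) * 1 + (algebraMap M LM (f 1) * θ +
        algebraMap M LM (f 2) * (θ * θ)) := by
      simp only [ev]
      ring
    rw [e2]
    exact B1_ad _ (B1_sm _ (H76PP.val_lt (hf 0)) (one_mem _)) (B1_ad _
      (B1_sm _ (H76PP.val_lt (hf 1)) hθ') (B1_sm _ (H76PP.val_lt (hf 2)) (mul_mem hθ' hθ')))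
  obtain ⟨h2, h3⟩ := B1_near hp h1
  exact ⟨h2, h3, B1_up p hn0 hns⟩

theorem approx_cls {A B : M} {θ : LM} (h : Cub M LM A B θ)
    (hA : ∀ v : HeightOneSpectrum (𝓞 M), v.valuation M A ≤ 1)
    (hB : ∀ v : HeightOneSpectrum (𝓞 M), v.valuation M B ≤ 1)
    (U : Finset (HeightOneSpectrum (𝓞 M))) (hU : ∀ u ∈ U, OddP u) {u : HeightOneSpectrum (𝓞 M)}
    (hu : OddP u) {y : LM} (hy : y ≠ 0) (hN : IsSquare (Algebra.norm M y)) :
    ∃ y' : LM, y' ≠ 0 ∧ IsSquare (Algebra.norm M y') ∧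
      (∀ p : HeightOneSpectrum (𝓞 LM), dn M p = u → sc y' + sc y ∈ H30ZO.Sq p) ∧
      ∀ u' ∈ U, u' ≠ u → ∀ p : HeightOneSpectrum (𝓞 LM), dn M p = u' → sc y' ∈ H30ZO.Sq p := by
  classical
  have _ : FiniteDimensional M LM := Module.Finite.of_restrictScalars_finite ℚ M LM
  obtain ⟨c, hc⟩ : ∃ c : Fin 3 → M, ev θ c = y⁻¹ := by
    obtain ⟨c0, c1, c2, hc⟩ := h.sp y⁻¹
    exact ⟨![c0, c1, c2], by rw [hc]; simp [ev]⟩
  obtain ⟨d, hd⟩ : ∃ d : Fin 3 → M, ev θ d = y := by
    obtain ⟨c0, c1, c2, hc⟩ := h.sp y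
    exact ⟨![c0, c1, c2], by rw [hc]; simp [ev]⟩
  obtain ⟨m, hm⟩ := IsLocalization.exist_integer_multiples_of_finset (nonZeroDivisors (𝓞 M))
    (Finset.univ.image c)
  have hm0 : (m : 𝓞 M) ≠ 0 := nonZeroDivisors.ne_zero m.2
  have hmM : algebraMap (𝓞 M) M m ≠ 0 := by
    intro e
    exact hm0 ((FaithfulSMul.algebraMap_injective (𝓞 M) M) (by rw [e, map_zero]))
  have hmc : ∀ i, ∀ v : HeightOneSpectrum (𝓞 M),
      v.valuation M (algebraMap (𝓞 M) M m * c i) ≤ 1 := by
    intro i v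
    obtain ⟨a, ha⟩ := hm (c i) (Finset.mem_image_of_mem c (Finset.mem_univ i))
    rw [Algebra.smul_def] at ha
    have e : algebraMap (𝓞 M) M m * c i = algebraMap (𝓞 M) M a := ha.symm
    rw [e]
    exact v.valuation_le_one a
  have hε : u.valuation M (algebraMap (𝓞 M) M m) ≠ 0 := (Valuation.ne_zero_iff _).2 hmM
  have hε1 : u.valuation M (algebraMap (𝓞 M) M m) ≤ 1 := u.valuation_le_one _
  have hw : ∀ i : Fin 3, ∃ z : M, ∀ V ∈ insert u U, V.valuation M
      (z - (if V = u then d i else (![1, 0, 0] : Fin 3 → M) i)) <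
        u.valuation M (algebraMap (𝓞 M) M m) := fun i =>
    H30OD.weak_app (insert u U) (fun V => if V = u then d i else (![1, 0, 0] : Fin 3 → M) i) hε
  choose z hz using hw
  have hzu : ∀ i, u.valuation M (z i - d i) < u.valuation M (algebraMap (𝓞 M) M m) := by
    intro i
    have h1 := hz i u (Finset.mem_insert_self _ _)
    rwa [if_pos rfl] at h1
  have hzU : ∀ u' ∈ U, u' ≠ u → ∀ i, u'.valuation M (z i - (![1, 0, 0] : Fin 3 → M) i) < 1 := by
    intro u' hu' hne i
    have h1 := hz i u' (Finset.mem_insert_of_mem hu')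
    rw [if_neg hne] at h1
    exact lt_of_lt_of_le h1 hε1
  -- the shape at `u`
  obtain ⟨f, hf, hfe⟩ : ∃ f : Fin 3 → M, (∀ i, u.valuation M (f i) < 1) ∧
      ev θ z = y * (1 + ev θ f) := by
    refine ⟨H76PP.m3 A B (fun i => algebraMap (𝓞 M) M m * c i)
      (fun i => (z i - d i) / algebraMap (𝓞 M) M m), ?_, ?_⟩
    · intro i
      refine B1_m3 _ (hA u) (hB u) (fun i => hmc i u) (fun i => ?_) i
      rw [map_div₀, div_lt_one₀ (zero_lt_iff.2 hε)]
      exact hzu i
    · rw [← H76PP.Te_ev_mul h]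
      have e1 : ev θ (fun i => algebraMap (𝓞 M) M m * c i) =
          algebraMap M LM (algebraMap (𝓞 M) M m) * y⁻¹ := by
        rw [← hc]
        simp only [ev, map_mul]
        ring
      have hmL : algebraMap M LM (algebraMap (𝓞 M) M m) ≠ 0 :=
        (map_ne_zero (algebraMap M LM)).2 hmM
      have e2 : algebraMap M LM (algebraMap (𝓞 M) M m) *
          ev θ (fun i => (z i - d i) / algebraMap (𝓞 M) M m) = ev θ z - y := by
        rw [← hd]
        simp only [ev, map_div₀, map_sub]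
        field_simp
        ring
      have e3 : y * (1 + ev θ (fun i => algebraMap (𝓞 M) M m * c i) *
          ev θ (fun i => (z i - d i) / algebraMap (𝓞 M) M m)) =
          y + (y * y⁻¹) * (algebraMap M LM (algebraMap (𝓞 M) M m) *
            ev θ (fun i => (z i - d i) / algebraMap (𝓞 M) M m)) := by
        rw [e1]
        ring
      rw [e3, e2, mul_inv_cancel₀ hy]
      ring
  obtain ⟨hNf, hpf⟩ := B1_one h (hA u) (hB u) hu hf
  have hf0 : 1 + ev θ f ≠ 0 := by
    intro e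
    rw [e, Algebra.norm_zero] at hNf
    exact hNf rfl
  have hz0 : ev θ z ≠ 0 := by
    rw [hfe]
    exact mul_ne_zero hy hf0
  have hNz : Algebra.norm M (ev θ z) ≠ 0 := Algebra.norm_ne_zero_iff.2 hz0
  have hNzL : algebraMap M LM (Algebra.norm M (ev θ z)) ≠ 0 := (map_ne_zero (algebraMap M LM)).2 hNz
  refine ⟨ev θ z * algebraMap M LM (Algebra.norm M (ev θ z)), mul_ne_zero hz0 hNzL, ?_, ?_, ?_⟩
  · rw [map_mul, Algebra.norm_algebraMap, h.finrank]
    exact ⟨Algebra.norm M (ev θ z) ^ 2, by ring⟩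
  · intro p hp
    obtain ⟨-, h2, h3⟩ := hpf p hp
    rw [H38T1.sc_mul hz0 hNzL, hfe, map_mul, map_mul, H38T1.sc_mul hy hf0]
    have hNy : Algebra.norm M y ≠ 0 := Algebra.norm_ne_zero_iff.2 hy
    have hNyL : algebraMap M LM (Algebra.norm M y) ≠ 0 := (map_ne_zero (algebraMap M LM)).2 hNy
    have hNfL : algebraMap M LM (Algebra.norm M (1 + ev θ f)) ≠ 0 :=
      (map_ne_zero (algebraMap M LM)).2 hNf
    rw [H38T1.sc_mul hNyL hNfL]
    have h4 : sc (algebraMap M LM (Algebra.norm M y)) = 0 := by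
      rw [H38T1.sc_eq_zero hNyL]
      obtain ⟨s, hs⟩ := hN
      exact ⟨algebraMap M LM s, by rw [hs, map_mul]⟩
    have h5 : sc y + sc y = 0 := by
      rw [← H38T1.sc_mul hy hy, H38T1.sc_eq_zero (mul_ne_zero hy hy)]
      exact ⟨y, rfl⟩
    rw [h4, zero_add]
    have h6 : sc y + sc (1 + ev θ f) + sc (algebraMap M LM (Algebra.norm M (1 + ev θ f))) + sc y =
        (sc y + sc y) + (sc (1 + ev θ f) + sc (algebraMap M LM (Algebra.norm M (1 + ev θ f)))) := by
      abel
    rw [h6, h5, zero_add]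
    exact add_mem h2 h3
  · intro u' hu' hne p hp
    obtain ⟨g, hg, hge⟩ : ∃ g : Fin 3 → M, (∀ i, u'.valuation M (g i) < 1) ∧
        ev θ z = 1 + ev θ g := by
      refine ⟨fun i => z i - (![1, 0, 0] : Fin 3 → M) i, hzU u' hu' hne, ?_⟩
      simp [ev]
      ring
    obtain ⟨-, hpg⟩ := B1_one h (hA u') (hB u') (hU u' hu') hg
    obtain ⟨-, h2, h3⟩ := hpg p hp
    rw [H38T1.sc_mul hz0 hNzL, hge]
    exact add_mem h2 h3

end H88GT
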