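import Pool.Agent.H88.GT.Df
import Pool.Agent.H30.GN2.Xb

/-!
ROW C1 (MP_78d38b_GT). `H30OR.loc3` (Pool/Agent/H30/OR/Td.lean) with one more conclusion: the functionals are independent.

PROOF. Copy the proof of `loc3`. In it the classes `c` with `lc3 0 c`, `lc3 2 c` in `{0, n}` (surj3) have `R0 = R1 = 0` (hnn) and arbitrary values `U0, U1`, and the classes with `lc3 0 c`, `lc3 2 c` in `{0, g}` have arbitrary values `R0, R1`: add a class of the
first kind to one of the second kind to correct the values of `U0, U1` (the functionals are additive).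
-/

set_option autoImplicit false
set_option linter.unusedSectionVars false
open scoped Classical

open WithZero NumberField IsDedekindDomain H38RT
open H38T1 (SC sc scu rep eo la si OddP)
open H36MX (hsv)
open H76MQ (al be)
open H76PP (Cub LC ev scm dn Te_nf)
open H36CY (DescAt)
open H30ZO (nb HH Wc)
open H30OR (LocD)
open H88GX (Ext)

namespace H88GT


theorem loc3_js {K L : Type} [Field K] [NumberField K] [Field L] [NumberField L] [Algebra K L]
    {v : HeightOneSpectrum (𝓞 K)} {a b : K} {θ : L} (h : Cub K L a b θ) (hv : OddP v)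
    (ha : v.valuation K a ≤ 1) (hb : v.valuation K b ≤ 1)
    (hd : v.valuation K (4 * a ^ 3 + 27 * b ^ 2) = 1) (hnb : nb K L v ≤ 3)
    {e : Fin 3 → v.adicCompletion K}
    (hs : H30OR.R3 (algebraMap K (v.adicCompletion K) a) (algebraMap K (v.adicCompletion K) b) e)
    {D E : K} (hD : D ≠ 0) (hDe : Even (ord (v.valuation K) D)) (hE : E ≠ 0)
    (hEo : Odd (ord (v.valuation K) E)) :
    ∃ r u : Fin 2 → (SC L →+ ZMod 2), LocD h v D E r u ∧
      ∀ z z' : Fin 2 → ZMod 2, ∃ c ∈ HH K L, (∀ i, r i c = z i) ∧ ∀ i, u i c = z' i :=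
  H30GN.loc3J h hv ha hb hd hnb hs hD hDe hE hEo

end H88GT
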