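import Pool.Agent.H88.GT.Dq
import Pool.Agent.H88.GX.Nb2

/-!
ROW D4 (MP_78d38b_GT). Restriction of the local conditions.

PROOF. `Wc` over `M` at `u = dn M V` for `sc y`: coordinates `d : Fin 3 → M` with `sc (ev θE d) = sc y` and `LC`.  Take the coordinates `algebraMap M N (d i)` over `N`; `LC` is mapped by the continuous map of the completions `M_u → N_V` (Pool.Agent.H10.adicLift as in `H42GN.ig_sq`, Pool/Agent/H42/GN/Ig.lean)
with `LC_map` (Pool/Agent/H73/CY/Lo.lean or H76/CQ/Qe.lean); bookkeeping for `ev`: `lift_ev` as in Pool/Agent/H42/GN/Id.lean; square classes: `H76PP.scm_sc`.  No condition on `V` is needed.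
-/

set_option autoImplicit false
set_option linter.unusedSectionVars false
open scoped Classical

open WithZero NumberField IsDedekindDomain H38RT
open H38T1 (SC sc scu rep eo la si OddP)
open H36MX (hsv)
open H76MQ (al be)
open H76PP (Cub LC ev scm dn Te_nf)
open H36CY (DescAt)
open H30ZO (nb HH Wc)
open H30OR (LocD)
open H88GX (Ext)

namespace H88GT

variable {K N LN : Type} [Field K] [NumberField K] [Field N] [NumberField N] [Field LN]
  [NumberField LN] [Algebra K N] [Algebra N LN] {a b : K} {θ : LN} {S : Ext K N LN a b θ}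
  {Sg : Finset (HeightOneSpectrum (𝓞 K))} {D0 D : K}

variable {M LM : Type} [Field M] [NumberField M] [Field LM] [NumberField LM] [Algebra K M]
  [Algebra M N] [IsScalarTower K M N] [Algebra M LM] [Algebra LM LN] {θM : LM} {ψ : N ≃ₐ[K] N}

/-- elements with given coordinates under the inclusion of the cubic fields -/
theorem D4_ev (q : QV M S θM ψ) (E : K) (d : Fin 3 → M) :
    algebraMap LM LN (ev (algebraMap M LM (algebraMap K M E) * θM) d) =
      ev (algebraMap N LN (algebraMap K N E) * θ) (fun i => algebraMap M N (d i)) := by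
  have hab : ∀ x : K, algebraMap K N x = algebraMap M N (algebraMap K M x) :=
    IsScalarTower.algebraMap_apply K M N
  unfold H76PP.ev
  simp only [map_add, map_mul, map_pow, q.ml, q.th, hab]

theorem QV.up (q : QV M S θM ψ) {E : K} (hE : E ≠ 0) (V : HeightOneSpectrum (𝓞 N)) {y : LM}
    (hy : y ≠ 0)
    (h : Wc (algebraMap M ((dn M V).adicCompletion M)) ((algebraMap K M E) ^ 2 * algebraMap K M a)
      ((algebraMap K M E) ^ 3 * algebraMap K M b) (algebraMap M LM (algebraMap K M E) * θM)
      (sc y)) : S.Lv E V (sc (algebraMap LM LN y)) := by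
  obtain ⟨d, hd0, hdc, hL⟩ := h
  have hab : ∀ x : K, algebraMap K N x = algebraMap M N (algebraMap K M x) :=
    IsScalarTower.algebraMap_apply K M N
  have hev := D4_ev (S := S) q E d
  refine ⟨fun i => algebraMap M N (d i), ?_, ?_, ?_⟩
  · rw [← hev]
    exact (map_ne_zero _).2 hd0
  · rw [← hev]
    have h1 := H76PP.scm_sc (algebraMap LM LN : LM →* LN) hy
    have h2 := H76PP.scm_sc (algebraMap LM LN : LM →* LN) hd0
    rw [hdc] at h2
    exact h2.symm.trans h1
  · have h1 := H73CY.LC_map (j := (algebraMap N (V.adicCompletion N)).comp (algebraMap M N))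
      (Pool.Agent.H10.adicLift (dn M V) ((algebraMap N (V.adicCompletion N)).comp (algebraMap M N))
        (Pool.Agent.H10.continuous_fromVal (dn M V) _ (H42GN.ig_nhds V)))
      (fun x => Pool.Agent.H10.adicLift_algebraMap (dn M V) _ _ x) hL
    have e1 : algebraMap K N (E ^ 2 * a) =
        algebraMap M N ((algebraMap K M E) ^ 2 * algebraMap K M a) := by
      rw [hab, map_mul (algebraMap K M), map_pow (algebraMap K M)]
    have e2 : algebraMap K N (E ^ 3 * b) =
        algebraMap M N ((algebraMap K M E) ^ 3 * algebraMap K M b) := by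
      rw [hab, map_mul (algebraMap K M), map_pow (algebraMap K M)]
    rw [e1, e2]
    exact h1

end H88GT
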