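import Pool.Agent.H42.GN.Ig
import Pool.Agent.H26.GN.Nec

/-!
MP_78d38b_GN2 (helper88): interface for the necessity of the criterion without the condition on the valuations of `D / D0`.
Plan: /team-store/H88_78d38b_GN2.md.
-/

set_option autoImplicit false
set_option linter.unusedSectionVars false
open scoped Classical

open WithZero NumberField IsDedekindDomain H38RT
open H38T1 (SC sc scu rep eo la si OddP)
open H36MX (hsv)
open H76MQ (al be)
open H76PP (Cub LC ev scm dn)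
open H30ZO (nb HH)
open H88GX (Ext)

namespace H88GT

/-- The decomposition group of the place `V` of `F` over `K`. -/
def St (K : Type) {F : Type} [Field K] [NumberField K] [Field F] [NumberField F] [Algebra K F]
    (V : HeightOneSpectrum (𝓞 F)) : Subgroup (F ≃ₐ[K] F) where
  carrier := {g | H88OD.gq g • V = V}
  mul_mem' := by
    intro g h hg hh
    change H88OD.gq (g * h) • V = V
    have e : H88OD.gq (g * h) = H88OD.gq g * H88OD.gq h := rfl
    rw [e, mul_smul]
    rw [show H88OD.gq h • V = V from hh]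
    exact hg
  one_mem' := by
    change H88OD.gq (1 : F ≃ₐ[K] F) • V = V
    have e : H88OD.gq (1 : F ≃ₐ[K] F) = 1 := rfl
    rw [e, one_smul]
  inv_mem' := by
    intro g hg
    change H88OD.gq g⁻¹ • V = V
    have h : H88OD.gq g • V = V := hg
    have e : H88OD.gq g⁻¹ = (H88OD.gq g)⁻¹ := rfl
    rw [e, inv_smul_eq_iff]
    exact h.symm

theorem mem_St {K F : Type} [Field K] [NumberField K] [Field F] [NumberField F] [Algebra K F]
    {V : HeightOneSpectrum (𝓞 F)} {g : F ≃ₐ[K] F} : g ∈ St K V ↔ H88OD.gq g • V = V := Iff.rfl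

/-- The local package at the place `V` of `F`: functionals `r i` (for the twist by `D0`) and `u i` (for the twist by `D`) on the
square classes, compatible with the subgroup `C` of odd order of the decomposition group. -/
structure LP {K F L : Type} [Field K] [NumberField K] [Field F] [NumberField F] [Field L]
    [NumberField L] [Algebra K F] [Algebra F L] {a b : K} {θ : L} (S : Ext K F L a b θ)
    (V : HeightOneSpectrum (𝓞 F)) (D0 D : K) {n : ℕ} (C : Subgroup (F ≃ₐ[K] F))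
    (r u : Fin n → (SC L →+ ZMod 2)) : Prop where
  le : C ≤ St K V
  odd : Odd (Nat.card C)
  card : (nb F L V - 1) * Nat.card C = n * Nat.card (St K V)
  hr : ∀ c ∈ HH F L, (S.Lv D0 V c ↔ ∀ d ∈ St K V, ∀ i, r i (S.ρ d • c) = 0)
  hu : ∀ c ∈ HH F L, (S.Lv D V c ↔ ∀ d ∈ St K V, ∀ i, u i (S.ρ d • c) = 0)
  hq : ∀ [Fintype (St K V)], ∀ c ∈ HH F L, ∀ y : L, y ≠ 0 → sc y = c → al S.cub y ≠ 0 →
    be S.cub y ≠ 0 → hsv V (al S.cub y) (be S.cub y) =
      ∑ d : St K V, ∑ i, r i (S.ρ (d : F ≃ₐ[K] F) • c) * u i (S.ρ (d : F ≃ₐ[K] F) • c)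
  eqv : ∀ c ∈ C, ∀ i, ∃ A : Fin n → ZMod 2, ∀ x ∈ HH F L, u i (S.ρ c • x) = ∑ j, A j * u j x
  inv : ∀ c ∈ C, ∀ x ∈ HH F L, ∀ y ∈ HH F L,
    ∑ i, r i (S.ρ c • x) * u i (S.ρ c • y) = ∑ i, r i x * u i y
  fix : ∀ [Fintype (St K V)], ∀ ψ ∈ St K V, ψ * ψ = 1 → ψ ≠ 1 → ∀ x ∈ HH F L,
    ∑ d : St K V, ∑ i, r i (S.ρ (d : F ≃ₐ[K] F) • x) *
        u i (S.ρ (d : F ≃ₐ[K] F) • (x + S.ρ ψ • x)) =
      if S.Lv D0 V (x + S.ρ ψ • x) ∨ S.Lv D V (x + S.ρ ψ • x) then 0 else 1

end H88GT
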