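import Pool.Agent.H88.GT.Df
import Pool.Agent.H36.CY.Df
import Pool.Agent.H73.P2.Df

/-!
MP_78d38b_GN2 (helper88): the quadratic situation.
-/

set_option autoImplicit false
set_option linter.unusedSectionVars false
open scoped Classical

open WithZero NumberField IsDedekindDomain H38RT
open H38T1 (SC sc scu rep eo la si OddP)
open H76PP (Cub LC ev scm dn)
open H30ZO (nb HH Wc)
open H88GX (Ext)

namespace H88GT

/-- `M` is the fixed field of the involution `ψ` of `N / K`, `LM = M(θM)` the cubic field below `LN = N(θ)`. -/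
structure QV {K N LN LM : Type} (M : Type) [Field K] [NumberField K] [Field M] [NumberField M] [Field N]
    [NumberField N] [Field LM] [NumberField LM] [Field LN] [NumberField LN] [Algebra K M]
    [Algebra K N] [Algebra M N] [IsScalarTower K M N] [Algebra M LM] [Algebra N LN] [Algebra LM LN]
    {a b : K} {θ : LN} (S : Ext K N LN a b θ) (θM : LM) (ψ : N ≃ₐ[K] N) : Prop where
  cub : Cub M LM (algebraMap K M a) (algebraMap K M b) θM
  ml : ∀ x : M, algebraMap LM LN (algebraMap M LM x) = algebraMap N LN (algebraMap M N x)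
  th : algebraMap LM LN θM = θ
  gal : IsGalois M N
  two : Module.finrank M N = 2
  inv : ψ * ψ = 1
  ne1 : ψ ≠ 1
  aut : ∀ h : N ≃ₐ[M] N, h = 1 ∨ h.restrictScalars K = ψ
  ex : ∃ h : N ≃ₐ[M] N, h.restrictScalars K = ψ

end H88GT
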