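import Pool.Agent.H88.GT.Dq
import Pool.Agent.H42.GN.Ib
import Pool.Agent.H88.GX.Nb2
import Pool.Agent.H30.OR.Th

/-!
ROW F0 (MP_78d38b_GT). The decomposition group and the local data.

PROOF. `S.Lv D0 V c ↔ ∀ i, r i c = 0` for `c ∈ HH` (H30GX.Lv_iff, LocD.hr; as hLD0 in Pool/Agent/H42/GN/Ih.lean) and `S.Lv D0 V (S.ρ d • c) ↔ S.Lv D0 V c` for `d ∈ St K V` (H88GX.Lv_smul: `gq d • V = V`): the last two claims.
The first: `x = sc y` with `al S.cub y ≠ 0`, `be S.cub y ≠ 0` (exists_YX as in `H30OR.rec_all`, Pool/Agent/H30/OR/Th.lean), `LocD.hq` for `y` and for `S.ρ d y` (al_act, be_act in Pool/Agent/H42/GN/Ib.lean: its `al`, `be` are nonzero) and `hsv_act`: `hsv (gq d • V) _ _ = hsv V _ _` (see the end of `fix_sum_M` in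
Pool/Agent/H42/GN/Ie.lean for the same computation).
-/

set_option autoImplicit false
set_option linter.unusedSectionVars false
open scoped Classical

open WithZero NumberField IsDedekindDomain H38RT
open H38T1 (SC sc scu rep eo la si OddP)
open H36MX (hsv)
open H76MQ (al be)
open H76PP (Cub LC ev scm dn Te_nf)
open H36CY (DescAt)
open H30ZO (nb HH Wc)
open H30OR (LocD)
open H88GX (Ext)

namespace H88GT

variable {K N LN : Type} [Field K] [NumberField K] [Field N] [NumberField N] [Field LN]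
  [NumberField LN] [Algebra K N] [Algebra N LN] {a b : K} {θ : LN} {S : Ext K N LN a b θ}
  {Sg : Finset (HeightOneSpectrum (𝓞 K))} {D0 D : K}

theorem loc_inv {V : HeightOneSpectrum (𝓞 N)} {m : ℕ} {r u : Fin m → (SC LN →+ ZMod 2)}
    (hl : LocD S.cub V (algebraMap K N D0) (algebraMap K N D) r u) {d : N ≃ₐ[K] N}
    (hd : d ∈ St K V) {x : SC LN} (hx : x ∈ HH N LN) :
    (∑ i, r i (S.ρ d • x) * u i (S.ρ d • x) = ∑ i, r i x * u i x) ∧
      ((∀ i, r i x = 0) → ∀ i, r i (S.ρ d • x) = 0) ∧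
      ((∀ i, u i x = 0) → ∀ i, u i (S.ρ d • x) = 0) := by
  have hr : ∀ c ∈ HH N LN, (S.Lv D0 V c ↔ ∀ i, r i c = 0) := by
    intro c hc
    rw [H30GX.Lv_iff]
    exact hl.hr c hc
  have hu : ∀ c ∈ HH N LN, (S.Lv D V c ↔ ∀ i, u i c = 0) := by
    intro c hc
    rw [H30GX.Lv_iff]
    exact hl.hu c hc
  have hdV : H88OD.gq d • V = V := hd
  have hact : ∀ (E : K) (c : SC LN), S.Lv E V (S.ρ d • c) ↔ S.Lv E V c := by
    intro E c
    have h1 := H88GX.Lv_smul S E d V c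
    rwa [show H88GX.gq d • V = V from hdV] at h1
  have hdx := H88GX.HH_smul S d hx
  refine ⟨?_, fun h => (hr _ hdx).1 ((hact D0 x).2 ((hr x hx).2 h)),
    fun h => (hu _ hdx).1 ((hact D x).2 ((hu x hx).2 h))⟩
  obtain ⟨y, hy, hyc⟩ := H38T1.sc_surj x
  obtain ⟨Y, hY, ha, hb⟩ := H76MX.exists_YX S.cub hy
  obtain ⟨y', hy'⟩ : ∃ y', y' = y * Y ^ 2 := ⟨_, rfl⟩
  have hy0 : y' ≠ 0 := by
    rw [hy']
    exact mul_ne_zero hy (pow_ne_zero 2 hY)
  have hsc : sc y' = x := by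
    rw [hy', H38T1.sc_mul hy (pow_ne_zero 2 hY), H54MT.sc_sq hY, add_zero, hyc]
  rw [← hy'] at ha hb
  have h1 := hl.hq x hx y' hy0 hsc ha hb
  have hg : ∀ z : N, z ≠ 0 → d z ≠ 0 := fun z hz => (map_ne_zero _).2 hz
  have h2 := hl.hq (S.ρ d • x) hdx (S.ρ d y') (H38T1.Eb_ne _ hy0)
    (by rw [← H38T1.smul_sc _ hy0, hsc])
    (by rw [H42GN.al_act]; exact hg _ ha) (by rw [H42GN.be_act]; exact hg _ hb)
  rw [← h1, ← h2, H42GN.al_act, H42GN.be_act]
  have h3 := H76SD.hsv_smul (H88OD.gq d) V (al S.cub y') (be S.cub y')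
  rw [hdV] at h3
  exact h3

end H88GT
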