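import Pool.Agent.H88.GT.Dq
import Pool.Agent.H42.GN.Ie

/-!
ROW G0 (MP_78d38b_GT). Fibres of `(v, k) ↦ dn M (gq k⁻¹ • W v)`.

PROOF. Modify `H42GN.sum_fib` (Pool/Agent/H42/GN/Ie.lean), where the decomposition groups are trivial and `k` is replaced by its inverse.  `q w` is the sum of `F v k` over all `(v, k)` with `dn M (gq k⁻¹ • W v) = w` (Finset.sum_fiberwise_of_maps_to).  For `w ∈ TM` there is such a pair `(v, k₀)` (Gc_trans), and
`dn M (gq k⁻¹ • W v') = w` iff `v' = v` and `gq k⁻¹ • W v = gq (p⁻¹ k₀⁻¹) • W v` for some `p ∈ P` (Gc_trans over `M`) iff `k = d * k₀ * p` for some `d ∈ St K (W v)`, `p ∈ P`.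
-/

set_option autoImplicit false
set_option linter.unusedSectionVars false
open scoped Classical

open WithZero NumberField IsDedekindDomain H38RT
open H38T1 (SC sc scu rep eo la si OddP)
open H36MX (hsv)
open H76MQ (al be)
open H76PP (Cub LC ev scm dn Te_nf)
open H36CY (DescAt)
open H30ZO (nb HH Wc)
open H30OR (LocD)
open H88GX (Ext)

namespace H88GT

variable {K N : Type} [Field K] [NumberField K] [Field N] [NumberField N] [Algebra K N]
variable {M : Type} [Field M] [NumberField M] [Algebra K M] [Algebra M N] [IsScalarTower K M N]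

theorem fib_sum (hgal : IsGalois M N) (hgK : IsGalois K N) (P : Subgroup (N ≃ₐ[K] N))
    (hMP : ∀ h : N ≃ₐ[M] N, h.restrictScalars K ∈ P)
    (hPM : ∀ p ∈ P, ∃ h : N ≃ₐ[M] N, h.restrictScalars K = p)
    {T : Finset (HeightOneSpectrum (𝓞 K))} (W : {v // v ∈ T} → HeightOneSpectrum (𝓞 N))
    (hW : ∀ v, dn K (W v) = v.1)
    {TM : Finset (HeightOneSpectrum (𝓞 M))} (hTM : ∀ w, w ∈ TM ↔ dn K w ∈ T)
    [Fintype (N ≃ₐ[K] N)] (F : {v // v ∈ T} → (N ≃ₐ[K] N) → ZMod 2) :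
    ∃ q : HeightOneSpectrum (𝓞 M) → ZMod 2,
      (∀ w ∈ TM, ∃ (v : {v // v ∈ T}) (k₀ : N ≃ₐ[K] N), dn M (H88OD.gq k₀⁻¹ • W v) = w ∧
        q w = ∑ k ∈ Finset.univ.filter (fun k => ∃ d ∈ St K (W v), ∃ p ∈ P, k = d * k₀ * p),
          F v k) ∧ ∑ v, ∑ k, F v k = ∑ w ∈ TM, q w := by
  have hdd : ∀ v : HeightOneSpectrum (𝓞 N), dn K (dn M v) = dn K v := fun v => H73P2.dn_dn v
  have hmap : ∀ (v : {v // v ∈ T}) (k : N ≃ₐ[K] N), dn K (dn M (H88OD.gq k • W v)) = v.1 := by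
    intro v k
    rw [hdd, H88OD.dn_gq, hW]
  have hdn : ∀ (p : N ≃ₐ[K] N) (V : HeightOneSpectrum (𝓞 N)), p ∈ P →
      dn M (H88OD.gq p • V) = dn M V := by
    intro p V hp
    obtain ⟨h, rfl⟩ := hPM p hp
    exact H88OD.dn_gq h _
  refine ⟨fun w => ∑ z ∈ (Finset.univ : Finset ({v // v ∈ T} × (N ≃ₐ[K] N))).filter
    (fun z => dn M (H88OD.gq z.2⁻¹ • W z.1) = w), F z.1 z.2, ?_, ?_⟩
  · intro w hw
    obtain ⟨V, hV⟩ := H76PP.exists_above (L := N) w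
    have hVT : dn K V ∈ T := by
      rw [← hdd, hV]
      exact (hTM w).1 hw
    obtain ⟨g, hg⟩ := H88GX.Gc_trans (K := K) (v := V) (v' := W ⟨_, hVT⟩) (by rw [hW])
    obtain ⟨v, hv⟩ : ∃ v : {v // v ∈ T}, v = ⟨_, hVT⟩ := ⟨_, rfl⟩
    rw [← hv] at hg
    have hg' : dn M (H88OD.gq (g⁻¹)⁻¹ • W v) = w := by
      rw [inv_inv, ← hV, hg]
    refine ⟨v, g⁻¹, hg', ?_⟩
    obtain ⟨k₀, hk₀⟩ : ∃ k₀, k₀ = g⁻¹ := ⟨_, rfl⟩
    rw [← hk₀] at hg' ⊢
    symm
    refine Finset.sum_bij (fun (k : N ≃ₐ[K] N) _ => (v, k)) ?_ ?_ ?_ fun _ _ => rfl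
    · intro k hk
      rw [Finset.mem_filter] at hk ⊢
      obtain ⟨-, d, hd, p, hp, rfl⟩ := hk
      refine ⟨Finset.mem_univ _, ?_⟩
      show dn M (H88OD.gq (d * k₀ * p)⁻¹ • W v) = w
      have e : (d * k₀ * p)⁻¹ = p⁻¹ * (k₀⁻¹ * d⁻¹) := by
        rw [mul_inv_rev, mul_inv_rev]
      have hd' : H88OD.gq d⁻¹ • W v = W v := (St K (W v)).inv_mem hd
      rw [e, H42GN.gq_mul, mul_smul, hdn _ _ (P.inv_mem hp), H42GN.gq_mul, mul_smul, hd', hg']
    · intro k _ k' _ h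
      exact congrArg Prod.snd h
    · rintro ⟨v', k⟩ hz
      rw [Finset.mem_filter] at hz
      have h0 : dn M (H88OD.gq k⁻¹ • W v') = dn M (H88OD.gq k₀⁻¹ • W v) := hz.2.trans hg'.symm
      have h1 : v' = v := by
        have h2 := congrArg (dn K) h0
        rw [hmap, hmap] at h2
        exact Subtype.ext h2
      subst h1
      obtain ⟨m, hm⟩ := H88GX.Gc_trans h0
      have hm' : H88OD.gq k⁻¹ • W v' = H88OD.gq (m.restrictScalars K) • H88OD.gq k₀⁻¹ • W v' := hm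
      refine ⟨k, ?_, rfl⟩
      rw [Finset.mem_filter]
      refine ⟨Finset.mem_univ _, k * (m.restrictScalars K * k₀⁻¹), ?_,
        (m.restrictScalars K)⁻¹, P.inv_mem (hMP m), by group⟩
      show H88OD.gq (k * (m.restrictScalars K * k₀⁻¹)) • W v' = W v'
      rw [H42GN.gq_mul, H42GN.gq_mul, mul_smul, mul_smul, ← hm', ← mul_smul, ← H42GN.gq_mul,
        mul_inv_cancel, H42GN.gq_one', one_smul]
  · have h1 : ∑ v, ∑ k, F v k = ∑ z : {v // v ∈ T} × (N ≃ₐ[K] N), F z.1 z.2 :=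
      (Fintype.sum_prod_type' F).symm
    rw [h1, ← Finset.sum_fiberwise_of_maps_to (s := Finset.univ) (t := TM)
      (g := fun z : {v // v ∈ T} × (N ≃ₐ[K] N) => dn M (H88OD.gq z.2⁻¹ • W z.1)) (fun z _ => by
        rw [hTM, hmap]
        exact z.1.2)]

end H88GT
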