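import Pool.Agent.H88.GT.Dq
import Pool.Agent.H42.GN.Id

/-!
ROW G1 (MP_78d38b_GT). Reciprocity over `M` for a class fixed by the group of `N / M`, with arbitrary decomposition groups.

PROOF. Modify `H42GN.fix_sum_aux` (Pool/Agent/H42/GN/Id.lean): the hypothesis `hq` is now given over `M`, so the last part of the proof (V, hsv_down) is replaced by `hq`; `IsSquare (Algebra.norm M y)` because `sc y = sc (ev _ e)` is in `HH M LM` (he3, H76PP.Te_norm, H30ZO.mem_HH).
-/

set_option autoImplicit false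
set_option linter.unusedSectionVars false
open scoped Classical

open WithZero NumberField IsDedekindDomain H38RT
open H38T1 (SC sc scu rep eo la si OddP)
open H36MX (hsv)
open H76MQ (al be)
open H76PP (Cub LC ev scm dn Te_nf)
open H36CY (DescAt)
open H30ZO (nb HH Wc)
open H30OR (LocD)
open H88GX (Ext)

namespace H88GT

variable {K N LN : Type} [Field K] [NumberField K] [Field N] [NumberField N] [Field LN]
  [NumberField LN] [Algebra K N] [Algebra N LN] {a b : K} {θ : LN} {S : Ext K N LN a b θ}
  {Sg : Finset (HeightOneSpectrum (𝓞 K))} {D0 D : K}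

theorem fix_rec {M : Type} [Field M] [NumberField M] [Algebra K M] [Algebra M N]
    [IsScalarTower K M N] (hgal : IsGalois M N) {r : ℕ} (hr : Module.finrank M N = 2 ^ r)
    (hok : S.Ok D Sg) (hreal : H30ZO.RealAt K N a b)
    (hdesc : ∀ v ∈ Sg, DescAt K N v (D ^ 2 * a) (D ^ 3 * b))
    (hram : ∀ V : HeightOneSpectrum (𝓞 N), dn K V ∉ Sg → ¬ H73P2.Ram K V)
    {T : Finset (HeightOneSpectrum (𝓞 K))} (hT : ∀ v ∈ T, v ∉ Sg) {c : SC LN} (hY : S.Y D Sg T c)
    (hE : ∃ e : Fin 3 → M,
      ev (algebraMap N LN (algebraMap K N D) * θ) (fun i => algebraMap M N (e i)) ≠ 0 ∧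
      sc (ev (algebraMap N LN (algebraMap K N D) * θ) (fun i => algebraMap M N (e i))) = c ∧
      IsSquare (Te_nf (algebraMap K M (D ^ 2 * a)) (algebraMap K M (D ^ 3 * b)) e))
    {TM : Finset (HeightOneSpectrum (𝓞 M))} (hTM : ∀ w, w ∈ TM ↔ dn K w ∈ T)
    {q : HeightOneSpectrum (𝓞 M) → ZMod 2}
    (hq : ∀ w ∈ TM, ∀ (LM : Type) [Field LM] [NumberField LM] [Algebra M LM] [Algebra LM LN]
      (θM : LM) (hM : Cub M LM (algebraMap K M a) (algebraMap K M b) θM),
      (∀ x : M, algebraMap LM LN (algebraMap M LM x) = algebraMap N LN (algebraMap M N x)) →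
      algebraMap LM LN θM = θ → ∀ y : LM, y ≠ 0 → IsSquare (Algebra.norm M y) →
      sc (algebraMap LM LN y) = c → al hM y ≠ 0 → be hM y ≠ 0 →
      hsv w (al hM y) (be hM y) = q w) : ∑ w ∈ TM, q w = 0 := by
  have hD := hok.ne
  have hDM : algebraMap K M D ≠ 0 := (map_ne_zero _).2 hD
  have hab : ∀ x : K, algebraMap K N x = algebraMap M N (algebraMap K M x) :=
    IsScalarTower.algebraMap_apply K M N
  -- the cubic field over `M`
  let _ : Algebra M LN := ((algebraMap N LN).comp (algebraMap M N)).toAlgebra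
  have _ : IsScalarTower M N LN := IsScalarTower.of_algebraMap_eq fun x => rfl
  have hcubN : Cub N LN (algebraMap M N (algebraMap K M a)) (algebraMap M N (algebraMap K M b)) θ := by
    rw [← hab, ← hab]
    exact S.cub
  obtain ⟨LM, _, _, _, _, _, θM, hM, hθM⟩ := H73P2.exists_sub hcubN
  have hMD : Cub M LM (algebraMap K M (D ^ 2 * a)) (algebraMap K M (D ^ 3 * b))
      (algebraMap M LM (algebraMap K M D) * θM) := by
    have h1 := hM.twist hDM
    rw [map_mul, map_pow, map_mul, map_pow]
    exact h1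
  have hML : ∀ x : M, algebraMap LM LN (algebraMap M LM x) = algebraMap N LN (algebraMap M N x) :=
    fun x => by rw [← IsScalarTower.algebraMap_apply M LM LN, ← IsScalarTower.algebraMap_apply M N LN]
  have hθD : algebraMap LM LN (algebraMap M LM (algebraMap K M D) * θM) =
      algebraMap N LN (algebraMap K N D) * θ := by
    rw [map_mul, hML, hθM, ← hab]
  have hev : ∀ e : Fin 3 → M, algebraMap LM LN (ev (algebraMap M LM (algebraMap K M D) * θM) e) =
      ev (algebraMap N LN (algebraMap K N D) * θ) (fun i => algebraMap M N (e i)) :=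
    fun e => H42GN.lift_ev (algebraMap LM LN) hML hθD e
  obtain ⟨e, he1, he2, he3⟩ := hE
  have he0 : ev (algebraMap M LM (algebraMap K M D) * θM) e ≠ 0 := by
    intro h0
    rw [← hev, h0, map_zero] at he1
    exact he1 rfl
  have hdD : 4 * (D ^ 2 * a) ^ 3 + 27 * (D ^ 3 * b) ^ 2 ≠ 0 := H76OD.Lt_dne hD S.dne
  have hnor : IsSquare (Algebra.norm M (ev (algebraMap M LM (algebraMap K M D) * θM) e)) := by
    rw [H76PP.Te_norm hMD]
    exact he3
  have hrx : H42GN.Rx K M LM Sg T (D ^ 2 * a) (D ^ 3 * b)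
      (algebraMap M LM (algebraMap K M D) * θM) e := by
    refine H42GN.rx_down (H88GX.Gb_cub S hD) ?_ hdD (H38OD.realAt_twist hD hreal) hram hdesc r M LM
      hgal hr _ hMD e he0 ?_ (H42GN.rx_N (S := S) hD he1 ?_)
    · intro v hv
      by_contra h1
      rw [hok.two v h1] at hv
      exact lt_irrefl _ hv
    · exact hnor
    · rw [he2]
      exact hY
  refine H42GN.rec_Mq hM S.ha S.hb hD hok.two hok.dis hok.val hTM hrx (q := q) ?_
  intro w hw y hy hyc hal hbe
  refine hq w hw LM θM hM hML hθM y hy ?_ ?_ hal hbe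
  · have h1 : IsSquare (y * ev (algebraMap M LM (algebraMap K M D) * θM) e) :=
      (H38T1.sc_eq_zero (mul_ne_zero hy he0)).1 (by
        rw [H38T1.sc_mul hy he0, hyc]
        exact H54MT.two_add _)
    have h2 : IsSquare (Algebra.norm M y *
        Algebra.norm M (ev (algebraMap M LM (algebraMap K M D) * θM) e)) := by
      rw [← map_mul]
      exact h1.map _
    obtain ⟨s, hs⟩ := h2
    obtain ⟨t, ht⟩ := hnor
    have hn0 : Algebra.norm M (ev (algebraMap M LM (algebraMap K M D) * θM) e) ≠ 0 :=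
      Algebra.norm_ne_zero_iff.2 he0
    have ht0 : t ≠ 0 := by
      rintro rfl
      exact hn0 (by rw [ht, mul_zero])
    refine ⟨s / t, ?_⟩
    rw [ht] at hs
    field_simp
    linear_combination hs
  · have h1 := H76PP.scm_sc (algebraMap LM LN : LM →* LN) hy
    have h2 := H76PP.scm_sc (algebraMap LM LN : LM →* LN) he0
    rw [hyc] at h1
    have h3 := h1.symm.trans h2
    have h4 : sc (algebraMap LM LN y) =
        sc (algebraMap LM LN (ev (algebraMap M LM (algebraMap K M D) * θM) e)) := h3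
    rw [h4, hev, he2]

end H88GT
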