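import Pool.Agent.H88.GT.G0
import Pool.Agent.H88.GT.G1
import Pool.Agent.H42.GN.If

/-!
ROW G2 (MP_78d38b_GT). Reciprocity over `N`.

PROOF. As `H42GN.fix_sum` / `H42GN.rec_sum` (Pool/Agent/H42/GN/Ie.lean, If.lean) with `P = ⊥`, `M = IntermediateField.fixedField ⊥`, `F v k = ∑ i, r v i (ρ k • y) * u v i (ρ k • y)`, G0 and G1 in the place of sum_fib and fix_sum_aux.  For `w ∈ TM`, `(v, k₀)` as in G0: the filter is `{d k₀ | d ∈ St K (W v)}`, so
`q w = ∑ d : St K (W v), ∑ i, r v i (ρ d • (ρ k₀ • y)) * u v i (ρ d • (ρ k₀ • y))`, which is `hsv (W v) (al x) (be x)` for every representative `x ∈ LN` of `ρ k₀ • y` with nonzero `al`, `be` (LP.hq), `= hsv (gq k₀⁻¹ • W v) (al x') (be x')` for `x' = ρ k₀⁻¹ x` (hsv_act, al_act, be_act),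
and `= hsv w (al hM y') (be hM y')` for `x' = algebraMap LM LN y'` (al_up, be_up, hsv_down with `dn M (gq k₀⁻¹ • W v) = w`: the automorphisms of `N / M` are trivial).
-/

set_option autoImplicit false
set_option linter.unusedSectionVars false
open scoped Classical

open WithZero NumberField IsDedekindDomain H38RT
open H38T1 (SC sc scu rep eo la si OddP)
open H36MX (hsv)
open H76MQ (al be)
open H76PP (Cub LC ev scm dn Te_nf)
open H36CY (DescAt)
open H30ZO (nb HH Wc)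
open H30OR (LocD)
open H88GX (Ext)

namespace H88GT

variable {K N LN : Type} [Field K] [NumberField K] [Field N] [NumberField N] [Field LN]
  [NumberField LN] [Algebra K N] [Algebra N LN] {a b : K} {θ : LN} {S : Ext K N LN a b θ}
  {Sg : Finset (HeightOneSpectrum (𝓞 K))} {D0 D : K}

theorem rec_sum (hok : S.Ok D0 Sg) (hreal : H30ZO.RealAt K N a b)
    (hdesc : ∀ v ∈ Sg, DescAt K N v (D0 ^ 2 * a) (D0 ^ 3 * b))
    (hram : ∀ V : HeightOneSpectrum (𝓞 N), dn K V ∉ Sg → ¬ H73P2.Ram K V)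
    {T : Finset (HeightOneSpectrum (𝓞 K))} (hT : ∀ v ∈ T, v ∉ Sg)
    (W : {v // v ∈ T} → HeightOneSpectrum (𝓞 N)) (hW : ∀ v, dn K (W v) = v.1)
    {n : {v // v ∈ T} → ℕ} {C : {v // v ∈ T} → Subgroup (N ≃ₐ[K] N)}
    {r u : ∀ v, Fin (n v) → (SC LN →+ ZMod 2)} (hL : ∀ v, LP S (W v) D0 D (C v) (r v) (u v))
    [Fintype (N ≃ₐ[K] N)] {y : SC LN} (hy : S.Y D0 Sg T y) :
    ∑ v, ∑ k : N ≃ₐ[K] N, ∑ i, r v i (S.ρ k • y) * u v i (S.ρ k • y) = 0 := by
  have _ : IsGalois K N := S.gal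
  have hfd : FiniteDimensional K N := Module.Finite.of_restrictScalars_finite ℚ K N
  have hnf : NumberField (IntermediateField.fixedField (⊥ : Subgroup (N ≃ₐ[K] N))) :=
    NumberField.of_module_finite K (IntermediateField.fixedField (⊥ : Subgroup (N ≃ₐ[K] N)))
  have hgal : IsGalois (IntermediateField.fixedField (⊥ : Subgroup (N ≃ₐ[K] N))) N :=
    IsGalois.tower_top_of_isGalois K _ N
  have hr : Module.finrank (IntermediateField.fixedField (⊥ : Subgroup (N ≃ₐ[K] N))) N = 2 ^ 0 := by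
    rw [IntermediateField.finrank_fixedField_eq_card, pow_zero]
    exact Nat.card_unique
  have hMP : ∀ h : N ≃ₐ[IntermediateField.fixedField (⊥ : Subgroup (N ≃ₐ[K] N))] N,
      h.restrictScalars K ∈ (⊥ : Subgroup (N ≃ₐ[K] N)) := by
    intro h
    have h1 : h.restrictScalars K ∈
        (IntermediateField.fixedField (⊥ : Subgroup (N ≃ₐ[K] N))).fixingSubgroup := by
      rw [IntermediateField.mem_fixingSubgroup_iff]
      intro x hx
      exact h.commutes ⟨x, hx⟩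
    rwa [IntermediateField.fixingSubgroup_fixedField] at h1
  have hPM : ∀ p ∈ (⊥ : Subgroup (N ≃ₐ[K] N)),
      ∃ h : N ≃ₐ[IntermediateField.fixedField (⊥ : Subgroup (N ≃ₐ[K] N))] N,
        h.restrictScalars K = p := by
    intro p hp
    refine ⟨AlgEquiv.ofRingEquiv (f := p.toRingEquiv) fun x => ?_, ?_⟩
    · exact x.2 ⟨p, hp⟩
    · apply AlgEquiv.ext
      intro x
      rfl
  have htriv : ∀ g : N ≃ₐ[IntermediateField.fixedField (⊥ : Subgroup (N ≃ₐ[K] N))] N, g = 1 := by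
    intro g
    have h1 := hMP g
    rw [Subgroup.mem_bot] at h1
    apply AlgEquiv.ext
    intro x
    exact congrArg (fun t : N ≃ₐ[K] N => t x) h1
  have hfix : ∀ g ∈ (⊥ : Subgroup (N ≃ₐ[K] N)), S.ρ g • y = y := by
    intro g hg
    rw [Subgroup.mem_bot] at hg
    rw [hg, map_one, one_smul]
  obtain ⟨TM, hTM⟩ : ∃ A : Finset (HeightOneSpectrum
      (𝓞 (IntermediateField.fixedField (⊥ : Subgroup (N ≃ₐ[K] N))))), ∀ v, v ∈ A ↔ dn K v ∈ T := by
    have hfin : {v : HeightOneSpectrum (𝓞 (IntermediateField.fixedField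
        (⊥ : Subgroup (N ≃ₐ[K] N)))) | dn K v ∈ T}.Finite := by
      have h1 : {v : HeightOneSpectrum (𝓞 (IntermediateField.fixedField
          (⊥ : Subgroup (N ≃ₐ[K] N)))) | dn K v ∈ T} =
          ⋃ v ∈ T, {u : HeightOneSpectrum (𝓞 (IntermediateField.fixedField
            (⊥ : Subgroup (N ≃ₐ[K] N)))) | dn K u = v} := by
        ext w
        simp only [Set.mem_iUnion, Set.mem_ofPred_eq]
        constructor
        · intro hw
          exact ⟨dn K w, hw, rfl⟩
        · rintro ⟨v, hv, hw⟩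
          rw [hw]
          exact hv
      rw [h1]
      exact T.finite_toSet.biUnion fun v _ => H76PP.fin_above v
    exact ⟨hfin.toFinset, fun v => by rw [Set.Finite.mem_toFinset]; exact Iff.rfl⟩
  obtain ⟨q, hq1, hq2⟩ := fib_sum (M := IntermediateField.fixedField (⊥ : Subgroup (N ≃ₐ[K] N)))
    hgal S.gal ⊥ hMP hPM W hW hTM (fun v k => ∑ i, r v i (S.ρ k • y) * u v i (S.ρ k • y))
  rw [hq2]
  refine fix_rec (M := IntermediateField.fixedField (⊥ : Subgroup (N ≃ₐ[K] N))) hgal hr hok hreal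
    hdesc hram hT hy (H42GN.exists_e S ⊥ hok.ne hy.hh hfix) hTM ?_
  intro w hw LM _ _ _ _ θM hM hML hθM y' hy' _ hyc hal hbe
  obtain ⟨v, k₀, h1, h2⟩ := hq1 w hw
  have hz : algebraMap LM LN y' ≠ 0 := (map_ne_zero _).2 hy'
  have hVo : OddP (H88OD.gq k₀⁻¹ • W v) := by
    have h6 : dn K (H88OD.gq k₀⁻¹ • W v) ∉ Sg := by
      rw [H88OD.dn_gq, hW]
      exact hT _ v.2
    have h8 := H76PP.val_one (L := N) (w := H88OD.gq k₀⁻¹ • W v) (hok.two _ h6)
    rwa [map_ofNat] at h8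
  have h3 := H42GN.hsv_down hgal hVo (fun g _ => htriv g) hal hbe
  rw [h1] at h3
  rw [← h3]
  have ha1 : al S.cub (algebraMap LM LN y') = algebraMap _ N (al hM y') :=
    H42GN.al_up hM S.cub hML hθM y'
  have hb1 : be S.cub (algebraMap LM LN y') = algebraMap _ N (be hM y') :=
    H42GN.be_up hM S.cub hML hθM (IsScalarTower.algebraMap_apply K
      (IntermediateField.fixedField (⊥ : Subgroup (N ≃ₐ[K] N))) N a) y'
  rw [← ha1, ← hb1, H42GN.hsv_act, inv_inv]
  let _ : Fintype (St K (W v)) := Fintype.ofFinite _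
  have hg : ∀ x : N, x ≠ 0 → k₀ x ≠ 0 := fun x hx => (map_ne_zero _).2 hx
  have h4 := (hL v).hq (S.ρ k₀ • y) (H88GX.HH_smul S k₀ hy.hh) (S.ρ k₀ (algebraMap LM LN y'))
    (H38T1.Eb_ne _ hz) (by rw [← H38T1.smul_sc _ hz, hyc])
    (by
      rw [H42GN.al_act, ha1]
      exact hg _ ((map_ne_zero _).2 hal))
    (by
      rw [H42GN.be_act, hb1]
      exact hg _ ((map_ne_zero _).2 hbe))
  rw [h4, h2]
  refine Finset.sum_bij (fun (d : St K (W v)) _ => (d : N ≃ₐ[K] N) * k₀) ?_ ?_ ?_ ?_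
  · intro d _
    rw [Finset.mem_filter]
    exact ⟨Finset.mem_univ _, d, d.2, 1, Subgroup.one_mem _, by rw [mul_one]⟩
  · intro d _ d' _ h
    exact Subtype.ext (mul_right_cancel h)
  · intro k hk
    rw [Finset.mem_filter] at hk
    obtain ⟨-, d, hd, p, hp, rfl⟩ := hk
    rw [Subgroup.mem_bot] at hp
    exact ⟨⟨d, hd⟩, Finset.mem_univ _, by rw [hp, mul_one]⟩
  · intro d _
    refine Finset.sum_congr rfl fun i _ => ?_
    rw [map_mul, mul_smul]

end H88GT
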