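import Mathlib

/-!
ROW I1 (MP_78d38b_GT), the complement of an induced module.

PROOF. `b : F_2^n × F_2^n → F_2`: `0` for `n = 0`, `x 0 * y 0` for `n = 1`, `x 0 * y 1 + x 1 * y 0` for `n = 2`; it is symmetric, nondegenerate, and invariant under all invertible matrices (`decide` for `n ≤ 2`; `A c` is invertible for `c ∈ C` with inverse `A c⁻¹` by hA1, hAm).
`E f h = ∑ c ∈ C, A c⁻¹ (f (c * h))`, `β f f' = ∑ h, b (f h) (f' h)`.  `C` has odd order, so `E f = f` iff `f` is equivariant (`f (c h) = A c (f h)`), and `E (E f) = E f` (`E f` is equivariant).  `β (E f) f' = ∑ h c, b (A c⁻¹ f (c h), f' h) = ∑ h c, b (f (c h), A c f' h) = ∑ h' c, b (f h', A c f' (c⁻¹ h')) = β f (E f')`.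
Last claim: for `g = 1`: `∑ h, b (f h) (f h)` is `0` if `n = 0, 2` (alternating) and `∑ h, f h` if `n = 1`; in this case `A c = 1`, `0 = ∑ h, E f h = |C| ∑ h, f h = ∑ h, f h`.  For `g ≠ 1`: `h ↦ h * g` is an involution of `G` without fixed points and the terms of `h` and `h * g` are equal
(`b` symmetric), so the sum is zero (Finset.sum_involution).
-/

set_option autoImplicit false
open scoped Classical

namespace H88GT

/-- the matrix `M` applied to the vector `x` -/
private def mv {n : ℕ} (M : Fin n → Fin n → ZMod 2) (x : Fin n → ZMod 2) : Fin n → ZMod 2 :=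
  fun i => ∑ k, M i k * x k

/-- the form `∑ x i * y (n - 1 - i)` -/
private def bf {n : ℕ} (x y : Fin n → ZMod 2) : ZMod 2 := ∑ i, x i * y i.rev

private theorem mv_add {n : ℕ} (M : Fin n → Fin n → ZMod 2) (x y : Fin n → ZMod 2) :
    mv M (x + y) = mv M x + mv M y := by
  funext i
  show ∑ k, M i k * (x k + y k) = ∑ k, M i k * x k + ∑ k, M i k * y k
  simp only [mul_add, Finset.sum_add_distrib]

private theorem mv_sum {n : ℕ} {ι : Type} (s : Finset ι) (M : Fin n → Fin n → ZMod 2)
    (X : ι → Fin n → ZMod 2) : mv M (∑ c ∈ s, X c) = ∑ c ∈ s, mv M (X c) := by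
  funext i
  simp only [mv, Finset.sum_apply, Finset.mul_sum]
  exact Finset.sum_comm

private theorem mv_mv {n : ℕ} (M M' : Fin n → Fin n → ZMod 2) (x : Fin n → ZMod 2) :
    mv M (mv M' x) = mv (fun i k => ∑ l, M i l * M' l k) x := by
  funext i
  simp only [mv, Finset.mul_sum, Finset.sum_mul, mul_assoc]
  exact Finset.sum_comm

private theorem bf_add {n : ℕ} (x y z : Fin n → ZMod 2) : bf (x + y) z = bf x z + bf y z := by
  simp only [bf, Pi.add_apply, add_mul, Finset.sum_add_distrib]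

private theorem bf_comm {n : ℕ} (x y : Fin n → ZMod 2) : bf x y = bf y x := by
  refine Fintype.sum_equiv Fin.revPerm _ _ fun i => ?_
  rw [Fin.revPerm_apply, Fin.rev_rev, mul_comm]

private theorem bf_zero {n : ℕ} (x : Fin n → ZMod 2) : bf x 0 = 0 := by
  simp only [bf, Pi.zero_apply, mul_zero, Finset.sum_const_zero]

private theorem bf_sum_left {n : ℕ} {ι : Type} (s : Finset ι) (X : ι → Fin n → ZMod 2)
    (y : Fin n → ZMod 2) : bf (∑ c ∈ s, X c) y = ∑ c ∈ s, bf (X c) y := by
  simp only [bf, Finset.sum_apply, Finset.sum_mul]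
  exact Finset.sum_comm

private theorem bf_sum_right {n : ℕ} {ι : Type} (s : Finset ι) (X : ι → Fin n → ZMod 2)
    (y : Fin n → ZMod 2) : bf y (∑ c ∈ s, X c) = ∑ c ∈ s, bf y (X c) := by
  rw [bf_comm, bf_sum_left]
  exact Finset.sum_congr rfl fun c _ => bf_comm _ _

private theorem bf_single {n : ℕ} (x : Fin n → ZMod 2) (i : Fin n) :
    bf x (Pi.single i.rev 1) = x i := by
  unfold bf
  rw [Finset.sum_eq_single i]
  · rw [Pi.single_eq_same, mul_one]
  · intro j _ hj
    rw [Pi.single_eq_of_ne (fun h => hj (Fin.rev_injective h)), mul_zero]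
  · intro h
    exact absurd (Finset.mem_univ i) h

private theorem inv1 : ∀ a a' : ZMod 2, a * a' = 1 → a = 1 ∧ a' = 1 := by decide

private theorem inv2 : ∀ a b c d a' b' c' d' : ZMod 2, a * a' + b * c' = 1 → a * b' + b * d' = 0 →
    c * a' + d * c' = 0 → c * b' + d * d' = 1 → a = d' ∧ b = b' ∧ c = c' ∧ d = a' := by decide

private theorem bf_inv {n : ℕ} (hn : n ≤ 2) (M M' : Fin n → Fin n → ZMod 2)
    (h : ∀ i k, ∑ l, M i l * M' l k = if i = k then 1 else 0) (x y : Fin n → ZMod 2) :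
    bf (mv M x) y = bf x (mv M' y) := by
  interval_cases n
  · simp [bf]
  · have h0 := h 0 0
    rw [Fin.sum_univ_one, if_pos rfl] at h0
    obtain ⟨h1, h2⟩ := inv1 _ _ h0
    simp [bf, mv, h1, h2]
  · have h00 := h 0 0
    have h01 := h 0 1
    have h10 := h 1 0
    have h11 := h 1 1
    rw [Fin.sum_univ_two] at h00 h01 h10 h11
    rw [if_pos rfl] at h00 h11
    rw [if_neg (by decide)] at h01 h10
    obtain ⟨e1, e2, e3, e4⟩ := inv2 _ _ _ _ _ _ _ _ h00 h01 h10 h11
    have r0 : (0 : Fin 2).rev = 1 := rfl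
    have r1 : (1 : Fin 2).rev = 0 := rfl
    simp only [bf, mv, Fin.sum_univ_two, r0, r1, e1, e2, e3, e4]
    ring

private theorem bf_self {n : ℕ} (hn : n ≤ 2) (h1 : n ≠ 1) (x : Fin n → ZMod 2) : bf x x = 0 := by
  interval_cases n
  · simp [bf]
  · exact absurd rfl h1
  · have r0 : (0 : Fin 2).rev = 1 := rfl
    have r1 : (1 : Fin 2).rev = 0 := rfl
    simp only [bf, Fin.sum_univ_two, r0, r1]
    rw [mul_comm (x 1)]
    exact CharTwo.add_self_eq_zero _

private theorem sq2 : ∀ a : ZMod 2, a * a = a := by decide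

/-- the projection onto the equivariant functions -/
private noncomputable def EE {G : Type} [Group G] [Fintype G] {n : ℕ} (C : Subgroup G)
    (A : G → Fin n → Fin n → ZMod 2) (f : G → Fin n → ZMod 2) : G → Fin n → ZMod 2 :=
  fun h => ∑ c : C, mv (A ((c⁻¹ : C) : G)) (f (c * h))

private theorem card_smul {G : Type} [Group G] [Fintype G] {n : ℕ} {C : Subgroup G}
    (hC : Odd (Nat.card C)) (x : Fin n → ZMod 2) : ∑ _c : C, x = x := by
  rw [Finset.sum_const, Finset.card_univ, ← Nat.card_eq_fintype_card]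
  obtain ⟨k, hk⟩ := hC
  rw [hk, add_smul, one_smul, mul_smul, two_smul]
  funext i
  show (k • x) i + (k • x) i + x i = x i
  rw [CharTwo.add_self_eq_zero, zero_add]

private theorem EE_eq {G : Type} [Group G] [Fintype G] {n : ℕ} {C : Subgroup G}
    (hC : Odd (Nat.card C)) (A : G → Fin n → Fin n → ZMod 2)
    (hA : ∀ c ∈ C, ∀ c' ∈ C, ∀ x, mv (A (c * c')) x = mv (A c) (mv (A c') x))
    (hA1 : ∀ x, mv (A 1) x = x) (f : G → Fin n → ZMod 2)
    (hf : ∀ c ∈ C, ∀ h, f (c * h) = mv (A c) (f h)) : EE C A f = f := by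
  funext h
  have h1 : ∀ c : C, mv (A ((c⁻¹ : C) : G)) (f (c * h)) = f h := by
    intro c
    rw [hf c c.2 h, ← hA _ (c⁻¹).2 _ c.2, Subgroup.coe_inv, inv_mul_cancel, hA1]
  show ∑ c : C, mv (A ((c⁻¹ : C) : G)) (f (c * h)) = f h
  rw [Finset.sum_congr rfl fun c _ => h1 c]
  exact card_smul hC (f h)

private theorem EE_equi {G : Type} [Group G] [Fintype G] {n : ℕ} {C : Subgroup G}
    (A : G → Fin n → Fin n → ZMod 2)
    (hA : ∀ c ∈ C, ∀ c' ∈ C, ∀ x, mv (A (c * c')) x = mv (A c) (mv (A c') x))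
    (f : G → Fin n → ZMod 2) (c : G) (hc : c ∈ C) (h : G) :
    EE C A f (c * h) = mv (A c) (EE C A f h) := by
  show ∑ a : C, mv (A ((a⁻¹ : C) : G)) (f (a * (c * h))) =
    mv (A c) (∑ a : C, mv (A ((a⁻¹ : C) : G)) (f (a * h)))
  rw [mv_sum]
  refine Fintype.sum_equiv (Equiv.mulRight (⟨c, hc⟩ : C)) _ _ fun a => ?_
  rw [← hA c hc _ (SetLike.coe_mem _)]
  have e1 : ((Equiv.mulRight (⟨c, hc⟩ : C) a : C) : G) = a * c := rfl
  rw [Subgroup.coe_inv, Subgroup.coe_inv, e1, mul_inv_rev, mul_inv_cancel_left, mul_assoc]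

/-- the form on the functions -/
private noncomputable def BB {G : Type} [Fintype G] {n : ℕ} (f f' : G → Fin n → ZMod 2) : ZMod 2 :=
  ∑ h, bf (f h) (f' h)

theorem cmp {G : Type} [Group G] [Fintype G] {n : ℕ} (hn : n ≤ 2) {C : Subgroup G}
    (hC : Odd (Nat.card C)) (A : G → Fin n → Fin n → ZMod 2)
    (hA1 : ∀ i k, A 1 i k = if i = k then 1 else 0)
    (hAm : ∀ c ∈ C, ∀ c' ∈ C, ∀ i k, A (c * c') i k = ∑ l, A c i l * A c' l k) :
    ∃ (E : (G → Fin n → ZMod 2) → (G → Fin n → ZMod 2))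
      (β : (G → Fin n → ZMod 2) → (G → Fin n → ZMod 2) → ZMod 2),
      (∀ f f', E (f + f') = E f + E f') ∧ (∀ f, E (E f) = E f) ∧
      (∀ g f, E (fun h => f (h * g)) = fun h => E f (h * g)) ∧
      (∀ f, E f = f ↔ ∀ c ∈ C, ∀ h i, f (c * h) i = ∑ k, A c i k * f h k) ∧
      (∀ f f' f'', β (f + f') f'' = β f f'' + β f' f'') ∧ (∀ f f', β f f' = β f' f) ∧
      (∀ g f f', β (fun h => f (h * g)) (fun h => f' (h * g)) = β f f') ∧
      (∀ f f', β (E f) f' = β f (E f')) ∧ (∀ f, (∀ f', β f f' = 0) → f = 0) ∧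
      ∀ g : G, g * g = 1 → ∀ f, E f = 0 → β f (fun h => f (h * g)) = 0 := by
  have hA1' : ∀ x, mv (A 1) x = x := by
    intro x
    funext i
    show ∑ k, A 1 i k * x k = x i
    simp only [hA1, ite_mul, one_mul, zero_mul, Finset.sum_ite_eq, Finset.mem_univ, if_true]
  have hA : ∀ c ∈ C, ∀ c' ∈ C, ∀ x, mv (A (c * c')) x = mv (A c) (mv (A c') x) := by
    intro c hc c' hc' x
    rw [mv_mv]
    congr 1
    funext i k
    exact hAm c hc c' hc' i k
  have hinv : ∀ c : C, ∀ i k, ∑ l, A ((c⁻¹ : C) : G) i l * A (c : G) l k =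
      if i = k then 1 else 0 := by
    intro c i k
    rw [← hAm _ (c⁻¹).2 _ c.2 i k, Subgroup.coe_inv, inv_mul_cancel]
    exact hA1 i k
  have hequi : ∀ f : G → Fin n → ZMod 2, (∀ c ∈ C, ∀ h, f (c * h) = mv (A c) (f h)) ↔
      ∀ c ∈ C, ∀ h i, f (c * h) i = ∑ k, A c i k * f h k := by
    intro f
    constructor
    · intro hf c hc h i
      rw [hf c hc h]
      rfl
    · intro hf c hc h
      funext i
      exact hf c hc h i
  refine ⟨EE C A, BB, ?_, ?_, ?_, ?_, ?_, ?_, ?_, ?_, ?_, ?_⟩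
  · intro f f'
    funext h
    show ∑ c : C, mv (A ((c⁻¹ : C) : G)) (f (c * h) + f' (c * h)) =
      ∑ c : C, mv (A ((c⁻¹ : C) : G)) (f (c * h)) + ∑ c : C, mv (A ((c⁻¹ : C) : G)) (f' (c * h))
    simp only [mv_add, Finset.sum_add_distrib]
  · intro f
    exact EE_eq hC A hA hA1' _ (EE_equi A hA f)
  · intro g f
    funext h
    show ∑ c : C, mv (A ((c⁻¹ : C) : G)) (f (c * h * g)) =
      ∑ c : C, mv (A ((c⁻¹ : C) : G)) (f (c * (h * g)))
    simp only [mul_assoc]
  · intro f
    rw [← hequi]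
    constructor
    · intro h
      rw [← h]
      exact EE_equi A hA f
    · exact EE_eq hC A hA hA1' f
  · intro f f' f''
    show ∑ h, bf (f h + f' h) (f'' h) = ∑ h, bf (f h) (f'' h) + ∑ h, bf (f' h) (f'' h)
    simp only [bf_add, Finset.sum_add_distrib]
  · intro f f'
    exact Finset.sum_congr rfl fun h _ => bf_comm _ _
  · intro g f f'
    exact Fintype.sum_equiv (Equiv.mulRight g) _ _ fun h => rfl
  · intro f f'
    show ∑ h, bf (∑ c : C, mv (A ((c⁻¹ : C) : G)) (f (c * h))) (f' h) =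
      ∑ h, bf (f h) (∑ c : C, mv (A ((c⁻¹ : C) : G)) (f' (c * h)))
    simp only [bf_sum_left, bf_sum_right]
    rw [Finset.sum_comm, Finset.sum_comm (s := Finset.univ) (t := (Finset.univ : Finset C))]
    refine Fintype.sum_equiv (Equiv.inv C) _ _ fun c => ?_
    refine Fintype.sum_equiv (Equiv.mulLeft (c : G)) _ _ fun h => ?_
    rw [bf_inv hn _ _ (hinv c)]
    show _ = bf (f (c * h)) (mv (A (((c⁻¹)⁻¹ : C) : G)) (f' (((c⁻¹ : C) : G) * (c * h))))
    rw [inv_inv, Subgroup.coe_inv, inv_mul_cancel_left]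
  · intro f hf
    funext h i
    have h1 := hf (Pi.single h (Pi.single i.rev 1))
    have h2 : BB f (Pi.single h (Pi.single i.rev 1)) = f h i := by
      unfold BB
      rw [Finset.sum_eq_single h]
      · rw [Pi.single_eq_same, bf_single]
      · intro j _ hj
        rw [Pi.single_eq_of_ne hj, bf_zero]
      · intro h'
        exact absurd (Finset.mem_univ h) h'
    rw [← h2, h1]
    rfl
  · intro g hg f hf
    by_cases hg1 : g = 1
    · subst hg1
      show ∑ h, bf (f h) (f (h * 1)) = 0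
      simp only [mul_one]
      by_cases hn1 : n = 1
      · subst hn1
        have h1 : ∀ h, bf (f h) (f h) = f h 0 := by
          intro h
          have r0 : (0 : Fin 1).rev = 0 := rfl
          rw [bf, Fin.sum_univ_one, r0, sq2]
        have h2 : ∀ (c : C) (x : Fin 1 → ZMod 2), mv (A ((c⁻¹ : C) : G)) x 0 = x 0 := by
          intro c x
          have h3 := hinv c 0 0
          rw [Fin.sum_univ_one, if_pos rfl] at h3
          show ∑ k, A ((c⁻¹ : C) : G) 0 k * x k = x 0
          rw [Fin.sum_univ_one, (inv1 _ _ h3).1, one_mul]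
        have h4 : ∑ h, EE C A f h 0 = ∑ h, f h 0 := by
          have h5 : ∀ h, EE C A f h 0 = ∑ c : C, f (c * h) 0 := by
            intro h
            show (∑ c : C, mv (A ((c⁻¹ : C) : G)) (f (c * h))) 0 = _
            rw [Finset.sum_apply]
            exact Finset.sum_congr rfl fun c _ => h2 c _
          simp only [h5]
          rw [Finset.sum_comm]
          have h6 : ∀ c : C, ∑ h, f (c * h) 0 = ∑ h, f h 0 := fun c =>
            Fintype.sum_equiv (Equiv.mulLeft (c : G)) _ _ fun h => rfl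
          simp only [h6]
          have h7 := congrFun (card_smul hC (fun _ : Fin 1 => ∑ h, f h 0)) 0
          rw [Finset.sum_apply] at h7
          exact h7
        simp only [h1]
        rw [← h4, hf]
        simp
      · simp only [bf_self hn hn1, Finset.sum_const_zero]
    · refine Finset.sum_involution (fun h _ => h * g) ?_ ?_ ?_ ?_
      · intro h _
        show bf (f h) (f (h * g)) + bf (f (h * g)) (f (h * g * g)) = 0
        rw [mul_assoc, hg, mul_one, bf_comm (f (h * g))]
        exact CharTwo.add_self_eq_zero _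
      · intro h _ _ h1
        exact hg1 (mul_eq_left.1 h1)
      · intro h _
        exact Finset.mem_univ _
      · intro h _
        show h * g * g = h
        rw [mul_assoc, hg, mul_one]

end H88GT
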