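import Mathlib

/-!
ROW I2 (MP_78d38b_GT), the coordinates of `Y`.

PROOF. For each `j` let `T j` be a set of representatives `t` of the cosets `C j * t` (right cosets; `(C j).index` of them).  `P y = (p j i (act h y))_{j, h, i}`; by `heq`, `P y` is in the set `Eq` of the families `f j : G → Fin (n j) → ZMod 2` with
`f j (c * h) i = ∑ k, A j c i k * f j h k` for `c ∈ C j`.  A family in `Eq` is determined by its values at the `t ∈ T j`: an injection `Eq → ∏ j, (T j → Fin (n j) → ZMod 2)`, a set with `2 ^ (∑ j, n j * index)` elements.  `P : Y → Eq` is injective (`hker`), so by `hcard` both maps are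
bijective.  (If `Nat.card Y` could be zero: `hcard` excludes it.)  This gives the last claim, and that every family of values at the representatives is attained.  So `p j : Y → F_2^(n j)` is surjective (take the value at the representative `t` of the coset of `1`, `t ∈ C j`, and replace `y` by `act t y ∈ Y`).
Then `p j i (act 1 x) = p j i x` gives `A j 1 = 1` and `p j i (act (c * c') x) = p j i (act c (act c' x))` gives the multiplicativity (test on `x ∈ Y` with `p j x = e_k`).
-/

set_option autoImplicit false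
open scoped Classical

namespace H88GT

theorem psurj {G V : Type} [Group G] [Fintype G] [AddCommGroup V] {act : G → V → V}
    (a1 : ∀ x, act 1 x = x) (amul : ∀ g h x, act (g * h) x = act g (act h x))
    (aadd : ∀ g x y, act g (x + y) = act g x + act g y)
    {Y : AddSubgroup V} (stb : ∀ g, ∀ y ∈ Y, act g y ∈ Y)
    {ι : Type} [Fintype ι] {n : ι → ℕ} {C : ι → Subgroup G}
    (p : ∀ j, Fin (n j) → (V →+ ZMod 2))
    (hker : ∀ y ∈ Y, (∀ j i g, p j i (act g y) = 0) → y = 0)
    (hcard : 2 ^ (∑ j, n j * (C j).index) ≤ Nat.card Y)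
    (A : ∀ j, G → Fin (n j) → Fin (n j) → ZMod 2)
    (heq : ∀ j, ∀ c ∈ C j, ∀ i, ∀ x ∈ Y, p j i (act c x) = ∑ k, A j c i k * p j k x) :
    (∀ j i k, A j 1 i k = if i = k then 1 else 0) ∧
      (∀ j, ∀ c ∈ C j, ∀ c' ∈ C j, ∀ i k, A j (c * c') i k = ∑ l, A j c i l * A j c' l k) ∧
      (∀ j (z : Fin (n j) → ZMod 2), ∃ y ∈ Y, ∀ i, p j i y = z i) ∧
      ∀ f : ∀ j, G → Fin (n j) → ZMod 2,
        (∀ j, ∀ c ∈ C j, ∀ h i, f j (c * h) i = ∑ k, A j c i k * f j h k) →
          ∃ y ∈ Y, ∀ j h i, p j i (act h y) = f j h i := by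
  classical
  let R : ι → Type := fun j => Quotient (QuotientGroup.rightRel (C j))
  have hRfin : ∀ j, Finite (R j) := fun j => Quotient.finite _
  have hRcard : ∀ j, Nat.card (R j) = (C j).index := fun j => by
    rw [Subgroup.index]
    exact Nat.card_congr (QuotientGroup.quotientRightRelEquivQuotientLeftRel (C j))
  let rep : ∀ j, G → G := fun j g => (Quotient.out (Quotient.mk (QuotientGroup.rightRel (C j)) g))
  have hrep : ∀ j g, g * (rep j g)⁻¹ ∈ C j := fun j g => by
    have h1 : (QuotientGroup.rightRel (C j)) (rep j g) g :=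
      Quotient.exact (Quotient.out_eq (Quotient.mk (QuotientGroup.rightRel (C j)) g))
    exact QuotientGroup.rightRel_apply.mp h1
  have hval : ∀ j (y : V), y ∈ Y → ∀ g i, p j i (act g y) =
      ∑ k, A j (g * (rep j g)⁻¹) i k * p j k (act (rep j g) y) := fun j y hy g i => by
    have h1 := heq j (g * (rep j g)⁻¹) (hrep j g) i (act (rep j g) y) (stb _ _ hy)
    rw [← amul, inv_mul_cancel_right] at h1
    exact h1
  have asub : ∀ g x y, act g (x - y) = act g x - act g y := fun g x y => by
    have h1 := aadd g (x - y) y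
    rw [sub_add_cancel] at h1
    rw [h1, add_sub_cancel_right]
  let Psi : Y → (∀ j, R j → Fin (n j) → ZMod 2) := fun y j r i => p j i (act (Quotient.out r) (y : V))
  have hPsi : ∀ (y : Y) j g i, Psi y j (Quotient.mk (QuotientGroup.rightRel (C j)) g) i = p j i (act (rep j g) (y : V)) :=
    fun y j g i => rfl
  have hinj : Function.Injective Psi := fun y y' h => by
    have h0 : (y : V) - (y' : V) = 0 := by
      apply hker _ (Y.sub_mem y.2 y'.2)
      intro j i g
      rw [hval j _ (Y.sub_mem y.2 y'.2) g i]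
      apply Finset.sum_eq_zero
      intro k _
      have h1 : p j k (act (rep j g) ((y : V) - (y' : V))) = 0 := by
        rw [asub, map_sub, ← hPsi y j g k, ← hPsi y' j g k, h, sub_self]
      rw [h1, mul_zero]
    exact Subtype.ext (sub_eq_zero.mp h0)
  have hcardE : Nat.card (∀ j, R j → Fin (n j) → ZMod 2) = 2 ^ (∑ j, n j * (C j).index) := by
    rw [Nat.card_pi, ← Finset.prod_pow_eq_pow_sum]
    apply Finset.prod_congr rfl
    intro j _
    haveI := hRfin j
    rw [Nat.card_fun, Nat.card_fun, hRcard j, Nat.card_fin, Nat.card_zmod, ← pow_mul]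
  haveI : ∀ j, Finite (R j) := hRfin
  have hbij : Function.Bijective Psi := by
    apply Function.Injective.bijective_of_nat_card_le hinj
    rw [hcardE]
    exact hcard
  have h4 : ∀ f : ∀ j, G → Fin (n j) → ZMod 2,
      (∀ j, ∀ c ∈ C j, ∀ h i, f j (c * h) i = ∑ k, A j c i k * f j h k) →
        ∃ y ∈ Y, ∀ j h i, p j i (act h y) = f j h i := fun f hf => by
    obtain ⟨y, hy⟩ := hbij.2 (fun j r i => f j (Quotient.out r) i)
    refine ⟨y, y.2, fun j g i => ?_⟩
    rw [hval j _ y.2 g i]
    have h1 : ∀ k, p j k (act (rep j g) (y : V)) = f j (rep j g) k := fun k => by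
      rw [← hPsi y j g k, hy]
    have h2 := hf j (g * (rep j g)⁻¹) (hrep j g) (rep j g) i
    rw [inv_mul_cancel_right] at h2
    rw [h2]
    apply Finset.sum_congr rfl
    intro k _
    rw [h1]
  have h3 : ∀ j (z : Fin (n j) → ZMod 2), ∃ y ∈ Y, ∀ i, p j i y = z i := fun j z => by
    have ht : rep j 1 ∈ C j := by
      have h1 := hrep j 1
      rw [one_mul] at h1
      have h2 := (C j).inv_mem h1
      rwa [inv_inv] at h2
    obtain ⟨y, hy⟩ := hbij.2 (fun j' _ i => if hj : j' = j then z (hj ▸ i) else 0)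
    refine ⟨act (rep j 1) y, stb _ _ y.2, fun i => ?_⟩
    rw [← hPsi y j 1 i, hy]
    simp
  refine ⟨?_, ?_, h3, h4⟩
  · intro j i k
    obtain ⟨x, hx, hxz⟩ := h3 j (fun l => if l = k then 1 else 0)
    have h1 := heq j 1 (C j).one_mem i x hx
    rw [a1, hxz] at h1
    simp only [hxz, mul_ite, mul_one, mul_zero, Finset.sum_ite_eq', Finset.mem_univ, if_true] at h1
    exact h1.symm
  · intro j c hc c' hc' i k
    obtain ⟨x, hx, hxz⟩ := h3 j (fun l => if l = k then 1 else 0)
    have h1 := heq j (c * c') ((C j).mul_mem hc hc') i x hx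
    have h2 := heq j c hc i (act c' x) (stb _ _ hx)
    rw [amul, h2] at h1
    simp only [hxz, mul_ite, mul_one, mul_zero, Finset.sum_ite_eq', Finset.mem_univ, if_true] at h1
    rw [← h1]
    apply Finset.sum_congr rfl
    intro l _
    have h5 := heq j c' hc' l x hx
    simp only [hxz, mul_ite, mul_one, mul_zero, Finset.sum_ite_eq', Finset.mem_univ, if_true] at h5
    rw [h5]

end H88GT
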