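import Pool.Agent.H26.GN.Sc

/-!
ROW I3 (MP_78d38b_GT), transfer of `GBal` along an isomorphism `φ : W → W'` of groups with operators.

PROOF. `φ` maps stable subgroups of `W` to stable subgroups of `W'` bijectively, so `φ (soc act W) = soc act' W'` (we need: for `x ∈ soc act W`, `φ x ∈ soc act' W'`, and every element of `soc act' W'` is `φ x` with `x ∈ soc act W`; both by `AddSubgroup.sSup` induction:
`AddSubgroup.closure_induction` / `mem_iSup`, using the image `{φ u | u ∈ U}` and the preimage `{x ∈ W | φ x ∈ U'}` of a minimal stable subgroup).  Put `β x y = β' (φ x) (φ y)`.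
-/

set_option autoImplicit false
open scoped Classical

namespace H88GT

open H26GN

private theorem I3_zero {V V' : Type} [AddCommGroup V] [AddCommGroup V'] {W : AddSubgroup V}
    {φ : V → V'} (hadd : ∀ x ∈ W, ∀ y ∈ W, φ (x + y) = φ x + φ y) : φ 0 = 0 := by
  have h := hadd 0 W.zero_mem 0 W.zero_mem
  rw [add_zero] at h
  exact left_eq_add.1 h

private theorem I3_neg {V V' : Type} [AddCommGroup V] [AddCommGroup V'] {W : AddSubgroup V}
    {φ : V → V'} (hadd : ∀ x ∈ W, ∀ y ∈ W, φ (x + y) = φ x + φ y) {x : V} (hx : x ∈ W) :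
    φ (-x) = -φ x := by
  have h := hadd x hx (-x) (W.neg_mem hx)
  rw [add_neg_cancel, I3_zero hadd] at h
  exact (neg_eq_of_add_eq_zero_right h.symm).symm

private theorem I3_inj {V V' : Type} [AddCommGroup V] [AddCommGroup V'] {W : AddSubgroup V}
    {φ : V → V'} (hadd : ∀ x ∈ W, ∀ y ∈ W, φ (x + y) = φ x + φ y)
    (hinj : ∀ x ∈ W, φ x = 0 → x = 0) {x y : V} (hx : x ∈ W) (hy : y ∈ W) (h : φ x = φ y) :
    x = y := by
  have h1 := hadd x hx (-y) (W.neg_mem hy)
  rw [I3_neg hadd hy, h, add_neg_cancel] at h1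
  have h2 := hinj _ (W.add_mem hx (W.neg_mem hy)) h1
  rw [← sub_eq_add_neg] at h2
  exact sub_eq_zero.1 h2

private def I3_im {V V' : Type} [AddCommGroup V] [AddCommGroup V'] {W : AddSubgroup V}
    {φ : V → V'} (hadd : ∀ x ∈ W, ∀ y ∈ W, φ (x + y) = φ x + φ y) (U : AddSubgroup V)
    (hU : U ≤ W) : AddSubgroup V' where
  carrier := {y | ∃ u ∈ U, φ u = y}
  zero_mem' := ⟨0, U.zero_mem, I3_zero hadd⟩
  add_mem' := by
    rintro _ _ ⟨u, hu, rfl⟩ ⟨v, hv, rfl⟩
    exact ⟨u + v, U.add_mem hu hv, hadd u (hU hu) v (hU hv)⟩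
  neg_mem' := by
    rintro _ ⟨u, hu, rfl⟩
    exact ⟨-u, U.neg_mem hu, I3_neg hadd (hU hu)⟩

private def I3_pre {V V' : Type} [AddCommGroup V] [AddCommGroup V'] {W : AddSubgroup V}
    {φ : V → V'} (hadd : ∀ x ∈ W, ∀ y ∈ W, φ (x + y) = φ x + φ y) (U : AddSubgroup V') :
    AddSubgroup V where
  carrier := {x | x ∈ W ∧ φ x ∈ U}
  zero_mem' := ⟨W.zero_mem, by rw [I3_zero hadd]; exact U.zero_mem⟩
  add_mem' := by
    rintro x y ⟨hx, hx'⟩ ⟨hy, hy'⟩
    exact ⟨W.add_mem hx hy, by rw [hadd x hx y hy]; exact U.add_mem hx' hy'⟩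
  neg_mem' := by
    rintro x ⟨hx, hx'⟩
    exact ⟨W.neg_mem hx, by rw [I3_neg hadd hx]; exact U.neg_mem hx'⟩

theorem gbal_iso {G V V' : Type} [AddCommGroup V] [AddCommGroup V'] {act : G → V → V}
    {act' : G → V' → V'} {W : AddSubgroup V} {W' : AddSubgroup V'} (hW : ∀ g, ∀ x ∈ W, act g x ∈ W)
    (φ : V → V') (hadd : ∀ x ∈ W, ∀ y ∈ W, φ (x + y) = φ x + φ y)
    (hinj : ∀ x ∈ W, φ x = 0 → x = 0) (hmem : ∀ x ∈ W, φ x ∈ W')
    (hsurj : ∀ y ∈ W', ∃ x ∈ W, φ x = y) (hact : ∀ g, ∀ x ∈ W, φ (act g x) = act' g (φ x))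
    (h : GBal act' W') : GBal act W := by
  have hsocW : soc act W ≤ W := sSup_le fun U hU => hU.1
  -- images of minimal subgroups
  have him : ∀ U : AddSubgroup V, ∀ hU : U ≤ W, U ≠ ⊥ → Stb act U →
      (∀ U' : AddSubgroup V, U' ≤ U → Stb act U' → U' = ⊥ ∨ U' = U) →
      I3_im hadd U hU ≤ soc act' W' := by
    intro U hU hb hs hm
    apply le_sSup
    refine ⟨?_, ?_, ?_, ?_⟩
    · rintro _ ⟨u, hu, rfl⟩
      exact hmem u (hU hu)
    · intro h0
      apply hb
      rw [eq_bot_iff]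
      intro u hu
      have h1 : φ u ∈ I3_im hadd U hU := ⟨u, hu, rfl⟩
      rw [h0, AddSubgroup.mem_bot] at h1
      rw [AddSubgroup.mem_bot]
      exact hinj u (hU hu) h1
    · rintro g _ ⟨u, hu, rfl⟩
      exact ⟨act g u, hs g u hu, hact g u (hU hu)⟩
    · intro U' hU' hs'
      have hP : I3_pre hadd U' ≤ U := by
        rintro x ⟨hx, hx'⟩
        obtain ⟨u, hu, hux⟩ := hU' hx'
        rw [← I3_inj hadd hinj (hU hu) hx hux]
        exact hu
      have hPs : Stb act (I3_pre hadd U') := by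
        rintro g x ⟨hx, hx'⟩
        refine ⟨hW g x hx, ?_⟩
        rw [hact g x hx]
        exact hs' g _ hx'
      rcases hm _ hP hPs with h1 | h1
      · left
        rw [eq_bot_iff]
        intro y hy
        obtain ⟨u, hu, rfl⟩ := hU' hy
        have h2 : u ∈ I3_pre hadd U' := ⟨hU hu, hy⟩
        rw [h1, AddSubgroup.mem_bot] at h2
        rw [h2, I3_zero hadd]
        exact AddSubgroup.zero_mem _
      · right
        refine le_antisymm hU' ?_
        rintro _ ⟨u, hu, rfl⟩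
        rw [← h1] at hu
        exact hu.2
  have hpre : ∀ U' : AddSubgroup V', U' ≤ W' → U' ≠ ⊥ → Stb act' U' →
      (∀ U : AddSubgroup V', U ≤ U' → Stb act' U → U = ⊥ ∨ U = U') →
      I3_pre hadd U' ≤ soc act W := by
    intro U' hU' hb hs hm
    apply le_sSup
    refine ⟨fun x hx => hx.1, ?_, ?_, ?_⟩
    · intro h0
      apply hb
      rw [eq_bot_iff]
      intro y hy
      obtain ⟨x, hx, rfl⟩ := hsurj y (hU' hy)
      have h1 : x ∈ I3_pre hadd U' := ⟨hx, hy⟩
      rw [h0, AddSubgroup.mem_bot] at h1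
      rw [h1, I3_zero hadd]
      exact AddSubgroup.zero_mem _
    · rintro g x ⟨hx, hx'⟩
      refine ⟨hW g x hx, ?_⟩
      rw [hact g x hx]
      exact hs g _ hx'
    · intro Q hQ hQs
      have hQW : Q ≤ W := fun x hx => (hQ hx).1
      have h1 : I3_im hadd Q hQW ≤ U' := by
        rintro _ ⟨u, hu, rfl⟩
        exact (hQ hu).2
      have h2 : Stb act' (I3_im hadd Q hQW) := by
        rintro g _ ⟨u, hu, rfl⟩
        exact ⟨act g u, hQs g u hu, hact g u (hQW hu)⟩
      rcases hm _ h1 h2 with h3 | h3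
      · left
        rw [eq_bot_iff]
        intro q hq
        have h4 : φ q ∈ I3_im hadd Q hQW := ⟨q, hq, rfl⟩
        rw [h3, AddSubgroup.mem_bot] at h4
        rw [AddSubgroup.mem_bot]
        exact hinj q (hQW hq) h4
      · right
        refine le_antisymm hQ ?_
        rintro x ⟨hx, hx'⟩
        rw [← h3] at hx'
        obtain ⟨u, hu, hux⟩ := hx'
        rw [← I3_inj hadd hinj (hQW hu) hx hux]
        exact hu
  have hfw : ∀ x ∈ soc act W, φ x ∈ soc act' W' := by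
    have h1 : soc act W ≤ I3_pre hadd (soc act' W') := by
      apply sSup_le
      rintro U ⟨hU, hb, hs, hm⟩ u hu
      exact ⟨hU hu, him U hU hb hs hm ⟨u, hu, rfl⟩⟩
    exact fun x hx => (h1 hx).2
  have hbw : ∀ y ∈ soc act' W', ∃ x ∈ soc act W, φ x = y := by
    have h1 : soc act' W' ≤ I3_im hadd (soc act W) hsocW := by
      apply sSup_le
      rintro U ⟨hU, hb, hs, hm⟩ y hy
      obtain ⟨x, hx, rfl⟩ := hsurj y (hU hy)
      exact ⟨x, hpre U hU hb hs hm ⟨hx, hy⟩, rfl⟩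
    exact fun y hy => h1 hy
  obtain ⟨β, b1, b2, b3, b4⟩ := h
  refine ⟨fun x y => β (φ x) (φ y), ?_, ?_, ?_, ?_⟩
  · intro x hx x' hx' y hy
    show β (φ (x + x')) (φ y) = _
    rw [hadd x (hsocW hx) x' (hsocW hx')]
    exact b1 _ (hfw x hx) _ (hfw x' hx') _ (hfw y hy)
  · intro x hx y hy y' hy'
    show β (φ x) (φ (y + y')) = _
    rw [hadd y (hsocW hy) y' (hsocW hy')]
    exact b2 _ (hfw x hx) _ (hfw y hy) _ (hfw y' hy')
  · intro g x hx y hy
    show β (φ (act g x)) (φ (act g y)) = _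
    rw [hact g x (hsocW hx), hact g y (hsocW hy)]
    exact b3 g _ (hfw x hx) _ (hfw y hy)
  · intro x hx hxy
    apply hinj x (hsocW hx)
    apply b4 _ (hfw x hx)
    intro y hy
    obtain ⟨z, hz, rfl⟩ := hbw y hy
    exact hxy z hz

end H88GT
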