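import Pool.Agent.H49.GN.Al
import Pool.Agent.H88.GT.I1
import Pool.Agent.H88.GT.I2
import Pool.Agent.H88.GT.I3

/-!
ROW I4 (MP_78d38b_GT), the algebra part.

The functionals `p j i` separate the points of `Y`, `W` is the common kernel of the `q j i`; the `p j i`, `i < n j ≤ 2`, are transformed by matrices under the subgroup `C j` of odd order and the pairing `∑ p q` is invariant under it.

PROOF. Choose the matrices `A j c` (heq); apply I2 and, for every `j`, I1: `E j`, `β j`.  Let `X` be the group of the families `f j : G → Fin (n j) → ZMod 2`, with the action `act' g f j h = f j (h * g)`; `P y j h i = p j i (act h y)` (`P (act g y) = act' g (P y)`), `E f = (E j (f j))_j`.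
`P` is a bijection of `Y` onto `{f | E f = f}` (I2, fourth claim of I1).  For `f ∈ X` let `y_f ∈ Y` be the element with `P y_f = E f` (additive and equivariant in `f` by uniqueness), `om x y = ∑ j, ∑ g, ∑ i, p j i (act g x) * q j i (act g y)` on `Y`, and
`om' f f' = om y_f y_f' + ∑ j, β j (f j - E j (f j)) (f' j - E j (f' j))`.
Construct `H26GN.Nec act' (P '' W)` with `Y = ⊤`, this `m`, `R f i = H88OD.mk (fun g => f (e i).1 g⁻¹ (e i).2)` with a bijection `e : Fin m ⊕ Fin m ≃ Σ j, Fin (n j)`, `om'` (compare the proof of `H95GN.nec_of`, Pool/Agent/H95/GN/Nd.lean: Ract etc.).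
osym: `om` is symmetric on `Y` since `om y y = 0` (hQ) and it is additive.  oinv: `om y (act g y) = 0` by hQ, hI; the `β` part by the last claim of I1 (`f j - E j (f j)` is in the kernel of `E j`, and `E` commutes with `act'`).
rad: let `f` with `om' f' f = 0` for all `f'`.  Taking `f'` with `E f' = 0`: `∑ j, β j (f' j) (f j - E j (f j)) = 0`; for arbitrary `f'` put `f' - E f'` and use `β (E f') (f - E f) = β f' (E (f - E f)) = 0`: so `β j (f' j) (f j - E j (f j)) = 0` for all `f'`, hence `f = E f` (nondegenerate).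
Taking `f' = P y'`: `om y' y_f = 0` for all `y' ∈ Y`.  Claim: then `q j i (act g y_f) = 0`, i.e. `y_f ∈ W`.  The function `F j h i = q j i (act h y_f)` satisfies for `c ∈ C j`: `∑ i, (A j c z) i * F j (c h) i = ∑ i, z i * F j h i` for all `z ∈ F_2^(n j)` (hinv with `y = act h y_f` and `x ∈ Y` with `p j x = z`, third claim of I2).
For given `j₀, h₀, z` let `f'` be the family with `f' j₀ (c h₀) = A j₀ c z` for `c ∈ C j₀` and zero elsewhere: it is equivariant (first two claims of I2), so it is `P y'` with `y' ∈ Y`, and `0 = om y' y_f = ∑ c ∈ C j₀, ∑ i, (A j₀ c z) i * F j₀ (c h₀) i = |C j₀| * ∑ i, z i * F j₀ h₀ i = ∑ i, z i * F j₀ h₀ i`; so `F = 0`.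
Conversely the elements of `P '' W` are in the radical: `om y' x = 0` if all `q j i (act g x) = 0`.
Then `H49GN.gbal_of_nec` gives `GBal act' (P '' W)` and I3 gives `GBal act W`.
-/

set_option autoImplicit false
open scoped Classical

namespace H88GT

open H26GN

theorem gbal_of {G V : Type} [Group G] [Finite G] [Fintype G] [AddCommGroup V] {act : G → V → V}
    (a1 : ∀ x, act 1 x = x) (amul : ∀ g h x, act (g * h) x = act g (act h x))
    (aadd : ∀ g x y, act g (x + y) = act g x + act g y)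
    {W Y : AddSubgroup V} (stb : ∀ g, ∀ y ∈ Y, act g y ∈ Y)
    {ι : Type} [Fintype ι] {n : ι → ℕ} (hn2 : ∀ j, n j ≤ 2) {m : ℕ} (hm : ∑ j, n j = 2 * m)
    {C : ι → Subgroup G} (hC : ∀ j, Odd (Nat.card (C j)))
    (p q : ∀ j, Fin (n j) → (V →+ ZMod 2))
    (hker : ∀ y ∈ Y, (∀ j i g, p j i (act g y) = 0) → y = 0)
    (hcard : 2 ^ (∑ j, n j * (C j).index) ≤ Nat.card Y)
    (hW : ∀ x, x ∈ W ↔ x ∈ Y ∧ ∀ j i g, q j i (act g x) = 0)
    (heq : ∀ j, ∀ c ∈ C j, ∀ i, ∃ A : Fin (n j) → ZMod 2, ∀ x ∈ Y,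
      p j i (act c x) = ∑ k, A k * p j k x)
    (hinv : ∀ j, ∀ c ∈ C j, ∀ x ∈ Y, ∀ y ∈ Y,
      ∑ i, p j i (act c x) * q j i (act c y) = ∑ i, p j i x * q j i y)
    (hQ : ∀ y ∈ Y, ∑ j, ∑ g, ∑ i, p j i (act g y) * q j i (act g y) = 0)
    (hI : ∀ g : G, g * g = 1 → g ≠ 1 → ∀ y ∈ Y,
      ∑ j, ∑ h, ∑ i, p j i (act h y) * q j i (act h (act g y)) = 0) :
    GBal act W := by
  sorry

end H88GT
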